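import Pool.Agent.H61.HL.Cls

/-!
# The exact numbers of positive and negative primitive classes in a given weight
-/

open CategoryTheory AlgebraicGeometry Finset

universe u v

namespace Pool.Agent.H61.MS

open Pool.Agent.H914 Pool.Agent.H914.VarClass Pool.Agent.H914.VarClass.Obj
  Pool.Agent.H914.WeilCohomology Pool.Agent.H281R3.HT Pool.Agent.W552 Pool.Agent.W539.Ker
  Pool.Agent.H44T.SL

variable {k : Type u} [Field k] {𝒱 : VarClass k} {ops : CycleOps 𝒱}
  {W : WeilCohomology.{u, v} ops} {X Y : 𝒱.Obj} {D : X.Cycles} {f : Module.End W.K (W.H X)}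

/-- The sum of the `σ n` over the codimensions `n` of primitive classes contributing in weight
`m`, on a variety of dimension `d`. -/
def wsumN (d : ℕ) (σ : ℕ → ℕ) (m : ℤ) : ℕ :=
  ∑ n ∈ range (d / 2 + 1), if |m| ≤ (d : ℤ) - 2 * n ∧ (2 : ℤ) ∣ d + m then σ n else 0

section Form

variable (F : Fr W X D f)

include F

/-- The signature of the form on the algebraic classes of weight `m`, and the exact number of classes
in a maximal orthogonal family (compare `exists_fam'` in the library). -/
theorem exists_fam2 (m : ℤ) : ∃ (ι : Type) (_ : Fintype ι) (y : ι → W.H X) (s : ι → ℚ),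
    (∀ i, AS W X (y i)) ∧ (∀ i, wt (W.isInternal X) X.dim (y i) = (m : W.K) • y i) ∧
    (∀ i, s i ≠ 0) ∧ (∀ i, bf W X D f (y i) (y i) = (s i : W.K)) ∧
    (∀ i j, i ≠ j → bf W X D f (y i) (y j) = 0) ∧
    (∀ u, AS W X u → wt (W.isInternal X) X.dim u = (m : W.K) • u →
      (∀ i, bf W X D f u (y i) = 0) → bf W X D f u u = 0) ∧
    ∑ i, ((SignType.sign (s i) : SignType) : ℤ) = wsum X.dim (sig W X D) m ∧
    Fintype.card ι = wsumN X.dim (fun n => posNum W X D n + negNum W X D n) m := by
  classical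
  have hle : ∀ n : Fin (X.dim / 2 + 1), 2 * (n : ℕ) ≤ X.dim := fun n => by omega
  choose M x hx using fun n : Fin (X.dim / 2 + 1) => exists_prim W F.hD (hle n)
  set L := LinearMap.mulLeft W.K (W.cl X D) with hL
  let C : Fin (X.dim / 2 + 1) → Prop := fun n => |m| ≤ (X.dim : ℤ) - 2 * (n : ℕ) ∧
    (2 : ℤ) ∣ X.dim + m
  let j : Fin (X.dim / 2 + 1) → ℕ := fun n => ((m + X.dim - 2 * (n : ℕ)) / 2).toNat
  have hj : ∀ n, C n → (2 * (j n : ℤ) = m + X.dim - 2 * (n : ℕ)) ∧ j n ≤ X.dim - 2 * (n : ℕ) := by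
    rintro n ⟨h1, h2⟩
    have h3 := abs_le.1 h1
    have h4 := hle n
    have h5 : (2 * (j n : ℤ) = m + X.dim - 2 * (n : ℕ)) := by
      change 2 * (((m + X.dim - 2 * (n : ℕ)) / 2).toNat : ℤ) = _
      omega
    exact ⟨h5, by omega⟩
  have hpm : ∀ (n : Fin (X.dim / 2 + 1)) (t : Fin (M n)),
      Primitive W X D n (x n t : X.Cycles) := fun n t => (x n t).2
  have hpne : ∀ (n : Fin (X.dim / 2 + 1)) (t : Fin (M n)),
      pairing ops X D n (x n t : X.Cycles) (x n t : X.Cycles) ≠ 0 := by
    intro n t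
    have := (hx n).ne t
    rwa [BP_apply] at this
  have hgr : ∀ n : Fin (X.dim / 2 + 1), C n → ∀ z : X.Cycles, Primitive W X D n z → (L ^ (j n)) (W.cl X z) ∈
      algClasses W X (n + j n) := fun n _ z hz =>
    (ap_alg F).map_L_pow (j n) ⟨z, hz.1, rfl⟩
  have hc : ∀ n, (0 : ℚ) < (j n).factorial * ((X.dim - 2 * (n : ℕ) - j n).factorial : ℚ)⁻¹ := by
    intro n; positivity
  refine ⟨Σ n : {n : Fin (X.dim / 2 + 1) // C n}, Fin (M n.1), inferInstance,
    fun p => (L ^ (j p.1.1)) (W.cl X (x p.1.1 p.2 : X.Cycles)),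
    fun p => (j p.1.1).factorial * ((X.dim - 2 * (p.1.1 : ℕ) - j p.1.1).factorial : ℚ)⁻¹ *
      pairing ops X D p.1.1 (x p.1.1 p.2 : X.Cycles) (x p.1.1 p.2 : X.Cycles),
    ?_, ?_, ?_, ?_, ?_, ?_, ?_, ?_⟩
  · rintro ⟨⟨n, hn⟩, t⟩
    exact AS.of (hgr n hn _ (hpm n t))
  · rintro ⟨⟨n, hn⟩, t⟩
    have h1 := alg_gr (hgr n hn _ (hpm n t))
    rw [Fr.wt_gr h1]
    congr 1
    have h2 := (hj n hn).1
    have h3 : ((2 * (j n : ℤ) : ℤ) : W.K) = ((m + X.dim - 2 * (n : ℕ) : ℤ) : W.K) := by rw [h2]
    push_cast at h3 ⊢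
    linear_combination h3
  · rintro ⟨⟨n, hn⟩, t⟩
    exact mul_ne_zero (hc n).ne' (hpne n t)
  · rintro ⟨⟨n, hn⟩, t⟩
    exact bf_same F (hle n) (hpm n t) (hpm n t) (hj n hn).2
  · rintro ⟨⟨n, hn⟩, t⟩ ⟨⟨n', hn'⟩, t'⟩ hne
    by_cases hnn : n = n'
    · subst hnn
      have htt : t ≠ t' := by rintro rfl; exact hne rfl
      have h1 := bf_same F (hle n) (hpm n t) (hpm n t') (hj n hn).2
      have h2 : pairing ops X D n (x n t : X.Cycles) (x n t' : X.Cycles) = 0 := by
        have := (hx n).orth t t' htt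
        rwa [BP_apply] at this
      rw [h2, mul_zero, Rat.cast_zero] at h1
      exact h1
    · refine bf_cross F (hle n) (hle n') (fun h => hnn (Fin.ext h)) (hpm n t) (hpm n' t') ?_
        (hj n' hn').2
      have h1 := (hj n hn).1
      have h2 := (hj n' hn').1
      change (n : ℕ) + j n = (n' : ℕ) + j n'
      omega
  · intro w hw hwm hwy
    rcases AS_wt hw hwm with rfl | ⟨l, hl, hwl⟩
    · simp
    obtain ⟨v, hv, hs⟩ := (ap_alg F).decomp (mulLeft_isHom F.hD) W_hbd hwl
    rw [← hL] at hv hs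
    -- the primitive components
    have key : ∀ b ∈ range (l + 1), (L ^ b) (v b) = 0 ∨ ∃ n : Fin (X.dim / 2 + 1),
        (n : ℕ) = l - b ∧ C n ∧ j n = b ∧ ∃ z, Primitive W X D n z ∧ v b = W.cl X z := by
      intro b hb
      rw [Finset.mem_range] at hb
      obtain ⟨h1, h2, h3⟩ := hv b (by omega)
      by_cases h0 : (L ^ b) (v b) = 0
      · exact Or.inl h0
      right
      have hv0 : v b ≠ 0 := by rintro h; apply h0; rw [h, map_zero]
      have h4 := h2 hv0
      have h5 : b ≤ X.dim - 2 * (l - b) := by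
        by_contra h6
        exact h0 (L_pow_gt (n := X.dim) (i := 2 * (l - b)) h3 (by omega))
      obtain ⟨z, hz, hz'⟩ := h1
      have hC : C ⟨l - b, by omega⟩ := by
        refine ⟨abs_le.2 ⟨?_, ?_⟩, ?_⟩
        · change -((X.dim : ℤ) - 2 * ((l - b : ℕ) : ℤ)) ≤ m
          omega
        · change m ≤ (X.dim : ℤ) - 2 * ((l - b : ℕ) : ℤ)
          omega
        · omega
      refine ⟨⟨l - b, by omega⟩, rfl, hC, ?_, z, ⟨hz, ?_⟩, hz'.symm⟩
      · have h6 := (hj _ hC).1
        change 2 * (j ⟨l - b, _⟩ : ℤ) = m + X.dim - 2 * ((l - b : ℕ) : ℤ) at h6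
        omega
      · rw [cl_divPow, hz']; exact h3
    -- orthogonality of the components
    have hcross : ∀ b ∈ range (l + 1), ∀ b' ∈ range (l + 1), b ≠ b' →
        bf W X D f ((L ^ b) (v b)) ((L ^ b') (v b')) = 0 := by
      intro b hb b' hb' hne
      rcases key b hb with h0 | ⟨n, hn, hC, hjn, z, hz, hvz⟩
      · rw [h0, map_zero, LinearMap.zero_apply]
      rcases key b' hb' with h0 | ⟨n', hn', hC', hjn', z', hz', hvz'⟩
      · rw [h0, map_zero]
      rw [hvz, hvz']
      rw [Finset.mem_range] at hb hb'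
      refine bf_cross F (hle n) (hle n') (by omega) hz hz' (by omega) ?_
      rw [← hjn']
      exact (hj n' hC').2
    have hdiag : ∀ b ∈ range (l + 1), bf W X D f ((L ^ b) (v b)) ((L ^ b) (v b)) = 0 := by
      intro b hb
      rcases key b hb with h0 | ⟨n, hn, hC, hjn, z, hz, hvz⟩
      · rw [h0, map_zero]
      have hbj : b ≤ X.dim - 2 * (n : ℕ) := by rw [← hjn]; exact (hj n hC).2
      have h1 : ∀ t, BP W F.hD n (hle n) ⟨z, hz⟩ (x n t) = 0 := by
        intro t
        have h2 := hwy ⟨⟨n, hC⟩, t⟩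
        change bf W X D f w ((L ^ (j n)) (W.cl X (x n t : X.Cycles))) = 0 at h2
        have h3 : bf W X D f w ((L ^ (j n)) (W.cl X (x n t : X.Cycles))) =
            bf W X D f ((L ^ b) (v b)) ((L ^ (j n)) (W.cl X (x n t : X.Cycles))) := by
          rw [hs, map_sum (bf W X D f), LinearMap.sum_apply, Finset.sum_eq_single b]
          · intro b' hb' hne
            rcases key b' hb' with h0 | ⟨n', hn', hC', hjn', z', hz', hvz'⟩
            · rw [h0, map_zero, LinearMap.zero_apply]
            rw [hvz']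
            rw [Finset.mem_range] at hb hb'
            exact bf_cross F (hle n') (hle n) (by omega) hz' (hpm n t) (by omega) (hj n hC).2
          · intro h0; exact absurd hb h0
        rw [h2, hjn, hvz, bf_same F (hle n) hz (hpm n t) hbj] at h3
        have h4 : (0 : ℚ) = b.factorial * ((X.dim - 2 * (n : ℕ) - b).factorial : ℚ)⁻¹ *
            pairing ops X D n z (x n t : X.Cycles) := by exact_mod_cast h3
        rw [← hjn] at h4
        rcases mul_eq_zero.1 h4.symm with h5 | h5
        · exact absurd h5 (hc n).ne'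
        · rw [BP_apply]; exact h5
      have h2 : pairing ops X D n z z = 0 := by
        have := (hx n).max ⟨z, hz⟩ h1
        rwa [BP_apply] at this
      rw [hvz, bf_same F (hle n) hz hz hbj, h2, mul_zero, Rat.cast_zero]
    have h1 : bf W X D f w w = ∑ b ∈ range (l + 1), ∑ b' ∈ range (l + 1),
        bf W X D f ((L ^ b) (v b)) ((L ^ b') (v b')) := by
      conv_lhs => rw [hs]
      rw [map_sum (bf W X D f), LinearMap.sum_apply]
      apply Finset.sum_congr rfl
      intro b _
      rw [map_sum]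
    rw [h1]
    apply Finset.sum_eq_zero
    intro b hb
    apply Finset.sum_eq_zero
    intro b' hb'
    by_cases hbb : b = b'
    · subst hbb; exact hdiag b hb
    · exact hcross b hb b' hb' hbb
  · rw [Fintype.sum_sigma]
    have h1 : ∀ n : {n : Fin (X.dim / 2 + 1) // C n}, ∑ t : Fin (M n.1),
        ((SignType.sign ((j n.1).factorial * ((X.dim - 2 * (n.1 : ℕ) - j n.1).factorial : ℚ)⁻¹ *
          pairing ops X D n.1 (x n.1 t : X.Cycles) (x n.1 t : X.Cycles)) : SignType) : ℤ) =
        sig W X D n.1 := by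
      intro n
      rw [sig_eq F.hD (hle n.1) (hx n.1)]
      apply Finset.sum_congr rfl
      intro t _
      rw [sign_mul, sign_pos (hc n.1), one_mul, BP_apply]
    rw [Finset.sum_congr rfl (fun n _ => h1 n), wsum, Finset.sum_range, ← Finset.sum_filter]
    exact (Finset.sum_subtype (univ.filter C) (by simp) (fun n => sig W X D n)).symm
  · rw [Fintype.card_sigma]
    have h1 : ∀ n : Fin (X.dim / 2 + 1), M n = posNum W X D n + negNum W X D n := fun n =>
      (rank_eq F.hD (hle n) (hx n)).symm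
    have h2 : ∀ n : {n : Fin (X.dim / 2 + 1) // C n}, Fintype.card (Fin (M n.1)) =
        posNum W X D n.1 + negNum W X D n.1 := fun n => by rw [Fintype.card_fin, h1]
    rw [Finset.sum_congr rfl (fun n _ => h2 n), wsumN, Finset.sum_range, ← Finset.sum_filter]
    exact (Finset.sum_subtype (univ.filter C) (by simp)
      (fun n => posNum W X D (n : ℕ) + negNum W X D (n : ℕ))).symm

end Form

attribute [local instance] ratM

/-- An orthogonal family with the exact numbers of positive and negative classes. -/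
lemma exists_om2 (F : Fr W X D f) (m : ℤ) : ∃ (ι : Type) (_ : Fintype ι)
    (x : ι → AWs W X m 1), OM (BA F m 1) x ∧
    (univ.filter fun i => 0 < BA F m 1 (x i) (x i)).card = wsumN X.dim (posNum W X D) m ∧
    (univ.filter fun i => BA F m 1 (x i) (x i) < 0).card = wsumN X.dim (negNum W X D) m := by
  classical
  obtain ⟨ι, hι, y, s, h1, h2, h3, h4, h5, h6, h7, h8⟩ := exists_fam2 F m
  let x : ι → AWs W X m 1 := fun i => ⟨y i, h1 i, h2 i, rfl⟩
  have hs : ∀ i, BA F m 1 (x i) (x i) = s i := by
    intro i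
    have : ((BA F m 1 (x i) (x i) : ℚ) : W.K) = (s i : W.K) := by rw [BA_cast]; exact h4 i
    exact_mod_cast this
  refine ⟨ι, hι, x, ⟨fun i => ?_, fun i j hij => ?_, fun v hv => ?_⟩, ?_⟩
  · rw [hs]; exact h3 i
  · rw [BA_eq_zero]; exact h5 i j hij
  · rw [BA_eq_zero]
    refine h6 _ v.2.1 v.2.2.1 fun i => ?_
    have := hv i
    rw [BA_eq_zero] at this
    exact this
  · simp only [hs]
    have e1 : (∑ i, ((SignType.sign (s i) : SignType) : ℤ)) =
        ((univ.filter fun i => 0 < s i).card : ℤ) - (univ.filter fun i => s i < 0).card := by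
      rw [Finset.card_filter, Finset.card_filter]
      push_cast
      rw [← Finset.sum_sub_distrib]
      apply Finset.sum_congr rfl
      intro i _
      rcases lt_trichotomy (s i) 0 with h0 | h0 | h0
      · rw [if_neg (not_lt.2 h0.le), if_pos h0, sign_neg h0]; simp
      · exact absurd h0 (h3 i)
      · rw [if_pos h0, if_neg (not_lt.2 h0.le), sign_pos h0]; simp
    have e2 : Fintype.card ι = (univ.filter fun i => 0 < s i).card +
        (univ.filter fun i => s i < 0).card := by
      have h9 := Finset.card_filter_add_card_filter_not (s := (univ : Finset ι))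
        (fun i => 0 < s i)
      have h10 : (univ.filter fun i => ¬ 0 < s i) = univ.filter fun i => s i < 0 := by
        ext i
        simp only [Finset.mem_filter, Finset.mem_univ, true_and, not_lt]
        exact ⟨fun h => lt_of_le_of_ne h (h3 i), fun h => h.le⟩
      rw [h10, Finset.card_univ] at h9
      exact h9.symm
    have e3 : wsum X.dim (sig W X D) m = (wsumN X.dim (posNum W X D) m : ℤ) -
        wsumN X.dim (negNum W X D) m := by
      rw [wsum, wsumN, wsumN]
      push_cast
      rw [← Finset.sum_sub_distrib]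
      apply Finset.sum_congr rfl
      intro n _
      split_ifs
      · rfl
      · simp
    have e4 : wsumN X.dim (fun n => posNum W X D n + negNum W X D n) m =
        wsumN X.dim (posNum W X D) m + wsumN X.dim (negNum W X D) m := by
      rw [wsumN, wsumN, wsumN, ← Finset.sum_add_distrib]
      apply Finset.sum_congr rfl
      intro n _
      split_ifs
      · rfl
      · rfl
    rw [h7, e3] at e1
    rw [h8, e4] at e2
    omega

/-- In the middle weight all the codimensions contribute. -/
lemma wsumN_mid (d : ℕ) (σ : ℕ → ℕ) : wsumN d σ ((d % 2 : ℕ) : ℤ) =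
    ∑ n ∈ range (d / 2 + 1), σ n := by
  apply Finset.sum_congr rfl
  intro n hn
  rw [Finset.mem_range] at hn
  rw [if_pos]
  constructor
  · rw [abs_of_nonneg (by positivity)]
    omega
  · omega

lemma wsumN_zero (d : ℕ) {σ : ℕ → ℕ} (h : ∀ n, 2 * n ≤ d → σ n = 0) (m : ℤ) :
    wsumN d σ m = 0 := by
  apply Finset.sum_eq_zero
  intro n hn
  rw [Finset.mem_range] at hn
  rw [h n (by omega), ite_self]

end Pool.Agent.H61.MS
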