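import Pool.Agent.H61.MS.Low
import Pool.Agent.H61.MS.Cnt

/-!
# Rational homogeneous operators, and adjoints for the star forms
-/

open CategoryTheory AlgebraicGeometry

universe u v

namespace Pool.Agent.H61.MS

open Module
open Pool.Agent.H914 Pool.Agent.H914.VarClass Pool.Agent.H914.VarClass.Obj
  Pool.Agent.H914.WeilCohomology Pool.Agent.H281R3.HT Pool.Agent.W552 Pool.Agent.W539.Ker
  Pool.Agent.Y133.Half Pool.Agent.H61.GX Pool.Agent.H61.ZX

variable {k : Type u} [Field k] {𝒱 : VarClass k} {ops : CycleOps 𝒱}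
  {W : WeilCohomology.{u, v} ops} {P Q X Y Z M : 𝒱.Obj}

/-- Rational algebraic operators which raise the weight by `m`. -/
def AH (W : WeilCohomology.{u, v} ops) (P Q : 𝒱.Obj) (m : ℤ) (u : W.H P →ₗ[W.K] W.H Q) : Prop :=
  AOp W P Q u ∧ Hm W m u

namespace AH

lemma add {m : ℤ} {u u' : W.H P →ₗ[W.K] W.H Q} (h : AH W P Q m u) (h' : AH W P Q m u') :
    AH W P Q m (u + u') := ⟨h.1.add h'.1, h.2.add h'.2⟩

lemma zero {m : ℤ} : AH W P Q m 0 := ⟨AOp.zero, Hm.zero⟩

lemma smul {m : ℤ} (q : ℚ) {u : W.H P →ₗ[W.K] W.H Q} (h : AH W P Q m u) :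
    AH W P Q m ((q : W.K) • u) := ⟨h.1.smul q, h.2.smul _⟩

lemma comp {m m' : ℤ} {u : W.H P →ₗ[W.K] W.H Q} {u' : W.H Q →ₗ[W.K] W.H X}
    (h' : AH W Q X m' u') (h : AH W P Q m u) : AH W P X (m' + m) (u' ∘ₗ u) :=
  ⟨h'.1.comp h.1, h'.2.comp h.2⟩

lemma one : AH W P P 0 (LinearMap.id : W.H P →ₗ[W.K] W.H P) := ⟨AOp.one, Hm.one⟩

/-- The class of the operator. -/
lemma exists_cls {m : ℤ} {u : W.H P →ₗ[W.K] W.H Q} (h : AH W P Q m u) :
    ∃ c, AS W (P.prod Q) c ∧
      wt (W.isInternal (P.prod Q)) (P.prod Q).dim c = (m : W.K) • c ∧ W.corr c = u := by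
  obtain ⟨⟨c, hc, rfl⟩, h2⟩ := h
  exact ⟨c, hc, hm_corr.1 h2, rfl⟩

lemma of_cls {m : ℤ} {c : W.H (P.prod Q)} (hc : AS W (P.prod Q) c)
    (h : wt (W.isInternal (P.prod Q)) (P.prod Q).dim c = (m : W.K) • c) :
    AH W P Q m (W.corr c) := ⟨⟨c, hc, rfl⟩, hm_corr.2 h⟩

end AH

lemma alg_mem_gc {j : ℕ} {c : W.H Q} (hc : c ∈ algClasses W Q j) :
    c ∈ GC (algSys W) Q (j : ℤ) := by
  refine ⟨?_, by rw [gz_nat]; exact alg_gr hc⟩
  obtain ⟨z, hz, rfl⟩ := hc
  exact W536.RR.cl_mem_algSpan hz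

/-- The weight of an operator of degree `r`. -/
def wo (P Q : 𝒱.Obj) (r : ℤ) : ℤ := 2 * r + P.dim - Q.dim

lemma AH.gop {m r : ℤ} (hm : m = wo P Q r) {u : W.H P →ₗ[W.K] W.H Q} (h : AH W P Q m u) :
    u ∈ GOp (algSys W) P Q r := by
  obtain ⟨c, hc, hw, rfl⟩ := h.exists_cls
  rcases AS_wt hc hw with rfl | ⟨j, hj, hcj⟩
  · rw [corr_zero]; exact Submodule.zero_mem _
  · refine GOp.corr (alg_mem_gc hcj) ?_
    rw [hm, wo, dim_prod] at hj
    push_cast at hj
    omega

lemma AH.ev {m : ℤ} {u : W.H P →ₗ[W.K] W.H Q} (h : AH W P Q m u) : Ev W u := by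
  obtain ⟨c, hc, hw, rfl⟩ := h.exists_cls
  apply Ev.corr
  rcases AS_wt hc hw with rfl | ⟨j, hj, hcj⟩
  · exact Submodule.zero_mem _
  · exact PH.of' (by omega) (alg_gr hcj)

/-- The homogeneous operators are spanned by the rational ones. -/
lemma gop_le_span (P Q : 𝒱.Obj) (r : ℤ) : GOp (algSys W) P Q r ≤
    Submodule.span W.K {u | AH W P Q (wo P Q r) u} := by
  intro u hu
  obtain ⟨c, hc, rfl⟩ := mem_GOp.1 hu
  by_cases hneg : (P.dim : ℤ) + r < 0
  · have h1 := hc.2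
    rw [gz_neg hneg, SetLike.mem_coe, Submodule.mem_bot] at h1
    rw [h1, corr_zero]; exact Submodule.zero_mem _
  obtain ⟨j, hj⟩ : ∃ j : ℕ, (j : ℤ) = P.dim + r := ⟨_, Int.toNat_of_nonneg (by omega)⟩
  rw [← hj, gc_alg] at hc
  refine Submodule.span_induction (p := fun c _ => W.corr c ∈
    Submodule.span W.K {u | AH W P Q (wo P Q r) u}) ?_ ?_ ?_ ?_ hc
  · rintro _ ⟨i, hi, z, hz, rfl⟩
    have hij : i = j := by exact_mod_cast hi
    subst hij
    have hza : W.cl (P.prod Q) z ∈ algClasses W (P.prod Q) i := ⟨z, hz, rfl⟩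
    refine Submodule.subset_span (AH.of_cls (AS.of hza) ?_)
    rw [Fr.wt_gr (alg_gr hza), wo, dim_prod]
    congr 1
    have h2 : ((i : ℤ) : W.K) = ((P.dim + r : ℤ) : W.K) := by rw [hj]
    push_cast at h2 ⊢
    rw [h2]
    ring
  · rw [corr_zero]; exact Submodule.zero_mem _
  · intro a b _ _ ha hb
    rw [corr_add]; exact Submodule.add_mem _ ha hb
  · intro t a _ ha
    rw [corr_smul]; exact Submodule.smul_mem _ _ ha

/-! ### The adjoint -/

section Adj

variable {D : X.Cycles} {f : Module.End W.K (W.H X)} {E : Y.Cycles}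
  {g : Module.End W.K (W.H Y)} {B : Z.Cycles} {h : Module.End W.K (W.H Z)}

/-- The isomorphism of the cohomology with its dual given by the star form. -/
noncomputable def sharp (G : Gd W X D f) : W.H X ≃ₗ[W.K] Dual W.K (W.H X) :=
  LinearMap.linearEquivOfInjective (bf W X D f).flip (by
    rw [← LinearMap.ker_eq_bot, LinearMap.ker_eq_bot']
    intro z hz
    exact G.nondeg fun y => congrArg (fun l : Dual W.K (W.H X) => l y) hz)
    (Subspace.dual_finrank_eq).symm

lemma sharp_apply (G : Gd W X D f) (z y : W.H X) : sharp G z y = bf W X D f y z := rfl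

/-- The adjoint with respect to the star forms. -/
noncomputable def sadj (G : Gd W X D f) (G' : Gd W Y E g) :
    (W.H X →ₗ[W.K] W.H Y) →ₗ[W.K] (W.H Y →ₗ[W.K] W.H X) where
  toFun u := (sharp G).symm.toLinearMap ∘ₗ u.dualMap ∘ₗ (sharp G').toLinearMap
  map_add' u v := by
    apply LinearMap.ext
    intro y
    change (sharp G).symm ((u + v).dualMap (sharp G' y)) =
      (sharp G).symm (u.dualMap (sharp G' y)) + (sharp G).symm (v.dualMap (sharp G' y))
    rw [← map_add]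
    congr 1
    apply LinearMap.ext
    intro x
    change (sharp G' y) ((u + v) x) = (sharp G' y) (u x) + (sharp G' y) (v x)
    rw [LinearMap.add_apply, map_add]
  map_smul' c u := by
    apply LinearMap.ext
    intro y
    change (sharp G).symm ((c • u).dualMap (sharp G' y)) =
      c • (sharp G).symm (u.dualMap (sharp G' y))
    rw [← map_smul]
    congr 1
    apply LinearMap.ext
    intro x
    change (sharp G' y) ((c • u) x) = c • (sharp G' y) (u x)
    rw [LinearMap.smul_apply, map_smul]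

lemma bf_sadj (G : Gd W X D f) (G' : Gd W Y E g) (u : W.H X →ₗ[W.K] W.H Y) (p : W.H X)
    (q : W.H Y) : bf W X D f p (sadj G G' u q) = bf W Y E g (u p) q := by
  rw [← sharp_apply G]
  change (sharp G ((sharp G).symm (u.dualMap (sharp G' q)))) p = _
  rw [LinearEquiv.apply_symm_apply]
  rfl

lemma eq_sadj (G : Gd W X D f) (G' : Gd W Y E g) {u : W.H X →ₗ[W.K] W.H Y}
    {u' : W.H Y →ₗ[W.K] W.H X} (hu : ∀ p q, bf W Y E g (u p) q = bf W X D f p (u' q)) :
    u' = sadj G G' u := by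
  apply LinearMap.ext
  intro q
  rw [← sub_eq_zero]
  apply G.nondeg
  intro p
  rw [map_sub, bf_sadj, hu, sub_self]

lemma AH.sadj {G : Gd W X D f} {G' : Gd W Y E g} {m : ℤ} {u : W.H X →ₗ[W.K] W.H Y}
    (hu : AH W X Y m u) : AH W Y X (-m) (MS.sadj G G' u) := by
  obtain ⟨u', h1, h2⟩ := G.adj G' hu.1
  have h3 := G.hm_adj G' h2 hu.2
  rw [← eq_sadj G G' h2]
  exact ⟨h1, h3⟩

lemma sadj_comp (G : Gd W X D f) (G' : Gd W Y E g) (G'' : Gd W Z B h)
    (u : W.H X →ₗ[W.K] W.H Y) (v : W.H Y →ₗ[W.K] W.H Z) :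
    sadj G G'' (v ∘ₗ u) = sadj G G' u ∘ₗ sadj G' G'' v := by
  refine (eq_sadj G G'' ?_).symm
  intro p q
  rw [LinearMap.comp_apply, LinearMap.comp_apply, bf_sadj, bf_sadj]

lemma sadj_sadj (G : Gd W X D f) (G' : Gd W Y E g) {u : W.H X →ₗ[W.K] W.H Y} (hu : Ev W u) :
    sadj G' G (sadj G G' u) = u := by
  refine (eq_sadj G' G ?_).symm
  intro y p
  have h1 : par (W.isInternal Y) (u p) = u (par (W.isInternal X) p) :=
    congrArg (fun t => t p) hu.par_comm
  rw [G.sy, bf_sadj, G'.sy y, h1]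

lemma sadj_id (G : Gd W X D f) : sadj G G LinearMap.id = LinearMap.id :=
  (eq_sadj G G (u := LinearMap.id) (u' := LinearMap.id) fun p q => by
    rw [LinearMap.id_apply, LinearMap.id_apply]).symm

end Adj

/-- The parity operator is homogeneous. -/
lemma par_gop {D : X.Cycles} {f : Module.End W.K (W.H X)} (G : Gd W X D f) :
    AH W X X 0 (par (W.isInternal X)) := by
  refine ⟨G.pa, ?_⟩
  apply LinearMap.ext
  intro x
  have h1 : ∀ x : W.H X, wt (W.isInternal X) X.dim (par (W.isInternal X) x) =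
      par (W.isInternal X) (wt (W.isInternal X) X.dim x) := by
    intro x
    refine gr_induction (W.isInternal X) (p := fun x => wt (W.isInternal X) X.dim
      (par (W.isInternal X) x) = par (W.isInternal X) (wt (W.isInternal X) X.dim x)) ?_ ?_ x
    · intro i x hx
      rw [Fr.wt_gr hx, map_smul, par, scal_apply _ _ hx, map_smul, Fr.wt_gr hx, smul_comm]
    · intro a b ha hb
      rw [map_add, map_add, ha, hb, map_add, map_add]
  rw [LinearMap.comp_apply, LinearMap.add_apply, LinearMap.comp_apply, h1, LinearMap.smul_apply,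
    Int.cast_zero, zero_smul, add_zero]

lemma wo_self (X : 𝒱.Obj) : (0 : ℤ) = wo X X 0 := by rw [wo]; ring

end Pool.Agent.H61.MS
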