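import Pool.Agent.H61.MS.Dec
import Pool.Agent.H61.MS.Cnt

/-!
# The numbers of positive and negative classes of the pieces
-/

open CategoryTheory AlgebraicGeometry

universe u v

namespace Pool.Agent.H61.MS

open Module
open Pool.Agent.H914 Pool.Agent.H914.VarClass Pool.Agent.H914.VarClass.Obj
  Pool.Agent.H914.WeilCohomology Pool.Agent.H281R3.HT Pool.Agent.W552 Pool.Agent.W539.Ker
  Pool.Agent.Y133.Half Pool.Agent.H61.GX Pool.Agent.H61.ZX Pool.Agent.H44T.SL Pool.Agent.Y97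

variable {k : Type u} [Field k] {𝒱 : VarClass k} {ops : CycleOps 𝒱}
  {W : WeilCohomology.{u, v} ops} {A Y Z : 𝒱.Obj} {D : Y.Cycles} {g : Module.End W.K (W.H Y)}
  {B : Z.Cycles} {h : Module.End W.K (W.H Z)}

attribute [local instance] ratM

/-- The operator `p` is positive on the classes of weight `wo Y Z ρ`, and detects the radical. -/
def PosOn (GY : Gd W Y D g) (GZ : Gd W Z B h) (p : Module.End W.K (W.H Z)) (ρ : ℤ) : Prop :=
  ∀ t : W.H Y →ₗ[W.K] W.H Z, AH W Y Z (wo Y Z ρ) t → ∃ q : ℚ, 0 ≤ q ∧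
    LinearMap.trace W.K (W.H Y) (sadj GY GZ t ∘ₗ p ∘ₗ t) = q ∧
    (q = 0 → ∀ t', AH W Y Z (wo Y Z ρ) t' →
      LinearMap.trace W.K (W.H Y) (sadj GY GZ t ∘ₗ t') = 0)

section Piece

variable {GY : Gd W Y D g} {GZ : Gd W Z B h} {p e : Module.End W.K (W.H Z)} {ρ : ℤ}

lemma SAH.mulE (H : SAH GZ p) (He : SAH GZ e) (hc : p * e = e * p) : SAH GZ (p ∘ₗ e) := by
  refine ⟨?_, ?_⟩
  · have := (He.ah.comp H.ah).cast (add_zero 0)
    rw [show p ∘ₗ e = e ∘ₗ p from hc]
    exact this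
  · rw [sadj_comp GZ GZ GZ, H.sa, He.sa]
    exact hc.symm

/-- The operator on the classes. -/
noncomputable def pHat (H : SAH GZ p) (He : SAH GZ e) (hee : e * e = e) (hc : p * e = e * p)
    (GY : Gd W Y D g) (m : ℤ) :
    AWs W (Y.prod Z) m (extOp W 1 e) →ₗ[ℚ] AWs W (Y.prod Z) m (extOp W 1 e) where
  toFun v := ⟨extOp W 1 (p ∘ₗ e) (v : W.H (Y.prod Z)),
    ((H.mulE He hc).ext (GY := GY)).mem v.2 (fun x => by
      have h1 : extOp W (1 : Module.End W.K (W.H Y)) e * extOp W 1 (p ∘ₗ e) =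
          extOp W 1 (p ∘ₗ e) := by
        rw [extOp_mul, one_mul]
        congr 1
        change e * (p * e) = p * e
        rw [hc, ← mul_assoc, hee]
      exact congrArg (fun t => t x) h1)⟩
  map_add' a b := Subtype.ext (map_add _ _ _)
  map_smul' q a := Subtype.ext (by
    change extOp W 1 (p ∘ₗ e) (q • (a : W.H (Y.prod Z))) = q • _
    rw [rat_smul, map_smul, rat_smul])

lemma corr_pHat (H : SAH GZ p) (He : SAH GZ e) (hee : e * e = e) (hc : p * e = e * p)
    (GY : Gd W Y D g) (m : ℤ) (v : AWs W (Y.prod Z) m (extOp W 1 e)) :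
    W.corr (pHat H He hee hc GY m v : W.H (Y.prod Z)) = p ∘ₗ W.corr (v : W.H (Y.prod Z)) := by
  change W.corr (extOp W 1 (p ∘ₗ e) (v : W.H (Y.prod Z))) = _
  rw [corr_one_ext (H.mulE He hc).ah.ev, LinearMap.comp_assoc, corr_fix He.ah.ev]

open Polynomial in
lemma corr_aeval (H : SAH GZ p) (He : SAH GZ e) (hee : e * e = e) (hc : p * e = e * p)
    (GY : Gd W Y D g) (m : ℤ) (f : ℚ[X]) (v : AWs W (Y.prod Z) m (extOp W 1 e)) :
    W.corr (aeval (pHat H He hee hc GY m) f v : W.H (Y.prod Z)) =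
      MS.evR p f ∘ₗ W.corr (v : W.H (Y.prod Z)) := by
  have hpow : ∀ (n : ℕ) (v : AWs W (Y.prod Z) m (extOp W 1 e)),
      W.corr (((pHat H He hee hc GY m) ^ n) v : W.H (Y.prod Z)) =
        (p ^ n : Module.End W.K (W.H Z)) ∘ₗ W.corr (v : W.H (Y.prod Z)) := by
    intro n
    induction n with
    | zero => intro v; rfl
    | succ n ih =>
      intro v
      rw [pow_succ, Module.End.mul_apply, ih, corr_pHat, pow_succ]
      rfl
  induction f using Polynomial.induction_on' with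
  | add f g hf hg =>
    rw [map_add, map_add, LinearMap.add_apply, Submodule.coe_add, LinearMap.add_comp, ← hf, ← hg]
    exact W.corr_add _ _
  | monomial n a =>
    rw [aeval_monomial, ← Algebra.smul_def, evR_monomial, LinearMap.smul_apply,
      Submodule.coe_smul, rat_smul, corr_smul, hpow, LinearMap.smul_comp]

/-- **The number of negative squares of a piece.** -/
theorem piece_count (H : SAH GZ p) {q : Polynomial ℚ} {N : ℕ} (hpc : Piece GZ A p q N e)
    (hP : PosOn GY GZ p ρ) {ι : Type*} [Fintype ι] [DecidableEq ι]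
    {x : ι → AWs W (Y.prod Z) (wo Y Z ρ) (extOp W 1 e)}
    (hx : OM (BA (GY.fr.prod GZ.fr) (wo Y Z ρ) (extOp W 1 e)) x) :
    q.natDegree * (Finset.univ.filter fun i =>
      BA (GY.fr.prod GZ.fr) (wo Y Z ρ) (extOp W 1 e) (x i) (x i) < 0).card =
        nneg q * Fintype.card ι := by
  have hS : Sy W (Y.prod Z) (ops.pull (fst Y Z) D + ops.pull (snd Y Z) B) (extSum W g h) :=
    Sy.prod GY.fr GZ.fr GY.sy GZ.sy
  have hsymm := BA_symm (GY.fr.prod GZ.fr) hS (m := wo Y Z ρ) (g := extOp W 1 e)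
  set P := pHat H hpc.sah hpc.idem hpc.comm GY (wo Y Z ρ) with hPdef
  have hval : ∀ u w : AWs W (Y.prod Z) (wo Y Z ρ) (extOp W 1 e),
      ((BA (GY.fr.prod GZ.fr) (wo Y Z ρ) (extOp W 1 e) u (P w) : ℚ) : W.K) =
      LinearMap.trace W.K (W.H Y) (sadj GY GZ (W.corr (u : W.H (Y.prod Z))) ∘ₗ p ∘ₗ
        W.corr (w : W.H (Y.prod Z))) := by
    intro u w
    rw [← tr_sadj_BA' GY GZ, hPdef, corr_pHat]
  have hAH : ∀ u : AWs W (Y.prod Z) (wo Y Z ρ) (extOp W 1 e),
      AH W Y Z (wo Y Z ρ) (W.corr (u : W.H (Y.prod Z))) := fun u => AH.of_cls u.2.1 u.2.2.1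
  refine om_index hsymm hx (p := P) ?_ ?_ ?_ hpc.irr hpc.mon (N := N) ?_
  · intro u w
    have h1 : ((BA (GY.fr.prod GZ.fr) (wo Y Z ρ) (extOp W 1 e) (P u) w : ℚ) : W.K) =
        ((BA (GY.fr.prod GZ.fr) (wo Y Z ρ) (extOp W 1 e) u (P w) : ℚ) : W.K) := by
      rw [BA_cast, BA_cast]
      exact ((H.mulE hpc.sah hpc.comm).ext (GY := GY)).adj _ _
    exact_mod_cast h1
  · intro u
    obtain ⟨r, hr0, hr1, -⟩ := hP _ (hAH u)
    rw [← hval] at hr1
    have h2 : BA (GY.fr.prod GZ.fr) (wo Y Z ρ) (extOp W 1 e) u (P u) = r := by exact_mod_cast hr1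
    rw [h2]; exact hr0
  · intro u hu w
    obtain ⟨r, hr0, hr1, hr2⟩ := hP _ (hAH u)
    rw [← hval, hu, Rat.cast_zero] at hr1
    have h3 := hr2 (by exact_mod_cast hr1.symm) _ (hAH w)
    rw [tr_sadj_BA' GY GZ] at h3
    exact_mod_cast h3
  · intro u
    apply Subtype.ext
    apply corr_inj
    rw [corr_aeval, ← corr_fix hpc.sah.ah.ev u, ← LinearMap.comp_assoc]
    have h4 : MS.evR p (q ^ N) ∘ₗ e = 0 := hpc.kill
    rw [h4, LinearMap.zero_comp]

/-- Operators killed by a power of `p` are in the radical. -/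
lemma radical_of_pow (H : SAH GZ p) (hP : PosOn GY GZ p ρ) (M : ℕ) :
    ∀ t : W.H Y →ₗ[W.K] W.H Z, AH W Y Z (wo Y Z ρ) t → (p ^ M : Module.End W.K (W.H Z)) ∘ₗ t = 0 →
      ∀ t', AH W Y Z (wo Y Z ρ) t' →
        LinearMap.trace W.K (W.H Y) (sadj GY GZ t ∘ₗ t') = 0 := by
  induction M with
  | zero =>
    intro t _ h0 t' _
    have : t = 0 := by
      rw [pow_zero] at h0
      exact h0
    rw [this, map_zero, LinearMap.zero_comp, map_zero]
  | succ M ih =>
    intro t ht h0 t' ht'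
    have hpt : AH W Y Z (wo Y Z ρ) (p ∘ₗ t) := by
      exact (H.ah.comp ht).cast (zero_add _)
    have h1 := ih (p ∘ₗ t) hpt (by
      rw [pow_succ] at h0
      exact h0) t ht
    rw [sadj_comp GY GZ GZ, H.sa] at h1
    obtain ⟨r, -, hr1, hr2⟩ := hP t ht
    have h2 : (r : W.K) = 0 := by
      rw [← hr1]
      exact h1
    exact hr2 (by exact_mod_cast h2) t' ht'

open Polynomial in
/-- **The numbers of positive and of negative squares of the pieces.** -/
theorem count_pieces (H : SAH GZ p) {t : Finset ℚ[X]} {N : ℚ[X] → ℕ}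
    {e : ℚ[X] → Module.End W.K (W.H Z)} {M : ℕ}
    (hpc : ∀ q ∈ t, Piece GZ A p q (N q) (e q))
    (hort : ∀ q ∈ t, ∀ q' ∈ t, q ≠ q' → e q * e q' = 0)
    (hM : p ^ M * (1 - ∑ q ∈ t, e q) = 0) (hP : PosOn GY GZ p ρ) :
    ∃ P Q : ℚ[X] → ℕ,
      (∀ q ∈ t, P q + Q q = rg (algSys W) Z (e q) Y (Y.dim + ρ) (Z.dim - ρ) ∧
        q.natDegree * Q q = nneg q * (P q + Q q)) ∧
      wsumN (Y.prod Z).dim (posNum W (Y.prod Z)
        (ops.pull (fst Y Z) D + ops.pull (snd Y Z) B)) (wo Y Z ρ) = ∑ q ∈ t, P q ∧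
      wsumN (Y.prod Z).dim (negNum W (Y.prod Z)
        (ops.pull (fst Y Z) D + ops.pull (snd Y Z) B)) (wo Y Z ρ) = ∑ q ∈ t, Q q := by
  classical
  have hS : Sy W (Y.prod Z) (ops.pull (fst Y Z) D + ops.pull (snd Y Z) B) (extSum W g h) :=
    Sy.prod GY.fr GZ.fr GY.sy GZ.sy
  set F := GY.fr.prod GZ.fr with hF
  set m := wo Y Z ρ with hm
  choose n x hx using fun q : ℚ[X] => exists_om F hS m (extOp W 1 (e q))
  let P : ℚ[X] → ℕ := fun q => (Finset.univ.filter fun i : Fin (n q) =>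
    0 < BA F m (extOp W 1 (e q)) (x q i) (x q i)).card
  let Q : ℚ[X] → ℕ := fun q => (Finset.univ.filter fun i : Fin (n q) =>
    BA F m (extOp W 1 (e q)) (x q i) (x q i) < 0).card
  have hPQ : ∀ q, P q + Q q = n q := by
    intro q
    have h1 := Finset.card_filter_add_card_filter_not (s := (Finset.univ : Finset (Fin (n q))))
      (fun i => 0 < BA F m (extOp W 1 (e q)) (x q i) (x q i))
    rw [Finset.card_univ, Fintype.card_fin] at h1
    rw [← h1]
    congr 1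
    change (Finset.univ.filter fun i : Fin (n q) =>
      BA F m (extOp W 1 (e q)) (x q i) (x q i) < 0).card = _
    congr 1
    apply Finset.filter_congr
    intro i _
    rw [not_lt]
    exact ⟨le_of_lt, fun h2 => lt_of_le_of_ne h2 ((hx q).ne i)⟩
  -- the projectors
  have hOp : ∀ q ∈ t, OpP W (Y.prod Z) (ops.pull (fst Y Z) D + ops.pull (snd Y Z) B)
      (extSum W g h) (extOp W 1 (e q)) (extOp W 1 (e q)) := fun q hq =>
    (hpc q hq).sah.ext (GY := GY)
  have hEE : ∀ q ∈ t, ∀ v, extOp W (1 : Module.End W.K (W.H Y)) (e q)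
      (extOp W 1 (e q) v) = extOp W 1 (e q) v := by
    intro q hq v
    have h1 : extOp W (1 : Module.End W.K (W.H Y)) (e q) * extOp W 1 (e q) =
        extOp W 1 (e q) := by
      rw [extOp_mul, one_mul, (hpc q hq).idem]
    exact congrArg (fun t => t v) h1
  have hEo : ∀ q ∈ t, ∀ q' ∈ t, q ≠ q' → ∀ v, extOp W (1 : Module.End W.K (W.H Y)) (e q)
      (extOp W 1 (e q') v) = 0 := by
    intro q hq q' hq' hne v
    have h1 : extOp W (1 : Module.End W.K (W.H Y)) (e q) * extOp W 1 (e q') = 0 := by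
      rw [extOp_mul, one_mul, hort q hq q' hq' hne]
      exact extOp_zero_right _
    exact congrArg (fun t => t v) h1
  -- the union
  let y : (Σ q : t, Fin (n q.1)) → AWs W (Y.prod Z) m 1 := fun i =>
    ⟨(x i.1.1 i.2 : W.H (Y.prod Z)), (x i.1.1 i.2).2.1, (x i.1.1 i.2).2.2.1, rfl⟩
  have hy : ∀ (q : t) (i j : Fin (n q.1)), BA F m 1 (y ⟨q, i⟩) (y ⟨q, j⟩) =
      BA F m (extOp W 1 (e q.1)) (x q.1 i) (x q.1 j) := by
    intro q i j
    have : ((BA F m 1 (y ⟨q, i⟩) (y ⟨q, j⟩) : ℚ) : W.K) =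
        ((BA F m (extOp W 1 (e q.1)) (x q.1 i) (x q.1 j) : ℚ) : W.K) := by
      rw [BA_cast, BA_cast]
    exact_mod_cast this
  have hom : OM (BA F m 1) y := by
    refine ⟨?_, ?_, ?_⟩
    · rintro ⟨q, i⟩
      rw [hy]; exact (hx q.1).ne i
    · rintro ⟨q, i⟩ ⟨q', j⟩ hij
      by_cases hqq : q = q'
      · subst hqq
        rw [hy]
        exact (hx q.1).orth i j fun h0 => hij (by rw [h0])
      · rw [BA_eq_zero]
        change bf W _ _ _ (x q.1 i : W.H (Y.prod Z)) (x q'.1 j : W.H (Y.prod Z)) = 0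
        rw [← (x q.1 i).2.2.2, (hOp q.1 q.2).adj, ← (x q'.1 j).2.2.2,
          hEo q.1 q.2 q'.1 q'.2 (fun h0 => hqq (Subtype.ext h0)), map_zero]
    · intro v hv
      set u := W.corr (v : W.H (Y.prod Z)) with hu
      have huA : AH W Y Z m u := AH.of_cls v.2.1 v.2.2.1
      let vq : ∀ q : t, AWs W (Y.prod Z) m (extOp W 1 (e q.1)) := fun q =>
        ⟨extOp W 1 (e q.1) (v : W.H (Y.prod Z)), (hOp q.1 q.2).mem v.2 (hEE q.1 q.2)⟩
      have hvq : ∀ q : t, BA F m (extOp W 1 (e q.1)) (vq q) (vq q) = 0 := by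
        intro q
        apply (hx q.1).max
        intro i
        rw [BA_eq_zero]
        change bf W _ _ _ (extOp W 1 (e q.1) (v : W.H (Y.prod Z))) (x q.1 i : W.H (Y.prod Z)) = 0
        rw [(hOp q.1 q.2).adj, (x q.1 i).2.2.2]
        have h := hv ⟨q, i⟩
        rw [BA_eq_zero] at h
        exact h
      have hcq : ∀ q ∈ t, LinearMap.trace W.K (W.H Y) (sadj GY GZ u ∘ₗ e q ∘ₗ u) = 0 := by
        intro q hq
        have h1 := hvq ⟨q, hq⟩
        have h2 := tr_sadj_BA' GY GZ (vq ⟨q, hq⟩) (vq ⟨q, hq⟩)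
        have h3 : W.corr (vq ⟨q, hq⟩ : W.H (Y.prod Z)) = e q ∘ₗ u :=
          corr_one_ext (hpc q hq).sah.ah.ev _
        rw [h3, sadj_comp GY GZ GZ, (hpc q hq).sah.sa] at h2
        have h4 : (sadj GY GZ u ∘ₗ e q) ∘ₗ e q ∘ₗ u = sadj GY GZ u ∘ₗ (e q * e q) ∘ₗ u := rfl
        rw [h4, (hpc q hq).idem] at h2
        rw [h2]
        have h5 : (BA (GY.fr.prod GZ.fr) m (extOp W 1 (e q)) (vq ⟨q, hq⟩) (vq ⟨q, hq⟩) : ℚ) = 0 :=
          h1
        rw [h5, Rat.cast_zero]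
      have hsumA : AH W Z Z 0 (∑ q ∈ t, e q) := AH.sum t fun q hq => (hpc q hq).sah.ah
      have hsumS : sadj GZ GZ (∑ q ∈ t, e q) = ∑ q ∈ t, e q := by
        rw [map_sum]
        exact Finset.sum_congr rfl fun q hq => (hpc q hq).sah.sa
      have h0A : AH W Z Z 0 (1 - ∑ q ∈ t, e q) := by
        rw [sub_eq_add_neg, ← neg_one_smul W.K]
        have h1 := hsumA.smul (-1 : ℚ)
        rw [Rat.cast_neg, Rat.cast_one] at h1
        exact AH.one.add h1
      have h0S : sadj GZ GZ (1 - ∑ q ∈ t, e q) = 1 - ∑ q ∈ t, e q := by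
        have h1 : sadj GZ GZ (1 : Module.End W.K (W.H Z)) = 1 := sadj_id GZ
        rw [map_sub, hsumS, h1]
      have hr := radical_of_pow (GY := GY) H hP M ((1 - ∑ q ∈ t, e q) ∘ₗ u)
        ((h0A.comp huA).cast (zero_add _)) (by
          have : (p ^ M : Module.End W.K (W.H Z)) ∘ₗ (1 - ∑ q ∈ t, e q) ∘ₗ u =
            (p ^ M * (1 - ∑ q ∈ t, e q)) ∘ₗ u := rfl
          rw [this, hM, LinearMap.zero_comp]) u huA
      rw [sadj_comp GY GZ GZ, h0S] at hr
      have htot : LinearMap.trace W.K (W.H Y) (sadj GY GZ u ∘ₗ u) = 0 := by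
        have e1 : sadj GY GZ u ∘ₗ u = (sadj GY GZ u ∘ₗ (1 - ∑ q ∈ t, e q)) ∘ₗ u +
            ∑ q ∈ t, sadj GY GZ u ∘ₗ e q ∘ₗ u := by
          have e2 : ∑ q ∈ t, sadj GY GZ u ∘ₗ e q ∘ₗ u = sadj GY GZ u ∘ₗ (∑ q ∈ t, e q) ∘ₗ u := by
            rw [sum_comp', comp_sum']
          rw [e2, LinearMap.comp_assoc, ← LinearMap.comp_add, ← LinearMap.add_comp,
            sub_add_cancel]
          rfl
        rw [e1, map_add, hr, zero_add, map_sum]
        exact Finset.sum_eq_zero hcq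
      have h6 : LinearMap.trace W.K (W.H Y) (sadj GY GZ u ∘ₗ u) =
          ((BA (GY.fr.prod GZ.fr) m 1 v v : ℚ) : W.K) := tr_sadj_BA' GY GZ v v
      rw [h6] at htot
      exact_mod_cast htot
  -- comparison with the primitive classes
  obtain ⟨κ, hκ, z, hz, hz1, hz2⟩ := exists_om2 F m
  have hB := BA_symm F hS (m := m) (g := 1)
  have hBn : ∀ v w, (-BA F m 1) v w = (-BA F m 1) w v := by
    intro v w
    rw [LinearMap.neg_apply, LinearMap.neg_apply, LinearMap.neg_apply, LinearMap.neg_apply, hB]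
  have hpos := (hz.posIdx_eq hB).symm.trans (hom.posIdx_eq hB)
  have hneg := (hz.neg.posIdx_eq hBn).symm.trans (hom.neg.posIdx_eq hBn)
  refine ⟨P, Q, ?_, ?_, ?_⟩
  · intro q hq
    have h1 : P q + Q q = rg (algSys W) Z (e q) Y (Y.dim + ρ) (Z.dim - ρ) := by
      rw [hPQ, ← card_eq_rg GY GZ (hpc q hq).sah (hpc q hq).idem (hx q), Fintype.card_fin]
    refine ⟨h1, ?_⟩
    have h2 := piece_count H (hpc q hq) hP (hx q)
    rw [Fintype.card_fin] at h2
    rw [hPQ]
    exact h2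
  · rw [← hz1]
    refine Eq.trans ?_ (hpos.trans ?_)
    · rfl
    · rw [Finset.card_filter, Fintype.sum_sigma, ← Finset.sum_coe_sort t]
      apply Finset.sum_congr rfl
      intro q _
      rw [← Finset.card_filter]
      simp only [hy]
      rfl
  · rw [← hz2]
    refine Eq.trans ?_ (hneg.trans ?_)
    · congr 1
      apply Finset.filter_congr
      intro i _
      rw [LinearMap.neg_apply, LinearMap.neg_apply, neg_pos]
    · rw [Finset.card_filter, Fintype.sum_sigma, ← Finset.sum_coe_sort t]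
      apply Finset.sum_congr rfl
      intro q _
      rw [← Finset.card_filter]
      simp only [LinearMap.neg_apply, neg_pos, hy]
      rfl

end Piece

end Pool.Agent.H61.MS
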