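import Pool.Agent.H61.MS.Poly

/-!
# Idempotents given by polynomials
-/

set_option autoImplicit false

namespace Pool.Agent.H61.MS

open Finset Module Polynomial UniqueFactorizationMonoid

/-- The partial fractions of a polynomial. -/
theorem poly_dec {F : ℚ[X]} (hF : F ≠ 0) (hX : X ∣ F) :
    ∃ (t : Finset ℚ[X]) (N : ℚ[X] → ℕ) (g : ℚ[X] → ℚ[X]),
      (∀ q, q ∈ t ↔ Irreducible q ∧ q.Monic ∧ q ∣ F) ∧ ∑ q ∈ t, g q = 1 ∧
      (∀ q ∈ t, F ∣ q ^ N q * g q) ∧ (∀ q ∈ t, ∀ q' ∈ t, q ≠ q' → F ∣ g q * g q') ∧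
      (∀ q ∈ t, ∀ q' ∈ t, q ≠ q' → q' ∣ g q) := by
  classical
  set t : Finset ℚ[X] := (normalizedFactors F).toFinset with ht
  set N : ℚ[X] → ℕ := fun q => (normalizedFactors F).count q with hN
  have hmem : ∀ q, q ∈ t ↔ Irreducible q ∧ q.Monic ∧ q ∣ F := by
    intro q
    rw [ht, Multiset.mem_toFinset, Polynomial.mem_normalizedFactors_iff hF]
  have hcop : Pairwise (Function.onFun IsCoprime fun i : t => (i : ℚ[X]) ^ N i) := by
    rintro ⟨q, hq⟩ ⟨q', hq'⟩ hne
    apply IsCoprime.pow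
    obtain ⟨h1, h2, -⟩ := (hmem q).1 hq
    obtain ⟨h1', h2', -⟩ := (hmem q').1 hq'
    rw [h1.coprime_iff_not_dvd]
    intro hd
    apply hne
    apply Subtype.ext
    exact Polynomial.eq_of_monic_of_associated h2 h2' (h1.associated_of_dvd h1' hd)
  have hXt : (X : ℚ[X]) ∈ t := (hmem X).2 ⟨irreducible_X, monic_X, hX⟩
  obtain ⟨μ, hμ⟩ := (exists_sum_eq_one_iff_pairwise_coprime (s := fun q : ℚ[X] => q ^ N q)
    (t := t) ⟨X, hXt⟩).2 hcop
  have hprod : F ∣ ∏ q ∈ t, q ^ N q := by
    have h1 : ∏ q ∈ t, q ^ N q = (normalizedFactors F).prod :=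
      (Finset.prod_multiset_count _).symm
    rw [h1]
    have h2 := Polynomial.leadingCoeff_mul_prod_normalizedFactors F
    have h3 : IsUnit (C F.leadingCoeff) := by
      rw [Polynomial.isUnit_C]
      exact (leadingCoeff_ne_zero.2 hF).isUnit
    have h4 : C F.leadingCoeff * (normalizedFactors F).prod ∣ (normalizedFactors F).prod := by
      rw [h3.mul_left_dvd]
    rwa [h2] at h4
  have hsplit : ∀ q ∈ t, q ^ N q * ∏ j ∈ t \ {q}, j ^ N j = ∏ q ∈ t, q ^ N q := by
    intro q hq
    rw [Finset.sdiff_singleton_eq_erase, Finset.mul_prod_erase t (fun q => q ^ N q) hq]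
  refine ⟨t, N, fun q => μ q * ∏ j ∈ t \ {q}, j ^ N j, hmem, hμ, ?_, ?_, ?_⟩
  · intro q hq
    have h1 : q ^ N q * (μ q * ∏ j ∈ t \ {q}, j ^ N j) =
        μ q * (q ^ N q * ∏ j ∈ t \ {q}, j ^ N j) := by ring
    rw [h1, hsplit q hq]
    exact hprod.mul_left _
  · intro q hq q' hq' hne
    have h2 : q ^ N q ∣ ∏ j ∈ t \ {q'}, j ^ N j :=
      Finset.dvd_prod_of_mem (fun j => j ^ N j) (by simp [hq, hne])
    obtain ⟨c, hc⟩ := h2
    have h1 : (μ q * ∏ j ∈ t \ {q}, j ^ N j) * (μ q' * ∏ j ∈ t \ {q'}, j ^ N j) =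
        (μ q * μ q' * c) * (q ^ N q * ∏ j ∈ t \ {q}, j ^ N j) := by
      rw [hc]; ring
    change F ∣ (μ q * ∏ j ∈ t \ {q}, j ^ N j) * (μ q' * ∏ j ∈ t \ {q'}, j ^ N j)
    rw [h1, hsplit q hq]
    exact hprod.mul_left _
  · intro q hq q' hq' hne
    have h2 : q' ^ N q' ∣ ∏ j ∈ t \ {q}, j ^ N j :=
      Finset.dvd_prod_of_mem (fun j => j ^ N j) (by simp [hq', Ne.symm hne])
    have h3 : N q' ≠ 0 := by
      rw [hN]
      simp only
      rw [Multiset.count_ne_zero]
      exact Multiset.mem_toFinset.1 hq'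
    exact ((dvd_pow_self q' h3).trans h2).mul_left _

section Abs

variable {K : Type*} [Field K] [CharZero K] {V : Type*} [AddCommGroup V] [Module K V]

/-- Evaluation of rational polynomials at an operator. -/
noncomputable def evR (p : Module.End K V) : ℚ[X] →+* Module.End K V :=
  (aeval p : K[X] →ₐ[K] Module.End K V).toRingHom.comp (Polynomial.mapRingHom (algebraMap ℚ K))

lemma evR_apply (p : Module.End K V) (f : ℚ[X]) :
    evR p f = aeval p (f.map (algebraMap ℚ K)) := rfl

lemma evR_X (p : Module.End K V) : evR p X = p := by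
  rw [evR_apply, Polynomial.map_X, aeval_X]

lemma evR_monomial (p : Module.End K V) (n : ℕ) (a : ℚ) :
    evR p (monomial n a) = (a : K) • p ^ n := by
  rw [evR_apply, Polynomial.map_monomial, aeval_monomial, ← Algebra.smul_def, eq_ratCast]

lemma evR_comm (p : Module.End K V) (f : ℚ[X]) : p * evR p f = evR p f * p := by
  have h := congrArg (evR p) (mul_comm X f)
  rwa [map_mul, map_mul, evR_X] at h

variable [FiniteDimensional K V]

/-- The characteristic polynomial is rational, if the traces of the powers are. -/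
lemma exists_charpoly {ψ : Module.End K V}
    (htr : ∀ n : ℕ, ∃ r : ℚ, LinearMap.trace K V (ψ ^ n) = (r : K)) :
    ∃ χ : ℚ[X], χ ≠ 0 ∧ evR ψ χ = 0 := by
  let Ω := AlgebraicClosure K
  have hbc : ∀ n : ℕ, (ψ.baseChange Ω) ^ n = (ψ ^ n).baseChange Ω := by
    intro n
    exact (map_pow (Module.End.baseChangeHom K Ω V) ψ n).symm
  obtain ⟨χ, hχ0, hχ⟩ := N181.Mod.charpoly_rational (ψ.baseChange Ω) (by
    intro n
    obtain ⟨r, hr⟩ := htr n
    refine ⟨r, ?_⟩
    rw [hbc, LinearMap.trace_baseChange, hr, map_ratCast])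
  have hχ' : χ.map (algebraMap ℚ K) = ψ.charpoly := by
    apply Polynomial.map_injective (algebraMap K Ω) (algebraMap K Ω).injective
    rw [← LinearMap.charpoly_baseChange, ← hχ, Polynomial.map_map,
      RingHom.ext_rat ((algebraMap K Ω).comp (algebraMap ℚ K)) (algebraMap ℚ Ω)]
  exact ⟨χ, hχ0, by rw [evR_apply, hχ', LinearMap.aeval_self_charpoly]⟩

/-- The degree of an irreducible polynomial divides the rank of the corresponding idempotent. -/
theorem deg_dvd_range {p e : Module.End K V} (hee : e * e = e) (hpe : p * e = e * p) {q : ℚ[X]}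
    (hq : Irreducible q) (hm : q.Monic) {N : ℕ} (hN : evR p (q ^ N) * e = 0)
    (htr : ∀ n : ℕ, ∃ r : ℚ, LinearMap.trace K V (p ^ n * e) = (r : K)) :
    q.natDegree ∣ finrank K (LinearMap.range e) := by
  have hmaps : ∀ x ∈ LinearMap.range e, p x ∈ LinearMap.range e := by
    rintro _ ⟨y, rfl⟩
    exact ⟨p y, (congrArg (fun t => t y) hpe).symm⟩
  have hex : ∀ x ∈ LinearMap.range e, e x = x := by
    rintro _ ⟨y, rfl⟩
    exact congrArg (fun t => t y) hee
  set ψ : Module.End K (LinearMap.range e) := p.restrict hmaps with hψ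
  have hpow : ∀ (n : ℕ) (x : LinearMap.range e), (((ψ ^ n) x : LinearMap.range e) : V) =
      (p ^ n) (x : V) := by
    intro n
    induction n with
    | zero => intro x; rfl
    | succ n ih =>
      intro x
      rw [pow_succ, Module.End.mul_apply, ih, pow_succ, Module.End.mul_apply]
      rfl
  have hae : ∀ (f : K[X]) (x : LinearMap.range e), (((aeval ψ f) x : LinearMap.range e) : V) =
      (aeval p f) (x : V) := by
    intro f
    induction f using Polynomial.induction_on' with
    | add f g hf hg =>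
      intro x
      rw [map_add, map_add, LinearMap.add_apply, LinearMap.add_apply, Submodule.coe_add, hf, hg]
    | monomial n a =>
      intro x
      rw [aeval_monomial, aeval_monomial, ← Algebra.smul_def, ← Algebra.smul_def,
        LinearMap.smul_apply, LinearMap.smul_apply, Submodule.coe_smul, hpow]
  refine deg_dvd (ψ := ψ) hq hm (N := N) ?_ ?_
  · apply LinearMap.ext
    intro x
    apply Subtype.ext
    rw [hae, LinearMap.zero_apply, Submodule.coe_zero]
    have h1 := congrArg (fun t => t (x : V)) hN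
    simp only [Module.End.mul_apply, LinearMap.zero_apply] at h1
    rw [hex x x.2] at h1
    exact h1
  · intro n
    obtain ⟨r, hr⟩ := htr n
    refine ⟨r, ?_⟩
    rw [← hr]
    let θ : V →ₗ[K] LinearMap.range e := e.rangeRestrict
    have h1 : p ^ n * e = (LinearMap.range e).subtype ∘ₗ ((ψ ^ n) ∘ₗ θ) := by
      apply LinearMap.ext
      intro x
      change (p ^ n) (e x) = (((ψ ^ n) (θ x) : LinearMap.range e) : V)
      rw [hpow]
      rfl
    have h2 : ((ψ ^ n) ∘ₗ θ) ∘ₗ (LinearMap.range e).subtype = ψ ^ n := by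
      apply LinearMap.ext
      intro x
      have h3 : θ (x : V) = x := Subtype.ext (hex x x.2)
      change (ψ ^ n) (θ (x : V)) = (ψ ^ n) x
      rw [h3]
    rw [h1, LinearMap.trace_comp_comm', h2]

end Abs

end Pool.Agent.H61.MS
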