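import Pool.Agent.H61.MS.Rank
import Pool.Agent.H61.MS.PolyDec

/-!
# The idempotents given by the irreducible factors of the characteristic polynomial
-/

open CategoryTheory AlgebraicGeometry

universe u v

namespace Pool.Agent.H61.MS

open Module
open Pool.Agent.H914 Pool.Agent.H914.VarClass Pool.Agent.H914.VarClass.Obj
  Pool.Agent.H914.WeilCohomology Pool.Agent.H281R3.HT Pool.Agent.W552 Pool.Agent.W539.Ker
  Pool.Agent.Y133.Half Pool.Agent.H61.GX Pool.Agent.H61.ZX Pool.Agent.H44T.SL Pool.Agent.Y97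

variable {k : Type u} [Field k] {𝒱 : VarClass k} {ops : CycleOps 𝒱}
  {W : WeilCohomology.{u, v} ops} {A Y Z : 𝒱.Obj} {D : Y.Cycles} {g : Module.End W.K (W.H Y)}
  {B : Z.Cycles} {h : Module.End W.K (W.H Z)}

open Polynomial in
/-- Rational polynomials in a self-adjoint operator. -/
lemma SAH.evR {GZ : Gd W Z B h} {p : Module.End W.K (W.H Z)} (H : SAH GZ p) (f : ℚ[X]) :
    SAH GZ (MS.evR p f) := by
  have hpow : ∀ n : ℕ, SAH GZ (p ^ n) := by
    intro n
    induction n with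
    | zero => exact ⟨AH.one, sadj_id GZ⟩
    | succ n ih =>
      refine ⟨?_, ?_⟩
      · have := (ih.ah.comp H.ah).cast (add_zero 0)
        rwa [pow_succ]
      · rw [pow_succ']
        change sadj GZ GZ (p ∘ₗ p ^ n) = _
        rw [sadj_comp GZ GZ GZ, ih.sa, H.sa]
        rw [← pow_succ', pow_succ]
        rfl
  induction f using Polynomial.induction_on' with
  | add f g hf hg =>
    rw [map_add]
    exact ⟨hf.ah.add hg.ah, by rw [map_add, hf.sa, hg.sa]⟩
  | monomial n a =>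
    rw [evR_monomial]
    exact ⟨(hpow n).ah.smul a, by rw [map_smul, (hpow n).sa]⟩

/-- The data of the decomposition. -/
structure Piece (GZ : Gd W Z B h) (A : 𝒱.Obj) (p : Module.End W.K (W.H Z)) (q : Polynomial ℚ)
    (N : ℕ) (e : Module.End W.K (W.H Z)) : Prop where
  irr : Irreducible q
  mon : q.Monic
  sah : SAH GZ e
  gen : e ∈ gidl (algSys W) (algSys W) A Z
  idem : e * e = e
  comm : p * e = e * p
  kill : MS.evR p (q ^ N) * e = 0
  dvd : q.natDegree ∣ finrank W.K (LinearMap.range e)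

open Polynomial in
/-- The decomposition of the identity. -/
theorem exists_dec {GZ : Gd W Z B h} {p : Module.End W.K (W.H Z)} (H : SAH GZ p)
    (hpI : p ∈ gidl (algSys W) (algSys W) A Z) :
    ∃ (t : Finset ℚ[X]) (N : ℚ[X] → ℕ) (e : ℚ[X] → Module.End W.K (W.H Z)) (M : ℕ),
      (∀ q ∈ t, Piece GZ A p q (N q) (e q)) ∧
      (∀ q ∈ t, ∀ q' ∈ t, q ≠ q' → e q * e q' = 0) ∧
      p ^ M * (1 - ∑ q ∈ t, e q) = 0 := by
  classical
  have htr : ∀ f : ℚ[X], ∃ r : ℚ, LinearMap.trace W.K (W.H Z) (MS.evR p f) = (r : W.K) :=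
    fun f => GZ.trace_rat (H.evR f).ah.1
  have hpX : ∀ n : ℕ, MS.evR p (X ^ n) = p ^ n := fun n => by rw [map_pow, evR_X]
  obtain ⟨χ, hχ0, hχ⟩ := exists_charpoly (ψ := p) (fun n => by
    obtain ⟨r, hr⟩ := htr (X ^ n)
    exact ⟨r, by rw [← hr, hpX]⟩)
  have hF0 : (X : ℚ[X]) * χ ≠ 0 := mul_ne_zero X_ne_zero hχ0
  have hF : ∀ f : ℚ[X], (X : ℚ[X]) * χ ∣ f → MS.evR p f = 0 := by
    rintro _ ⟨c, rfl⟩
    rw [map_mul, map_mul, hχ, mul_zero, zero_mul]
  obtain ⟨t, N, γ, hmem, hsum, h1, h2, h3⟩ := poly_dec hF0 (dvd_mul_right _ _)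
  have hXt : (X : ℚ[X]) ∈ t := (hmem X).2 ⟨irreducible_X, monic_X, dvd_mul_right _ _⟩
  have hort : ∀ q ∈ t, ∀ q' ∈ t, q ≠ q' → MS.evR p (γ q) * MS.evR p (γ q') = 0 :=
    fun q hq q' hq' hne => by rw [← map_mul]; exact hF _ (h2 q hq q' hq' hne)
  have hone : ∑ q ∈ t, MS.evR p (γ q) = 1 := by rw [← map_sum, hsum, map_one]
  have hid : ∀ q ∈ t, MS.evR p (γ q) * MS.evR p (γ q) = MS.evR p (γ q) := by
    intro q hq
    have e1 : MS.evR p (γ q) * ∑ q' ∈ t, MS.evR p (γ q') = MS.evR p (γ q) := by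
      rw [hone, mul_one]
    rw [Finset.mul_sum, Finset.sum_eq_single q] at e1
    · exact e1
    · intro q' hq' hne
      exact hort q hq q' hq' (Ne.symm hne)
    · intro h0; exact absurd hq h0
  have hkill : ∀ q ∈ t, MS.evR p (q ^ N q) * MS.evR p (γ q) = 0 := fun q hq => by
    rw [← map_mul]; exact hF _ (h1 q hq)
  refine ⟨t.erase X, N, fun q => MS.evR p (γ q), N X, ?_, ?_, ?_⟩
  · intro q hq
    obtain ⟨hqX, hqt⟩ := Finset.mem_erase.1 hq
    obtain ⟨i1, i2, -⟩ := (hmem q).1 hqt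
    refine ⟨i1, i2, H.evR _, ?_, hid q hqt, evR_comm _ _, hkill q hqt, ?_⟩
    · obtain ⟨c, hc⟩ := h3 q hqt X hXt hqX
      change MS.evR p (γ q) ∈ _
      rw [hc, map_mul, evR_X]
      exact gidl_mul hpI ((H.evR c).ah.gop (wo_self Z))
    · refine deg_dvd_range (hid q hqt) (evR_comm _ _) i1 i2 (hkill q hqt) fun n => ?_
      obtain ⟨r, hr⟩ := htr (X ^ n * γ q)
      have e2 : MS.evR p (X ^ n * γ q) = p ^ n * MS.evR p (γ q) := by rw [map_mul, hpX]
      exact ⟨r, by rw [← hr, e2]⟩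
  · intro q hq q' hq' hne
    exact hort q (Finset.mem_of_mem_erase hq) q' (Finset.mem_of_mem_erase hq') hne
  · have e1 : (1 : Module.End W.K (W.H Z)) - ∑ q ∈ t.erase X, MS.evR p (γ q) =
        MS.evR p (γ X) := by
      rw [← hone, ← Finset.add_sum_erase t (fun q => MS.evR p (γ q)) hXt]
      simp
    rw [e1, ← hpX]
    exact hkill X hXt

end Pool.Agent.H61.MS
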