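import Pool.Graph.R_pool_sql_team_seeded_843ab51a.H44T.SL.Defs
import Mathlib.Data.Real.Basic

/-!
# The numbers of positive and negative squares in a single codimension

The primitive algebraic classes of codimension `n` on a polarized variety `P` carry the form
`(-1) ^ n deg (z · w · D ^ (d - 2 n))` of the standard conjecture of Hodge type; `posNum` and
`negNum` are the numbers of its positive and negative squares. By the Lefschetz decomposition
`N ^ j = ⊕ D ^ (j - n) · N ^ n_prim` the numbers `posUpTo` and `negUpTo` are the numbers of the
positive and of the negative squares of the corresponding form on the space of **all** algebraic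
classes of codimension `j ≤ d / 2`, modulo numerical equivalence.
-/

universe u v

namespace Pool.Agent.H61.MS

open Pool.Agent.H914 Pool.Agent.H914.VarClass Pool.Agent.H914.VarClass.Obj
  Pool.Agent.H281R3.HT Pool.Agent.W539.Ker Pool.Agent.H44T.SL

variable {k : Type u} [Field k] {𝒱 : VarClass k} {ops : CycleOps 𝒱}

/-- The number of positive squares on the primitive classes of codimension at most `j`. -/
noncomputable def posUpTo (W : WeilCohomology.{u, v} ops) (P : Polarized 𝒱) (j : ℕ) : ℕ :=
  ∑ n ∈ Finset.range (j + 1), posNum W P.X P.D n

/-- The number of negative squares on the primitive classes of codimension at most `j`. -/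
noncomputable def negUpTo (W : WeilCohomology.{u, v} ops) (P : Polarized 𝒱) (j : ℕ) : ℕ :=
  ∑ n ∈ Finset.range (j + 1), negNum W P.X P.D n

/-- The share of the negative squares in codimension `j`. -/
noncomputable def negShare (W : WeilCohomology.{u, v} ops) (P : Polarized 𝒱) (j : ℕ) : ℝ :=
  (negUpTo W P j : ℝ) / (posUpTo W P j + negUpTo W P j)

/-- The number of positive squares on the algebraic classes of all codimensions: a primitive class
of codimension `n` contributes in the codimensions `n, n + 1, …, dim - n`. -/
noncomputable def allPos (W : WeilCohomology.{u, v} ops) (P : Polarized 𝒱) : ℕ :=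
  ∑ n ∈ Finset.range (P.X.dim / 2 + 1), (P.X.dim - 2 * n + 1) * posNum W P.X P.D n

/-- The number of negative squares on the algebraic classes of all codimensions. -/
noncomputable def allNeg (W : WeilCohomology.{u, v} ops) (P : Polarized 𝒱) : ℕ :=
  ∑ n ∈ Finset.range (P.X.dim / 2 + 1), (P.X.dim - 2 * n + 1) * negNum W P.X P.D n

/-- No primitive algebraic class has a negative square: the standard conjecture of Hodge type,
modulo numerical equivalence. -/
def NoNegative (W : WeilCohomology.{u, v} ops) (P : Polarized 𝒱) : Prop :=
  ∀ (n : ℕ) (z : P.X.Cycles), 2 * n ≤ P.X.dim → Primitive W P.X P.D n z →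
    0 ≤ pairing ops P.X P.D n z z

/-- The codimension `j` is at most half of the dimension, and near it. -/
def NearMiddle (P : Polarized 𝒱) (J j : ℕ) : Prop := 2 * j ≤ P.X.dim ∧ P.X.dim ≤ 2 * j + J

end Pool.Agent.H61.MS
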