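import Pool.Agent.H61.MS.Pos

/-!
# A positive operator which detects the classes on the products with powers
-/

open CategoryTheory AlgebraicGeometry

universe u v

namespace Pool.Agent.H61.MS

open Module
open Pool.Agent.H914 Pool.Agent.H914.VarClass Pool.Agent.H914.VarClass.Obj
  Pool.Agent.H914.WeilCohomology Pool.Agent.H281R3.HT Pool.Agent.W552 Pool.Agent.W539.Ker
  Pool.Agent.Y133.Half Pool.Agent.H61.GX Pool.Agent.H61.ZX Pool.Agent.H44T.SL Pool.Agent.Y97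

variable {k : Type u} [Field k] {𝒱 : VarClass k} {ops : CycleOps 𝒱}
  {W : WeilCohomology.{u, v} ops}

section Sum

variable {K A B C κ : Type*} [Field K] [AddCommGroup A] [Module K A] [AddCommGroup B] [Module K B]
  [AddCommGroup C] [Module K C]

lemma sum_comp' (s : Finset κ) (f : κ → (B →ₗ[K] C)) (g : A →ₗ[K] B) :
    (∑ i ∈ s, f i) ∘ₗ g = ∑ i ∈ s, f i ∘ₗ g := by
  apply LinearMap.ext
  intro x
  simp [LinearMap.sum_apply]

lemma comp_sum' (s : Finset κ) (f : B →ₗ[K] C) (g : κ → (A →ₗ[K] B)) :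
    f ∘ₗ (∑ i ∈ s, g i) = ∑ i ∈ s, f ∘ₗ g i := by
  apply LinearMap.ext
  intro x
  simp [LinearMap.sum_apply]

end Sum

lemma wo_neg (P Q : 𝒱.Obj) (r : ℤ) : -wo P Q (-r) = wo Q P r := by rw [wo, wo]; ring

lemma AH.cast {P Q : 𝒱.Obj} {m m' : ℤ} {u : W.H P →ₗ[W.K] W.H Q} (h : AH W P Q m u)
    (hm : m = m') : AH W P Q m' u := hm ▸ h

lemma AH.sum {P Q : 𝒱.Obj} {m : ℤ} {κ : Type*} (s : Finset κ) {u : κ → (W.H P →ₗ[W.K] W.H Q)}
    (h : ∀ i ∈ s, AH W P Q m (u i)) : AH W P Q m (∑ i ∈ s, u i) := by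
  classical
  induction s using Finset.induction_on with
  | empty => rw [Finset.sum_empty]; exact AH.zero
  | insert a s ha ih =>
    rw [Finset.sum_insert ha]
    exact (h a (by simp)).add (ih (fun i hi => h i (by simp [hi])))

/-- The elements of the ideal as finite sums. -/
lemma exists_fac {X Z : 𝒱.Obj} {π : Module.End W.K (W.H Z)}
    (hπ : π ∈ gidl (algSys W) (algSys W) X Z) :
    ∃ (N : ℕ) (n : Fin N → ℕ) (r : Fin N → ℤ) (s : ∀ i, W.H (pw X (n i)) →ₗ[W.K] W.H Z)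
      (v : ∀ i, W.H Z →ₗ[W.K] W.H (pw X (n i))),
      (∀ i, AH W (pw X (n i)) Z (wo (pw X (n i)) Z (-(r i))) (s i)) ∧
      (∀ i, v i ∈ GOp (algSys W) Z (pw X (n i)) (r i)) ∧ ∑ i, s i ∘ₗ v i = π := by
  have h1 : gidl (algSys W) (algSys W) X Z ≤ Submodule.span W.K {f : Module.End W.K (W.H Z) |
      ∃ (n : ℕ) (r : ℤ) (s : W.H (pw X n) →ₗ[W.K] W.H Z) (v : W.H Z →ₗ[W.K] W.H (pw X n)),
        AH W (pw X n) Z (wo (pw X n) Z (-r)) s ∧ v ∈ GOp (algSys W) Z (pw X n) r ∧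
        s ∘ₗ v = f} := by
    refine Submodule.span_le.2 ?_
    rintro _ ⟨n, r, s, hs, v, hv, rfl⟩
    have h2 := gop_le_span _ _ _ hs
    refine Submodule.span_induction (p := fun s _ => s ∘ₗ v ∈ Submodule.span W.K
      {f : Module.End W.K (W.H Z) |
      ∃ (n : ℕ) (r : ℤ) (s : W.H (pw X n) →ₗ[W.K] W.H Z) (v : W.H Z →ₗ[W.K] W.H (pw X n)),
        AH W (pw X n) Z (wo (pw X n) Z (-r)) s ∧ v ∈ GOp (algSys W) Z (pw X n) r ∧
        s ∘ₗ v = f}) ?_ ?_ ?_ ?_ h2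
    · intro u hu
      exact Submodule.subset_span ⟨n, r, u, v, hu, hv, rfl⟩
    · rw [LinearMap.zero_comp]; exact Submodule.zero_mem _
    · intro a b _ _ ha hb
      rw [LinearMap.add_comp]; exact Submodule.add_mem _ ha hb
    · intro c a _ ha
      rw [LinearMap.smul_comp]; exact Submodule.smul_mem _ _ ha
  obtain ⟨N, c, g, hg⟩ := Submodule.mem_span_set'.1 (h1 hπ)
  choose n r s v hs hv hsv using fun i => (g i).2
  refine ⟨N, n, r, s, fun i => c i • v i, hs, fun i => Submodule.smul_mem _ _ (hv i), ?_⟩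
  rw [← hg]
  apply Finset.sum_congr rfl
  intro i _
  rw [LinearMap.comp_smul, hsv]

/-- A positive operator which detects the classes on the products with powers. -/
theorem exists_p {X : Polarized 𝒱} {f : Module.End W.K (W.H X.X)} (G : Gp W X.X X.D f)
    (hpos : ∀ m n, 2 * n ≤ (times ops X X m).X.dim →
      negNum W (times ops X X m).X (times ops X X m).D n = 0)
    {Z : 𝒱.Obj} {B : Z.Cycles} {h : Module.End W.K (W.H Z)} (GZ : Gd W Z B h)
    {π : Module.End W.K (W.H Z)} (hπ : π ∈ gidl (algSys W) (algSys W) X.X Z)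
    (hmax : GMaxi (algSys W) (algSys W) X.X Z π) :
    ∃ p : Module.End W.K (W.H Z), AH W Z Z 0 p ∧ sadj GZ GZ p = p ∧
      p ∈ gidl (algSys W) (algSys W) X.X Z ∧
      ∀ (r : ℕ) (g : Module.End W.K (W.H (pw X.X r))) (Gr : Gd W (pw X.X r) (pwD ops X r) g)
        (ρ : ℤ) (t : W.H (pw X.X r) →ₗ[W.K] W.H Z),
        AH W (pw X.X r) Z (wo (pw X.X r) Z ρ) t → ∃ q : ℚ, 0 ≤ q ∧
          LinearMap.trace W.K (W.H (pw X.X r)) (sadj Gr GZ t ∘ₗ p ∘ₗ t) = q ∧
          (q = 0 → ∀ t', AH W (pw X.X r) Z (wo (pw X.X r) Z ρ) t' →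
            LinearMap.trace W.K (W.H (pw X.X r)) (sadj Gr GZ t ∘ₗ t') = 0) := by
  obtain ⟨N, n, ri, s, v, hs, hv, hsum⟩ := exists_fac hπ
  choose gn Gn using fun i => gp_pw (ops := ops) G (n i)
  let G' : ∀ i, Gd W (pw X.X (n i)) (pwD ops X (n i)) (gn i) := fun i => (Gn i).gd
  have hsa : ∀ i, AH W Z (pw X.X (n i)) (wo Z (pw X.X (n i)) (ri i)) (sadj (G' i) GZ (s i)) :=
    fun i => (hs i).sadj.cast (wo_neg _ _ _)
  refine ⟨∑ i, s i ∘ₗ sadj (G' i) GZ (s i), ?_, ?_, ?_, ?_⟩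
  · apply AH.sum
    intro i _
    exact ((hs i).comp (hsa i)).cast (by rw [wo, wo]; ring)
  · rw [map_sum]
    apply Finset.sum_congr rfl
    intro i _
    rw [sadj_comp GZ (G' i) GZ, sadj_sadj (G' i) GZ (hs i).ev]
  · apply Submodule.sum_mem
    intro i _
    exact Submodule.subset_span ⟨n i, ri i, s i, (hs i).gop rfl, _, (hsa i).gop rfl, rfl⟩
  · intro r g Gr ρ t ht
    have hw : ∀ i, AH W (pw X.X r) (pw X.X (n i)) (wo (pw X.X r) (pw X.X (n i)) (ri i + ρ))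
        (sadj (G' i) GZ (s i) ∘ₗ t) := fun i =>
      ((hsa i).comp ht).cast (by rw [wo, wo, wo]; ring)
    choose q hq0 hq1 hq2 using fun i => tr_nonneg Gr (G' i)
      (neg_prod G hpos r (n i)) (hw i)
    have hsw : ∀ i, sadj Gr (G' i) (sadj (G' i) GZ (s i) ∘ₗ t) = sadj Gr GZ t ∘ₗ s i := by
      intro i
      rw [sadj_comp Gr GZ (G' i), sadj_sadj (G' i) GZ (hs i).ev]
    refine ⟨∑ i, q i, Finset.sum_nonneg fun i _ => hq0 i, ?_, ?_⟩
    · have e1 : sadj Gr GZ t ∘ₗ (∑ i, s i ∘ₗ sadj (G' i) GZ (s i)) ∘ₗ t =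
          ∑ i, (sadj Gr (G' i) (sadj (G' i) GZ (s i) ∘ₗ t)) ∘ₗ (sadj (G' i) GZ (s i) ∘ₗ t) := by
        rw [sum_comp', comp_sum']
        apply Finset.sum_congr rfl
        intro i _
        rw [hsw]
        rfl
      rw [e1, map_sum, Rat.cast_sum]
      apply Finset.sum_congr rfl
      intro i _
      exact hq1 i
    · intro h0 t' ht'
      have hz : ∀ i, q i = 0 := fun i =>
        (Finset.sum_eq_zero_iff_of_nonneg fun i _ => hq0 i).1 h0 i (Finset.mem_univ i)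
      -- the operators through the powers
      have h1 : ∀ i, ∀ t'' ∈ GOp (algSys W) (pw X.X r) (pw X.X (n i)) (ri i + ρ),
          LinearMap.trace W.K (W.H (pw X.X r)) (sadj Gr GZ t ∘ₗ s i ∘ₗ t'') = 0 := by
        intro i t'' ht''
        refine Submodule.span_induction (p := fun t'' _ =>
          LinearMap.trace W.K (W.H (pw X.X r)) (sadj Gr GZ t ∘ₗ s i ∘ₗ t'') = 0) ?_ ?_ ?_ ?_
          (gop_le_span _ _ _ ht'')
        · intro u hu
          have h2 := hq2 i (hz i) u hu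
          rw [hsw] at h2
          exact h2
        · rw [LinearMap.comp_zero, LinearMap.comp_zero, map_zero]
        · intro a b _ _ ha hb
          rw [LinearMap.comp_add, LinearMap.comp_add, map_add, ha, hb, add_zero]
        · intro c a _ ha
          rw [LinearMap.comp_smul, LinearMap.comp_smul, map_smul, ha, smul_zero]
      have ht'S : t' ∈ GOp (algSys W) (pw X.X r) Z ρ := ht'.gop rfl
      have h2 : LinearMap.trace W.K (W.H (pw X.X r)) (sadj Gr GZ t ∘ₗ π ∘ₗ t') = 0 := by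
        rw [← hsum, sum_comp', comp_sum', map_sum]
        apply Finset.sum_eq_zero
        intro i _
        exact h1 i (v i ∘ₗ t') (GOp.comp' (hv i) ht'S rfl)
      have hta : sadj Gr GZ t ∈ GOp (algSys W) Z (pw X.X r) (-ρ) :=
        AH.gop (m := -wo (pw X.X r) Z ρ) (by rw [wo, wo]; ring) ht.sadj
      have h3 := hmax r (-ρ) t' (GOp.cast ht'S (by ring)) (sadj Gr GZ t ∘ₗ par (W.isInternal Z))
        (GOp.comp' hta ((par_gop GZ).gop (wo_self Z)) (by ring))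
      have h4 : LinearMap.trace W.K (W.H Z) (par (W.isInternal Z) ∘ₗ (1 - π) ∘ₗ t' ∘ₗ
          (sadj Gr GZ t ∘ₗ par (W.isInternal Z))) =
          LinearMap.trace W.K (W.H (pw X.X r)) (sadj Gr GZ t ∘ₗ (1 - π) ∘ₗ t') := by
        have hpp : par (W.isInternal Z) * par (W.isInternal Z) = 1 := H914.par_mul_par _
        have e1 : par (W.isInternal Z) ∘ₗ (1 - π) ∘ₗ t' ∘ₗ
          (sadj Gr GZ t ∘ₗ par (W.isInternal Z)) = par (W.isInternal Z) *
            (((1 - π) ∘ₗ t' ∘ₗ sadj Gr GZ t) * par (W.isInternal Z)) := rfl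
        rw [e1, LinearMap.trace_mul_comm, mul_assoc, hpp, mul_one]
        have e2 : (1 - π) ∘ₗ t' ∘ₗ sadj Gr GZ t = ((1 - π) ∘ₗ t') ∘ₗ sadj Gr GZ t := rfl
        rw [e2, LinearMap.trace_comp_comm' ((1 - π) ∘ₗ t') (sadj Gr GZ t)]
      rw [h4] at h3
      have e3 : sadj Gr GZ t ∘ₗ t' = sadj Gr GZ t ∘ₗ π ∘ₗ t' + sadj Gr GZ t ∘ₗ (1 - π) ∘ₗ t' := by
        rw [← LinearMap.comp_add, ← LinearMap.add_comp, add_sub_cancel]
        rfl
      rw [e3, map_add, h2, h3, add_zero]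

end Pool.Agent.H61.MS
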