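import Pool.Agent.H61.MS.Own
import Pool.Agent.H61.MS.Defs

/-!
# Orthogonal families in all degrees, and the bounds for the limits
-/

open CategoryTheory AlgebraicGeometry

universe u v

namespace Pool.Agent.H61.MS

open Module Filter Topology
open Pool.Agent.H914 Pool.Agent.H914.VarClass Pool.Agent.H914.VarClass.Obj
  Pool.Agent.H914.WeilCohomology Pool.Agent.H281R3.HT Pool.Agent.W552 Pool.Agent.W539.Ker
  Pool.Agent.Y133.Half Pool.Agent.H61.GX Pool.Agent.H61.ZX Pool.Agent.H44T.SL Pool.Agent.Y97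

variable {k : Type u} [Field k] {𝒱 : VarClass k} {ops : CycleOps 𝒱}
  {W : WeilCohomology.{u, v} ops} {A Y Z : 𝒱.Obj} {D : Y.Cycles} {g : Module.End W.K (W.H Y)}
  {B : Z.Cycles} {h : Module.End W.K (W.H Z)}

attribute [local instance] ratM

lemma sum_wsumN (d : ℕ) (σ : ℕ → ℕ) : ∑ m ∈ Finset.Icc (-(d : ℤ)) d, wsumN d σ m =
    ∑ n ∈ Finset.range (d / 2 + 1), (d - 2 * n + 1) * σ n := by
  unfold wsumN
  rw [Finset.sum_comm]
  apply Finset.sum_congr rfl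
  intro n hn
  rw [Finset.mem_range] at hn
  rw [← Finset.sum_filter, Finset.sum_const, smul_eq_mul]
  congr 1
  rw [← Finset.card_range (d - 2 * n + 1)]
  symm
  refine Finset.card_bij (fun (j : ℕ) _ => 2 * (j : ℤ) - (d - 2 * n)) ?_ ?_ ?_
  · intro j hj
    rw [Finset.mem_range] at hj
    rw [Finset.mem_filter, Finset.mem_Icc, abs_le]
    refine ⟨⟨by omega, by omega⟩, ⟨by omega, by omega⟩, ?_⟩
    exact ⟨(j : ℤ) + n, by ring⟩
  · intro i _ j _ hij
    omega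
  · intro m hm
    rw [Finset.mem_filter, Finset.mem_Icc, abs_le] at hm
    obtain ⟨⟨h1, h2⟩, ⟨h3, h4⟩, h5⟩ := hm
    obtain ⟨a, ha⟩ := h5
    refine ⟨(a - n).toNat, ?_, ?_⟩
    · rw [Finset.mem_range]
      omega
    · omega

lemma bf_wt_ne (GZ : Gd W Z B h) {a b : W.H Z} {m m' : ℤ}
    (ha : wt (W.isInternal Z) Z.dim a = (m : W.K) • a)
    (hb : wt (W.isInternal Z) Z.dim b = (m' : W.K) • b) (hne : m ≠ m') :
    bf W Z B h a b = 0 := by
  have h1 := GZ.wt_self a b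
  rw [ha, hb, map_smul, LinearMap.smul_apply, map_smul, smul_eq_mul, smul_eq_mul] at h1
  have h2 : ((m : W.K) - m') * bf W Z B h a b = 0 := by rw [sub_mul, h1, sub_self]
  rcases mul_eq_zero.1 h2 with h3 | h3
  · exfalso
    apply hne
    have : ((m : ℤ) : W.K) = (m' : ℤ) := sub_eq_zero.1 h3
    exact_mod_cast this
  · exact h3

lemma exists_ofam (GZ : Gd W Z B h) (P : ℚ → Prop) [DecidablePred P] (hP : ∀ q, P q → q ≠ 0) (σ : ℕ → ℕ)
    (hσ : ∀ m : ℤ, ∃ (ι : Type) (_ : Fintype ι) (x : ι → AWs W Z m 1), OM (BA GZ.fr m 1) x ∧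
      Fintype.card {i : ι // P (BA GZ.fr m 1 (x i) (x i))} = wsumN Z.dim σ m) :
    ∃ (ι : Type) (_ : Fintype ι) (b : ι → W.H Z) (m : ι → ℤ) (c : ι → ℚ),
      OFam W Z B h b m c ∧ (∀ i, P (c i)) ∧
      Fintype.card ι = ∑ n ∈ Finset.range (Z.dim / 2 + 1), (Z.dim - 2 * n + 1) * σ n := by
  classical
  choose κ hκ x hx hcard using hσ
  refine ⟨Σ m : Finset.Icc (-(Z.dim : ℤ)) Z.dim,
    {i : κ m.1 // P (BA GZ.fr m.1 1 (x m.1 i) (x m.1 i))}, inferInstance,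
    fun p => (x p.1.1 p.2.1 : W.H Z), fun p => p.1.1,
    fun p => BA GZ.fr p.1.1 1 (x p.1.1 p.2.1) (x p.1.1 p.2.1), ?_, fun p => p.2.2, ?_⟩
  · refine ⟨fun p => (x p.1.1 p.2.1).2.1, fun p => (x p.1.1 p.2.1).2.2.1, fun p => ?_,
      fun p => hP _ p.2.2, ?_⟩
    · rw [BA_cast]
    · rintro ⟨m, i⟩ ⟨m', j⟩ hij
      by_cases hm : m = m'
      · subst hm
        have h1 := (hx m.1).orth i.1 j.1 (fun h0 => hij (by rw [Subtype.ext h0]))
        rw [BA_eq_zero] at h1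
        exact h1
      · exact bf_wt_ne GZ (x m.1 i.1).2.2.1 (x m'.1 j.1).2.2.1 (fun h0 => hm (Subtype.ext h0))
  · rw [Fintype.card_sigma]
    rw [← sum_wsumN, ← Finset.sum_coe_sort (Finset.Icc (-(Z.dim : ℤ)) Z.dim)]
    apply Finset.sum_congr rfl
    intro m _
    rw [← hcard]

lemma exists_ofam_pos (GZ : Gd W Z B h) :
    ∃ (ι : Type) (_ : Fintype ι) (b : ι → W.H Z) (m : ι → ℤ) (c : ι → ℚ),
      OFam W Z B h b m c ∧ (∀ i, 0 < c i) ∧
      Fintype.card ι = ∑ n ∈ Finset.range (Z.dim / 2 + 1), (Z.dim - 2 * n + 1) *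
        posNum W Z B n := by
  classical
  refine exists_ofam GZ (fun q => 0 < q) (fun q hq => hq.ne') _ fun m => ?_
  obtain ⟨ι, hι, x, hx, h1, -⟩ := exists_om2 GZ.fr m
  exact ⟨ι, hι, x, hx, by rw [← h1, Fintype.card_subtype]⟩

lemma exists_ofam_neg (GZ : Gd W Z B h) :
    ∃ (ι : Type) (_ : Fintype ι) (b : ι → W.H Z) (m : ι → ℤ) (c : ι → ℚ),
      OFam W Z B h b m c ∧ (∀ i, c i < 0) ∧
      Fintype.card ι = ∑ n ∈ Finset.range (Z.dim / 2 + 1), (Z.dim - 2 * n + 1) *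
        negNum W Z B n := by
  classical
  refine exists_ofam GZ (fun q => q < 0) (fun q hq => hq.ne) _ fun m => ?_
  obtain ⟨ι, hι, x, hx, -, h1⟩ := exists_om2 GZ.fr m
  exact ⟨ι, hι, x, hx, by rw [← h1, Fintype.card_subtype]⟩

section Bound

variable {X Z : Polarized 𝒱}

lemma neg_pow (hpos : ∀ m n, 2 * n ≤ (times ops X X m).X.dim →
      negNum W (times ops X X m).X (times ops X X m).D n = 0) (r : ℕ) :
    ∀ n, 2 * n ≤ (pw X.X r).dim → negNum W (pw X.X r) (pwD ops X r) n = 0 := by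
  intro n hn
  have h2 := hpos r n
  rw [← pP_eq] at h2
  exact h2 hn

/-- The classes of `Z` itself give lower bounds for the limits. -/
theorem own_bound (hX : IsGood W X) (hZ : IsGood W Z) (hd : 0 < X.X.dim)
    (hpos : ∀ m n, 2 * n ≤ (times ops X X m).X.dim →
      negNum W (times ops X X m).X (times ops X X m).D n = 0) {x y : ℝ}
    (hx : Tendsto (fun r => (posTotal W (times ops Z X (r + 1)) : ℝ) / nrmg (algSys W) X.X r)
      atTop (𝓝 x))
    (hy : Tendsto (fun r => (negTotal W (times ops Z X (r + 1)) : ℝ) / nrmg (algSys W) X.X r)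
      atTop (𝓝 y)) : (allPos W Z : ℝ) ≤ x ∧ (allNeg W Z : ℝ) ≤ y := by
  have hS := gbig_of_good hX hd
  obtain ⟨f, G⟩ := exists_gp hX.div hX.hard hX.lef
  obtain ⟨h, GZ⟩ := exists_gp hZ.div hZ.hard hZ.lef
  have hpar := (par_gop GZ.gd).gop (wo_self Z.X)
  have hbf := H44T.SL.bf_one G.fr
  have ha0 : ((X.X.dim.factorial : ℚ)⁻¹ *
    X.X.V.degCycle (divPow ops X.D X.X.dim X.X.V.fundCycle)) ≠ 0 :=
    mul_ne_zero (by positivity) hX.deg.ne'
  constructor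
  · obtain ⟨ι, hι, b, m, c, H, hc, hcard⟩ := exists_ofam_pos GZ.gd
    have h1 := lim_rg hS ((H.sah GZ.gd).ah.gop (wo_self Z.X)) H.idem
      (glow_of_gidl hS hpar _ _ (H.gen GZ.gd G.gd ha0 hbf) H.idem le_rfl)
    rw [H.rank, hcard] at h1
    refine le_of_tendsto_of_tendsto' h1 hx fun r => ?_
    obtain ⟨g, Gr⟩ := gp_pw (ops := ops) G r
    have h2 := own_pos Gr.gd GZ.gd (neg_pow hpos r) H hc (rhoM (pw X.X r) Z.X)
    rw [← (tot_eq G GZ.gd r).1] at h2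
    have h3 := nrmg_pos hS r
    gcongr
  · obtain ⟨ι, hι, b, m, c, H, hc, hcard⟩ := exists_ofam_neg GZ.gd
    have h1 := lim_rg hS ((H.sah GZ.gd).ah.gop (wo_self Z.X)) H.idem
      (glow_of_gidl hS hpar _ _ (H.gen GZ.gd G.gd ha0 hbf) H.idem le_rfl)
    rw [H.rank, hcard] at h1
    refine le_of_tendsto_of_tendsto' h1 hy fun r => ?_
    obtain ⟨g, Gr⟩ := gp_pw (ops := ops) G r
    have h2 := own_neg Gr.gd GZ.gd (neg_pow hpos r) H hc (rhoM (pw X.X r) Z.X)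
    rw [← (tot_eq G GZ.gd r).2] at h2
    have h3 := nrmg_pos hS r
    gcongr

end Bound

end Pool.Agent.H61.MS
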