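import Pool.Agent.H61.MS.Half

/-!
# The limit law for the signs
-/

open CategoryTheory AlgebraicGeometry

universe u v

namespace Pool.Agent.H61.MS

open Module Filter Topology
open Pool.Agent.H914 Pool.Agent.H914.VarClass Pool.Agent.H914.VarClass.Obj
  Pool.Agent.H914.WeilCohomology Pool.Agent.H281R3.HT Pool.Agent.W552 Pool.Agent.W539.Ker
  Pool.Agent.Y133.Half Pool.Agent.H61.GX Pool.Agent.H61.ZX Pool.Agent.H44T.SL Pool.Agent.Y97

variable {k : Type u} [Field k] {𝒱 : VarClass k} {ops : CycleOps 𝒱}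
  {W : WeilCohomology.{u, v} ops} {X Z : Polarized 𝒱}

lemma UAsy.change {X Z : 𝒱.Obj} {f : ℕ → ℕ → ℝ} {c : ℝ} {ν ν' : ℕ → ℝ} (h : UAsy X Z f c ν)
    (hν : ∀ r, 0 < ν r) (hlim : Tendsto (fun r => ν' r / ν r) atTop (𝓝 1)) :
    UAsy X Z f c ν' := by
  intro J δ hδ
  have hc : 0 < |c| + 1 := by positivity
  set η : ℝ := min (1 / 2) (δ / (4 * (|c| + 1))) with hη
  have hη0 : 0 < η := by positivity
  have h1 : ∀ᶠ r in atTop, |ν' r / ν r - 1| < η := by
    have := (Metric.tendsto_nhds.1 hlim) η hη0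
    simpa only [Real.dist_eq] using this
  filter_upwards [h J (δ / 4) (by positivity), h1] with r hr hr' j hj1 hj2
  have e1 := hr j hj1 hj2
  have h2 := hν r
  have e2 : |ν' r - ν r| ≤ η * ν r := by
    have e3 : ν' r / ν r - 1 = (ν' r - ν r) / ν r := by field_simp
    rw [e3, abs_div, abs_of_pos h2, div_lt_iff₀ h2] at hr'
    exact hr'.le
  have e3 := abs_le.1 e2
  have e4 : η ≤ 1 / 2 := min_le_left _ _
  have e5 : η ≤ δ / (4 * (|c| + 1)) := min_le_right _ _
  have e6 : ν r ≤ 2 * ν' r := by nlinarith [e3.1]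
  have e7 : |c| * |ν r - ν' r| ≤ δ / 4 * ν r := by
    rw [abs_sub_comm]
    calc |c| * |ν' r - ν r| ≤ (|c| + 1) * (δ / (4 * (|c| + 1)) * ν r) := by
          apply mul_le_mul (by linarith) (e2.trans (by gcongr)) (abs_nonneg _) hc.le
      _ = δ / 4 * ν r := by field_simp
  have e8 : f r j - c * ν' r = (f r j - c * ν r) + c * (ν r - ν' r) := by ring
  rw [e8]
  refine (abs_add_le _ _).trans ?_
  rw [abs_mul]
  nlinarith

lemma noNeg_iff {P : Polarized 𝒱} (hD : P.X.IsCyc 1 P.D) :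
    NoNegative W P ↔ ∀ n, 2 * n ≤ P.X.dim → negNum W P.X P.D n = 0 := by
  constructor
  · intro h n hn
    exact (negNum_eq_zero_iff hD hn).2 fun z hz => h n z hn hz
  · intro h n z hn hz
    exact (negNum_eq_zero_iff hD hn).1 (h n hn) z hz

lemma noNeg_upTo {P : Polarized 𝒱} (hD : P.X.IsCyc 1 P.D) :
    NoNegative W P ↔ ∀ j, 2 * j ≤ P.X.dim → negUpTo W P j = 0 := by
  rw [noNeg_iff hD]
  constructor
  · intro h j hj
    apply Finset.sum_eq_zero
    intro n hn
    rw [Finset.mem_range] at hn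
    exact h n (by omega)
  · intro h n hn
    have h1 := h n hn
    rw [negUpTo, Finset.sum_eq_zero_iff] at h1
    exact h1 n (by simp)

lemma eventually_succ {p : ℕ → Prop} (h : ∀ᶠ r in atTop, p (r + 1)) : ∀ᶠ r in atTop, p r := by
  obtain ⟨n₀, hn₀⟩ := eventually_atTop.1 h
  refine eventually_atTop.2 ⟨n₀ + 1, fun r hr => ?_⟩
  obtain ⟨r', rfl⟩ : ∃ r', r = r' + 1 := ⟨r - 1, by omega⟩
  exact hn₀ r' (by omega)

lemma one_le_allPos (hZ : IsGood W Z) : Z.X.dim + 1 ≤ allPos W Z := by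
  have h1 := one_le_posNum (W := W) hZ.div hZ.deg
  have h2 : (Z.X.dim - 2 * 0 + 1) * posNum W Z.X Z.D 0 ≤ allPos W Z :=
    Finset.single_le_sum (f := fun n => (Z.X.dim - 2 * n + 1) * posNum W Z.X Z.D n)
      (fun _ _ => Nat.zero_le _) (Finset.mem_range.2 (Nat.succ_pos _))
  refine le_trans ?_ h2
  calc Z.X.dim + 1 = (Z.X.dim - 2 * 0 + 1) * 1 := by omega
    _ ≤ _ := Nat.mul_le_mul_left _ h1

/-- The case of positivity on all powers. -/
theorem pos_case (hX : IsGood W X) (hZ : IsGood W Z) (hd : 0 < X.X.dim)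
    (hpos : ∀ m, NoNegative W (times ops X X m)) :
    ∃ x y : ℕ, allPos W Z ≤ x ∧ allNeg W Z ≤ y ∧ x + y ≤ finrank W.K (W.H Z.X) ∧
      (∀ (J : ℕ) (ε : ℝ), 0 < ε → ∀ᶠ r : ℕ in atTop, ∀ j : ℕ,
        NearMiddle (times ops Z X (r + 1)) J j →
        |(posUpTo W (times ops Z X (r + 1)) j : ℝ) - x * posTotal W (times ops X X r)| ≤
          ε * posTotal W (times ops X X r) ∧
        |(negUpTo W (times ops Z X (r + 1)) j : ℝ) - y * posTotal W (times ops X X r)| ≤
          ε * posTotal W (times ops X X r)) ∧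
      (∀ (J : ℕ) (ε : ℝ), 0 < ε → ∀ᶠ r : ℕ in atTop, ∀ j : ℕ, NearMiddle (times ops Z X r) J j →
        |negShare W (times ops Z X r) j - (y : ℝ) / (x + y)| ≤ ε) ∧
      (y = 0 ↔ ∀ r, NoNegative W (times ops Z X r)) := by
  have hpos' : ∀ m n, 2 * n ≤ (times ops X X m).X.dim →
      negNum W (times ops X X m).X (times ops X X m).D n = 0 := fun m =>
    (noNeg_iff (good_div hX.div hX.div m)).1 (hpos m)
  obtain ⟨x, y, h1, h2, h3, hP, hN, hy⟩ := mixedU hX hZ hd hpos'
  have hS := gbig_of_good hX hd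
  have hν : ∀ r, 0 < nrmg (algSys W) X.X r := nrmg_pos hS
  have hx1 : 1 ≤ x := le_trans (by omega) ((one_le_allPos hZ).trans h1)
  have hlim := lim_pow hX hd hpos'
  have hP' := hP.change hν hlim
  have hN' := hN.change hν hlim
  have hdim : ∀ r, (times ops Z X (r + 1)).X.dim = Z.X.dim + (r + 1) * X.X.dim := fun r =>
    MS.times_dim Z X (r + 1)
  refine ⟨x, y, h1, h2, h3, ?_, ?_, ?_⟩
  · intro J ε hε
    filter_upwards [hP' J ε hε, hN' J ε hε] with r hr hr' j hj
    have hj1 := hj.1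
    have hj2 := hj.2
    rw [hdim] at hj1 hj2
    exact ⟨hr j hj1 hj2, hr' j hj1 hj2⟩
  · intro J ε hε
    apply eventually_succ
    have hx0 : (0 : ℝ) < x := by exact_mod_cast hx1
    obtain ⟨δ, hδ, hsh⟩ := share_lim hx0 (Nat.cast_nonneg y) hε
    filter_upwards [hP J δ hδ, hN J δ hδ] with r hr hr' j hj
    have hj1 := hj.1
    have hj2 := hj.2
    rw [hdim] at hj1 hj2
    exact (hsh _ _ _ (hν r) (hr j hj1 hj2) (hr' j hj1 hj2)).2
  · constructor
    · intro hy0 r
      rcases r with _ | r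
      · rw [noNeg_iff (good_div hX.div hZ.div 0)]
        intro n hn
        have h4 : allNeg W Z = 0 := by omega
        rw [allNeg, Finset.sum_eq_zero_iff] at h4
        have hn' : 2 * n ≤ Z.X.dim := hn
        have h5 := h4 n (Finset.mem_range.2 (by omega))
        rcases Nat.mul_eq_zero.1 h5 with h6 | h6
        · omega
        · exact h6
      · rw [noNeg_upTo (good_div hX.div hZ.div (r + 1))]
        exact hy hy0 r
    · intro hno
      by_contra hy0
      have hy1 : (1 : ℝ) ≤ y := by exact_mod_cast Nat.one_le_iff_ne_zero.2 hy0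
      obtain ⟨r, hr⟩ := (hN 1 (1 / 2) (by norm_num)).exists
      have h4 := hr ((Z.X.dim + (r + 1) * X.X.dim) / 2) (by omega) (by omega)
      have h5 := (noNeg_upTo (good_div hX.div hZ.div (r + 1))).1 (hno (r + 1))
        ((Z.X.dim + (r + 1) * X.X.dim) / 2) (by rw [hdim]; omega)
      beta_reduce at h4
      rw [h5, Nat.cast_zero, zero_sub, abs_neg, abs_of_nonneg (by
        have := hν r
        positivity)] at h4
      have := hν r
      nlinarith

/-- **The limit law for the signs.** -/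
theorem limit_law (hX : IsGood W X) (hZ : IsGood W Z) (hd : 0 < X.X.dim) :
    ∃ s : ℚ,
      (∀ (J : ℕ) (ε : ℝ), 0 < ε → ∀ᶠ r : ℕ in atTop, ∀ j : ℕ, NearMiddle (times ops Z X r) J j →
        |negShare W (times ops Z X r) j - s| ≤ ε) ∧
      (s = 0 ↔ ∀ r, NoNegative W (times ops Z X r)) ∧
      (s = 0 → ∀ m, NoNegative W (times ops X X m)) ∧
      ((∃ m, ¬ NoNegative W (times ops X X m)) → s = 1 / 2) ∧
      ((∀ m, NoNegative W (times ops X X m)) → ∃ x y : ℕ, allPos W Z ≤ x ∧ allNeg W Z ≤ y ∧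
        x + y ≤ finrank W.K (W.H Z.X) ∧ s = y / (x + y) ∧
        ∀ (J : ℕ) (ε : ℝ), 0 < ε → ∀ᶠ r : ℕ in atTop, ∀ j : ℕ,
          NearMiddle (times ops Z X (r + 1)) J j →
          |(posUpTo W (times ops Z X (r + 1)) j : ℝ) - x * posTotal W (times ops X X r)| ≤
            ε * posTotal W (times ops X X r) ∧
          |(negUpTo W (times ops Z X (r + 1)) j : ℝ) - y * posTotal W (times ops X X r)| ≤
            ε * posTotal W (times ops X X r)) := by
  by_cases hpos : ∀ m, NoNegative W (times ops X X m)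
  · obtain ⟨x, y, h1, h2, h3, h4, h5, h6⟩ := pos_case hX hZ hd hpos
    have hx1 : 1 ≤ x := le_trans (by omega) ((one_le_allPos hZ).trans h1)
    refine ⟨(y : ℚ) / (x + y), ?_, ?_, fun _ => hpos, ?_, fun _ => ⟨x, y, h1, h2, h3, rfl, h4⟩⟩
    · have e1 : (((y : ℚ) / (x + y) : ℚ) : ℝ) = (y : ℝ) / (x + y) := by push_cast; rfl
      rw [e1]
      exact h5
    · rw [← h6, div_eq_zero_iff]
      constructor
      · rintro (h7 | h7)
        · exact_mod_cast h7
        · exfalso
          have : (0 : ℚ) < x + y := by positivity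
          linarith
      · intro h7
        left
        exact_mod_cast h7
    · rintro ⟨m, hm⟩
      exact absurd (hpos m) hm
  · have hex := hpos
    push Not at hex
    obtain ⟨m, hm⟩ := hex
    have hm' := hm
    rw [NoNegative] at hm'
    push Not at hm'
    obtain ⟨n, z, hn, hz, hneg⟩ := hm'
    have h1 : ∀ (J : ℕ) (ε : ℝ), 0 < ε → ∀ᶠ r : ℕ in atTop, ∀ j : ℕ,
        NearMiddle (times ops Z X r) J j → |negShare W (times ops Z X r) j - ((1 / 2 : ℚ) : ℝ)| ≤ ε := by
      intro J ε hε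
      filter_upwards [half_case hX hn hz hneg hZ J hε] with r hr j hj
      have h2 := hr j hj.1 hj.2
      have e1 : ((1 / 2 : ℚ) : ℝ) = 1 / 2 := by push_cast; rfl
      rw [e1]
      exact h2
    refine ⟨1 / 2, h1, ?_, ?_, fun _ => rfl, fun h => absurd (h m) hm⟩
    · constructor
      · intro h; norm_num at h
      · intro hno
        exfalso
        obtain ⟨r, hr⟩ := (h1 1 (1 / 4) (by norm_num)).exists
        have h2 := hr ((times ops Z X r).X.dim / 2) ⟨by omega, by omega⟩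
        have h3 := (noNeg_upTo (good_div hX.div hZ.div r)).1 (hno r)
          ((times ops Z X r).X.dim / 2) (by omega)
        rw [negShare, h3, Nat.cast_zero, zero_div, zero_sub, abs_neg] at h2
        norm_num [abs_of_pos] at h2
    · intro h; norm_num at h

end Pool.Agent.H61.MS
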