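import Pool.Agent.H61.MS.Uni
import Pool.Agent.H61.HL.Band

/-!
# The case that positivity fails on a power of `X`, and elementary estimates
-/

open CategoryTheory AlgebraicGeometry

universe u v

namespace Pool.Agent.H61.MS

open Module Filter Topology
open Pool.Agent.H914 Pool.Agent.H914.VarClass Pool.Agent.H914.VarClass.Obj
  Pool.Agent.H914.WeilCohomology Pool.Agent.H281R3.HT Pool.Agent.W552 Pool.Agent.W539.Ker
  Pool.Agent.Y133.Half Pool.Agent.H61.GX Pool.Agent.H61.ZX Pool.Agent.H44T.SL Pool.Agent.Y97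

variable {k : Type u} [Field k] {𝒱 : VarClass k} {ops : CycleOps 𝒱}
  {W : WeilCohomology.{u, v} ops}

lemma share_lim {x y : ℝ} (hx : 0 < x) (hy : 0 ≤ y) {ε : ℝ} (hε : 0 < ε) :
    ∃ δ : ℝ, 0 < δ ∧ ∀ P N ν : ℝ, 0 < ν → |P - x * ν| ≤ δ * ν → |N - y * ν| ≤ δ * ν →
      0 < P + N ∧ |N / (P + N) - y / (x + y)| ≤ ε := by
  have hxy : 0 < x + y := by linarith
  refine ⟨min ((x + y) / 4) (ε * (x + y) / 2), by positivity, fun P N ν hν hP hN => ?_⟩
  set δ := min ((x + y) / 4) (ε * (x + y) / 2) with hδ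
  have hδ0 : 0 < δ := by positivity
  have h1 : δ ≤ (x + y) / 4 := min_le_left _ _
  have h2 : δ ≤ ε * (x + y) / 2 := min_le_right _ _
  have hP' := abs_le.1 hP
  have hN' := abs_le.1 hN
  have h3 : (x + y) / 2 * ν ≤ P + N := by nlinarith
  have h4 : 0 < P + N := lt_of_lt_of_le (by positivity) h3
  refine ⟨h4, ?_⟩
  have e1 : N / (P + N) - y / (x + y) = (x * (N - y * ν) - y * (P - x * ν)) /
      ((P + N) * (x + y)) := by
    field_simp
    ring
  rw [e1, abs_div, abs_of_pos (mul_pos h4 hxy), div_le_iff₀ (mul_pos h4 hxy)]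
  have h5 : |x * (N - y * ν) - y * (P - x * ν)| ≤ x * (δ * ν) + y * (δ * ν) := by
    refine (abs_sub _ _).trans ?_
    rw [abs_mul, abs_mul, abs_of_pos hx, abs_of_nonneg hy]
    exact add_le_add (mul_le_mul_of_nonneg_left hN hx.le) (mul_le_mul_of_nonneg_left hP hy)
  refine h5.trans ?_
  calc x * (δ * ν) + y * (δ * ν) = (x + y) * δ * ν := by ring
    _ ≤ (x + y) * (ε * (x + y) / 2) * ν := by gcongr
    _ = ε * (((x + y) / 2 * ν) * (x + y)) := by ring
    _ ≤ ε * ((P + N) * (x + y)) := by gcongr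

variable {X Z : Polarized 𝒱}

theorem half_case (hX : IsGood W X) {m n : ℕ} (hn : 2 * n ≤ (times ops X X m).X.dim)
    {z : (times ops X X m).X.Cycles}
    (hz : Primitive W (times ops X X m).X (times ops X X m).D n z)
    (hneg : pairing ops (times ops X X m).X (times ops X X m).D n z z < 0) (hZ : IsGood W Z)
    (J : ℕ) {ε : ℝ} (hε : 0 < ε) :
    ∀ᶠ r : ℕ in atTop, ∀ j : ℕ, 2 * j ≤ (times ops Z X r).X.dim →
      (times ops Z X r).X.dim ≤ 2 * j + J → |negShare W (times ops Z X r) j - 1 / 2| ≤ ε := by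
  obtain ⟨γ, hγ0, hγ1, hlaw⟩ := law hX hn hz hneg
  obtain ⟨C, hC, hlaw⟩ := hlaw Z hZ
  obtain ⟨hN, η, ρ, hη, hρ0, hρ1, hband⟩ := HL.band hX hn hz hneg
  obtain ⟨C', r₀, hC', hband⟩ := hband Z hZ
  set N := finrank W.K (W.H X.X) with hNdef
  have hN0 : (0 : ℝ) < N := by exact_mod_cast (by omega : 0 < N)
  have hN1 : (1 : ℝ) ≤ N := by exact_mod_cast (by omega : 1 ≤ N)
  obtain ⟨B, hB, hpg⟩ := poly_geom hγ0 hγ1 (2 * N ^ 2 + 4 + 1)
  have hs0 : 0 < Real.sqrt γ := Real.sqrt_pos.2 hγ0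
  have hs1 : Real.sqrt γ < 1 := by
    rw [Real.sqrt_lt' one_pos]; simpa using hγ1
  set A : ℝ := (Z.X.dim + X.X.dim + 1) * C * C' * (N : ℝ) ^ J * B with hA
  have hlim : Tendsto (fun r : ℕ => A * Real.sqrt γ ^ r) atTop (𝓝 0) := by
    have := (tendsto_pow_atTop_nhds_zero_of_lt_one hs0.le hs1).const_mul A
    rwa [mul_zero] at this
  have h2 : ∀ᶠ r : ℕ in atTop, A * Real.sqrt γ ^ r < 2 * ε :=
    hlim.eventually (gt_mem_nhds (by positivity))
  have h3 : ∀ᶠ r : ℕ in atTop, (J : ℝ) ≤ η * r := by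
    have h4 : Tendsto (fun r : ℕ => η * (r : ℝ)) atTop atTop :=
      Tendsto.const_mul_atTop hη tendsto_natCast_atTop_atTop
    exact h4.eventually_ge_atTop _
  filter_upwards [h2, h3, eventually_ge_atTop r₀] with r hr2 hr3 hr0 j hj hjJ
  set P := times ops Z X r with hP
  obtain ⟨-, hlow⟩ := hband r j hr0 hj (by
    have : (P.X.dim : ℝ) ≤ 2 * j + J := by exact_mod_cast hjJ
    linarith)
  have hlaw' := (hlaw r).2
  -- the difference
  set p : ℝ := (posUpTo W P j : ℝ) with hp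
  set q : ℝ := (negUpTo W P j : ℝ) with hq
  have hdiff : |p - q| ≤ (j + 1) * (C * γ ^ r * (N : ℝ) ^ r) := by
    have e1 : p - q = ∑ i ∈ Finset.range (j + 1), ((posNum W P.X P.D i : ℝ) -
        negNum W P.X P.D i) := by
      rw [hp, hq, posUpTo, negUpTo, Nat.cast_sum, Nat.cast_sum, Finset.sum_sub_distrib]
    rw [e1]
    refine (Finset.abs_sum_le_sum_abs _ _).trans ?_
    have h4 : ∀ i ∈ Finset.range (j + 1), |((posNum W P.X P.D i : ℝ) -
        negNum W P.X P.D i)| ≤ C * γ ^ r * (N : ℝ) ^ r := by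
      intro i hi
      rw [Finset.mem_range] at hi
      exact hlaw' i (by rw [← hP]; omega)
    refine (Finset.sum_le_card_nsmul _ _ _ h4).trans (le_of_eq ?_)
    rw [Finset.card_range, nsmul_eq_mul]
    push_cast
    ring
  have hpq : (posNum W P.X P.D j : ℝ) + negNum W P.X P.D j ≤ p + q := by
    have h4 : posNum W P.X P.D j ≤ posUpTo W P j :=
      Finset.single_le_sum (f := fun i => posNum W P.X P.D i) (fun _ _ => Nat.zero_le _)
        (Finset.mem_range.2 (Nat.lt_succ_self j))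
    have h5 : negNum W P.X P.D j ≤ negUpTo W P j :=
      Finset.single_le_sum (f := fun i => negNum W P.X P.D i) (fun _ _ => Nat.zero_le _)
        (Finset.mem_range.2 (Nat.lt_succ_self j))
    have h4' : (posNum W P.X P.D j : ℝ) ≤ p := by rw [hp]; exact_mod_cast h4
    have h5' : (negNum W P.X P.D j : ℝ) ≤ q := by rw [hq]; exact_mod_cast h5
    linarith
  have hlow2 : (N : ℝ) ^ r ≤ C' * (r + 1) ^ (2 * N ^ 2 + 4) * (N : ℝ) ^ J * (p + q) := by
    refine hlow.trans ?_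
    have h4 : (N : ℝ) ^ (P.X.dim - 2 * j) ≤ (N : ℝ) ^ J := pow_le_pow_right₀ hN1 (by omega)
    have h5 : (0 : ℝ) ≤ (posNum W P.X P.D j : ℝ) + negNum W P.X P.D j := by positivity
    gcongr
  have hpq0 : 0 < p + q := by
    by_contra h0
    have h7 : C' * ((r : ℝ) + 1) ^ (2 * N ^ 2 + 4) * (N : ℝ) ^ J * (p + q) ≤ 0 :=
      mul_nonpos_of_nonneg_of_nonpos (by positivity) (not_lt.1 h0)
    have h8 : (0 : ℝ) < (N : ℝ) ^ r := by positivity
    linarith
  have hj1 : ((j : ℝ) + 1) ≤ (Z.X.dim + X.X.dim + 1) * (r + 1) := by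
    have h4 : P.X.dim = Z.X.dim + r * X.X.dim := MS.times_dim Z X r
    have h5 : j ≤ Z.X.dim + r * X.X.dim := by omega
    have h6 : (j : ℝ) ≤ Z.X.dim + r * X.X.dim := by exact_mod_cast h5
    have h7 : (0 : ℝ) ≤ r := Nat.cast_nonneg _
    have h8 : (0 : ℝ) ≤ Z.X.dim := Nat.cast_nonneg _
    have h9 : (0 : ℝ) ≤ X.X.dim := Nat.cast_nonneg _
    nlinarith [mul_nonneg h7 h8]
  have hfin : |p - q| ≤ 2 * ε * (p + q) := by
    have e2 : ((r : ℝ) + 1) ^ (2 * N ^ 2 + 4 + 1) * γ ^ r ≤ B * Real.sqrt γ ^ r := hpg r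
    calc |p - q| ≤ (j + 1) * (C * γ ^ r * (N : ℝ) ^ r) := hdiff
      _ ≤ ((Z.X.dim + X.X.dim + 1) * (r + 1)) * (C * γ ^ r *
          (C' * (r + 1) ^ (2 * N ^ 2 + 4) * (N : ℝ) ^ J * (p + q))) := by gcongr
      _ = (Z.X.dim + X.X.dim + 1) * C * C' * (N : ℝ) ^ J *
          (((r : ℝ) + 1) ^ (2 * N ^ 2 + 4 + 1) * γ ^ r) * (p + q) := by ring
      _ ≤ (Z.X.dim + X.X.dim + 1) * C * C' * (N : ℝ) ^ J * (B * Real.sqrt γ ^ r) * (p + q) := by
          gcongr
      _ = A * Real.sqrt γ ^ r * (p + q) := by rw [hA]; ring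
      _ ≤ 2 * ε * (p + q) := by gcongr
  have e3 : negShare W P j - 1 / 2 = -(p - q) / (2 * (p + q)) := by
    rw [negShare, ← hp, ← hq]
    field_simp
    ring
  rw [e3, abs_div, abs_neg, abs_of_pos (by positivity : (0 : ℝ) < 2 * (p + q)),
    div_le_iff₀ (by positivity)]
  linarith

end Pool.Agent.H61.MS
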