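import Pool.Agent.H61.MS.Poly
import Pool.Graph.R_pool_sql_team_seeded_843ab51a.H44T.SL.Law

/-!
# The index of a form with a positive self-adjoint operator
-/

namespace Pool.Agent.H61.MS

open Finset Polynomial
open Pool.Agent.W539.Ker Pool.Agent.H44T.SL

variable {V : Type*} [AddCommGroup V] [Module ℚ V] {B : V →ₗ[ℚ] V →ₗ[ℚ] ℚ} {p : V →ₗ[ℚ] V}
  {ι : Type*} [Fintype ι] {x : ι → V}

/-- The expansion of the form in a maximal orthogonal family. -/
lemma om_expand (hB : ∀ x y, B x y = B y x) (h : OM B x) (u w : V) :
    B u w = ∑ i, B u (x i) * B w (x i) / B (x i) (x i) := by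
  classical
  set s := ∑ i, (B u (x i) / B (x i) (x i)) • x i with hs
  have hsx : ∀ i, B s (x i) = B u (x i) := by
    intro i
    rw [hs, map_sum B, LinearMap.sum_apply, Finset.sum_eq_single i]
    · rw [map_smul, LinearMap.smul_apply, smul_eq_mul, div_mul_cancel₀ _ (h.ne i)]
    · intro j _ hj
      rw [map_smul, LinearMap.smul_apply, h.orth j i hj, smul_zero]
    · intro h0; exact absurd (Finset.mem_univ _) h0
  have hrad := om_radical hB h (u := u - s) (fun i => by
    rw [map_sub, LinearMap.sub_apply, hsx, sub_self]) w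
  rw [map_sub, LinearMap.sub_apply, sub_eq_zero] at hrad
  rw [hrad, hs, map_sum B, LinearMap.sum_apply]
  apply Finset.sum_congr rfl
  intro i _
  rw [map_smul, LinearMap.smul_apply, smul_eq_mul, hB (x i) w]
  ring

variable [DecidableEq ι]

/-- **The index of a form**, if there is a positive self-adjoint operator killed by a power of an
irreducible polynomial. -/
theorem om_index (hB : ∀ x y, B x y = B y x) (h : OM B x) (hp : ∀ u w, B (p u) w = B u (p w))
    (hnn : ∀ u, 0 ≤ B u (p u)) (hz : ∀ u, B u (p u) = 0 → ∀ w, B u w = 0) {q : ℚ[X]}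
    (hq : Irreducible q) (hm : q.Monic) {N : ℕ} (hN : ∀ u, aeval p (q ^ N) u = 0) :
    q.natDegree * (univ.filter fun i => B (x i) (x i) < 0).card = nneg q * Fintype.card ι := by
  set β : ι → ℚ := fun i => B (x i) (x i) with hβ
  set M : Matrix ι ι ℚ := Matrix.of fun a b => B (x a) (p (x b)) / β a with hM
  have hMa : ∀ a b, β a * M a b = B (x a) (p (x b)) := by
    intro a b
    rw [hM, Matrix.of_apply, mul_div_cancel₀ _ (h.ne a)]
  have hpow : ∀ (k : ℕ) (a b : ι), (M ^ k) a b = B (x a) ((p ^ k) (x b)) / β a := by
    intro k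
    induction k with
    | zero =>
      intro a b
      rw [pow_zero, pow_zero, Module.End.one_apply]
      by_cases hab : a = b
      · subst hab
        rw [Matrix.one_apply_eq, hβ, div_self (h.ne a)]
      · rw [Matrix.one_apply_ne hab, h.orth a b hab, zero_div]
    | succ k ih =>
      intro a b
      rw [pow_succ', Matrix.mul_apply, pow_succ', Module.End.mul_apply, ← hp,
        om_expand hB h (p (x a)) ((p ^ k) (x b)), Finset.sum_div]
      apply Finset.sum_congr rfl
      intro c _
      rw [ih, hM, Matrix.of_apply, hp, hB ((p ^ k) (x b)) (x c)]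
      ring
  have hae : ∀ (f : ℚ[X]) (a b : ι), (aeval M f) a b = B (x a) ((aeval p f) (x b)) / β a := by
    intro f
    induction f using Polynomial.induction_on' with
    | add f g hf hg =>
      intro a b
      rw [map_add, map_add, Matrix.add_apply, hf, hg, LinearMap.add_apply, map_add, add_div]
    | monomial k c =>
      intro a b
      rw [aeval_monomial, aeval_monomial, ← Algebra.smul_def, ← Algebra.smul_def,
        Matrix.smul_apply, hpow, LinearMap.smul_apply, map_smul, smul_eq_mul, smul_eq_mul,
        mul_div_assoc]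
  refine index_eq (β := β) h.ne (M := M) ?_ ?_ hq hm (N := N) ?_
  · intro a b
    rw [hMa, hMa, ← hp, hB]
  · intro c hc
    set u := ∑ a, c a • x a with hu
    have h1 : ∑ a, ∑ b, c a * (β a * M a b) * c b = B u (p u) := by
      rw [hu, map_sum B, LinearMap.sum_apply]
      apply Finset.sum_congr rfl
      intro a _
      rw [map_sum p, map_sum]
      apply Finset.sum_congr rfl
      intro b _
      rw [hMa, map_smul, LinearMap.smul_apply, map_smul, map_smul, smul_eq_mul, smul_eq_mul]
      ring
    rw [h1]
    refine lt_of_le_of_ne (hnn u) (fun h0 => ?_)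
    have h2 := hz u h0.symm
    apply hc
    funext a
    have h3 := h2 (x a)
    rw [hu, map_sum B, LinearMap.sum_apply, Finset.sum_eq_single a] at h3
    · rw [map_smul, LinearMap.smul_apply, smul_eq_mul] at h3
      exact (mul_eq_zero.1 h3).resolve_right (h.ne a)
    · intro b _ hb
      rw [map_smul, LinearMap.smul_apply, h.orth b a hb, smul_zero]
    · intro h0; exact absurd (Finset.mem_univ _) h0
  · ext a b
    rw [hae, hN, map_zero, zero_div, Matrix.zero_apply]

end Pool.Agent.H61.MS
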