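import Pool.Agent.H61.LS.Grow
import Pool.Agent.H61.GX.Law

/-!
# Lower bounds for all the idempotents built from operators factoring through powers
-/

open CategoryTheory AlgebraicGeometry

universe u v

namespace Pool.Agent.H61.MS

open Module
open Pool.Agent.H914 Pool.Agent.H914.VarClass Pool.Agent.H914.VarClass.Obj
  Pool.Agent.H914.WeilCohomology Pool.Agent.Y133.Half Pool.Agent.H61.GX Pool.Agent.H61.ZX

variable {k : Type u} [Field k] {𝒱 : VarClass k} {ops : CycleOps 𝒱}
  {W : WeilCohomology.{u, v} ops} {X Y Z M : 𝒱.Obj} {S : Sys W}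

lemma gidl_mul_left {x y : Module.End W.K (W.H Z)} (hx : x ∈ gidl S S X Z) (hy : y ∈ GOp S Z Z 0) :
    y ∘ₗ x ∈ gidl S S X Z := by
  refine Submodule.span_induction (p := fun x _ => y ∘ₗ x ∈ gidl S S X Z) ?_ ?_ ?_ ?_ hx
  · rintro _ ⟨n, r, s, hs, v, hv, rfl⟩
    exact Submodule.subset_span ⟨n, r, y ∘ₗ s, GOp.comp' hy hs (by ring), v, hv, rfl⟩
  · rw [LinearMap.comp_zero]; exact Submodule.zero_mem _
  · intro a b _ _ ha hb
    rw [LinearMap.comp_add]; exact Submodule.add_mem _ ha hb
  · intro c a _ ha
    rw [LinearMap.comp_smul]; exact Submodule.smul_mem _ _ ha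

/-- All the idempotents of the ideal are as large as possible. -/
theorem glow_of_gidl (hS : GBig S X) (hpar : par (W.isInternal Z) ∈ GOp S Z Z 0) :
    ∀ (m : ℕ) (e : Module.End W.K (W.H Z)), e ∈ gidl S S X Z → e ∘ₗ e = e →
      finrank W.K (LinearMap.range e) ≤ m → GLow S X Z e := by
  intro m
  induction m with
  | zero =>
    intro e _ _ h0
    have h1 : e = 0 := by
      by_contra h
      have := Sys.finrank_range_pos h
      omega
    rw [h1]
    exact glow_zero
  | succ m ih =>
    intro e he hee hm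
    by_cases h0 : e = 0
    · rw [h0]; exact glow_zero
    have heS : e ∈ GOp S Z Z 0 := gidl_le (fun _ => le_rfl) he
    have hex : ∃ (n : ℕ) (r : ℤ), ∃ s ∈ GOp S (pw X n) Z (-r), ∃ t ∈ GOp S Z (pw X n) r,
        LinearMap.trace W.K (W.H Z) (par (W.isInternal Z) ∘ₗ e ∘ₗ s ∘ₗ t) ≠ 0 := by
      by_contra hno
      push Not at hno
      have h1 : ∀ y ∈ gidl S S X Z,
          LinearMap.trace W.K (W.H Z) (par (W.isInternal Z) ∘ₗ e ∘ₗ y) = 0 := by
        intro y hy
        refine Submodule.span_induction (p := fun y _ =>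
          LinearMap.trace W.K (W.H Z) (par (W.isInternal Z) ∘ₗ e ∘ₗ y) = 0) ?_ ?_ ?_ ?_ hy
        · rintro _ ⟨n, r, s, hs, v, hv, rfl⟩
          exact hno n r s hs v hv
        · rw [LinearMap.comp_zero, LinearMap.comp_zero, map_zero]
        · intro a b _ _ ha hb
          rw [LinearMap.comp_add, LinearMap.comp_add, map_add, ha, hb, add_zero]
        · intro c a _ ha
          rw [LinearMap.comp_smul, LinearMap.comp_smul, map_smul, ha, smul_zero]
      have h2 := h1 (e ∘ₗ par (W.isInternal Z)) (gidl_mul he hpar)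
      have h3 : par (W.isInternal Z) * par (W.isInternal Z) = 1 := H914.par_mul_par _
      have h4 : LinearMap.trace W.K (W.H Z) (par (W.isInternal Z) ∘ₗ e ∘ₗ e ∘ₗ
          par (W.isInternal Z)) = LinearMap.trace W.K (W.H Z) e := by
        change LinearMap.trace W.K (W.H Z) (par (W.isInternal Z) * (e * (e *
          par (W.isInternal Z)))) = _
        rw [LinearMap.trace_mul_comm, mul_assoc, mul_assoc, h3, mul_one]
        exact congrArg _ hee
      rw [h4, Y133.Half.trace_idem (K := W.K) hee] at h2
      have h5 := Sys.finrank_range_pos h0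
      have h6 : finrank W.K (LinearMap.range e) = 0 := by exact_mod_cast h2
      omega
    obtain ⟨n, r, s, hs, t, ht, hne⟩ := hex
    have h1e : (1 : Module.End W.K (W.H Z)) - (1 - e) = e := sub_sub_cancel _ _
    have hπ : (1 - e) ∈ GOp S Z Z 0 := Submodule.sub_mem _ GOp.id heS
    have hππ : (1 - e) ∘ₗ (1 - e) = 1 - e := by
      change (1 - e) * (1 - e) = 1 - e
      have : e * e = e := hee
      rw [mul_sub, sub_mul, sub_mul, this]
      simp
    obtain ⟨f, hf, hff, hf0, hπf, hfπ, v, hv, hfv⟩ := exists_newg S hπ hππ hs ht (by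
      rw [h1e]; exact hne)
    rw [h1e] at hfv
    have hef : e ∘ₗ f = f := by
      have : (1 - e) * f = 0 := hπf
      rw [sub_mul, one_mul, sub_eq_zero] at this
      exact this.symm
    have hfe : f ∘ₗ e = f := by
      have : f * (1 - e) = 0 := hfπ
      rw [mul_sub, mul_one, sub_eq_zero] at this
      exact this.symm
    have hes : e ∘ₗ s ∈ GOp S (pw X n) Z (-r) := GOp.comp' heS hs (by ring)
    have hlowf : GLow S X Z f := glow_of_fac hS hf hff hes hv hfv.symm
    have hfg : f ∈ gidl S S X Z := by
      rw [hfv, LinearMap.comp_assoc]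
      exact gidl_mul he (GOp.comp' hs hv (by ring))
    have e1 : (e - f) ∘ₗ (e - f) = e - f := by
      change (e - f) * (e - f) = e - f
      have a1 : e * e = e := hee
      have a2 : e * f = f := hef
      have a3 : f * e = f := hfe
      have a4 : f * f = f := hff
      rw [mul_sub, sub_mul, sub_mul, a1, a2, a3, a4]
      simp
    have e2 : f ∘ₗ (e - f) = 0 := by
      change f * (e - f) = 0
      have a3 : f * e = f := hfe
      have a4 : f * f = f := hff
      rw [mul_sub, a3, a4, sub_self]
    have e3 : (e - f) ∘ₗ f = 0 := by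
      change (e - f) * f = 0
      have a2 : e * f = f := hef
      have a4 : f * f = f := hff
      rw [sub_mul, a2, a4, sub_self]
    have h5 := (rank_add_orth (K := W.K) hff e1 e2 e3).2
    rw [add_sub_cancel] at h5
    have h6 := Sys.finrank_range_pos hf0
    have h7 := ih (e - f) (Submodule.sub_mem _ he hfg) e1 (by omega)
    have h8 := glow_add hf (Submodule.sub_mem _ heS hf) hff e1 e2 e3 hlowf h7
    rwa [add_sub_cancel] at h8

end Pool.Agent.H61.MS
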