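import Pool.Agent.H61.MS.Tot

/-!
# The law for the signs on the products with the powers of a variety
-/

open CategoryTheory AlgebraicGeometry

universe u v

namespace Pool.Agent.H61.MS

open Module Filter Topology
open Pool.Agent.H914 Pool.Agent.H914.VarClass Pool.Agent.H914.VarClass.Obj
  Pool.Agent.H914.WeilCohomology Pool.Agent.H281R3.HT Pool.Agent.W552 Pool.Agent.W539.Ker
  Pool.Agent.Y133.Half Pool.Agent.H61.GX Pool.Agent.H61.ZX Pool.Agent.H44T.SL Pool.Agent.Y97

variable {k : Type u} [Field k] {𝒱 : VarClass k} {ops : CycleOps 𝒱}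
  {W : WeilCohomology.{u, v} ops} {X Z : Polarized 𝒱}

lemma gbig_of_good (hX : IsGood W X) (hd : 0 < X.X.dim) : GBig (algSys W) X.X := by
  obtain ⟨f, G⟩ := exists_gp hX.div hX.hard hX.lef
  refine LS.gbig_of_par (algSys W) ((par_gop G.gd).gop (wo_self X.X)) hd (fun _ => le_rfl) hX.div ?_
  have h1 := tr_top (W := W) hX.div
  have h2 : ((LinearMap.mulLeft W.K (W.cl X.X X.D)) ^ X.X.dim) 1 = W.cl X.X X.D ^ X.X.dim := by
    rw [LinearMap.pow_mulLeft, LinearMap.mulLeft_apply, mul_one]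
  rw [h2] at h1
  rw [h1]
  exact Rat.cast_ne_zero.2 hX.deg.ne'

lemma good_div (hX : X.X.IsCyc 1 X.D) (hZ : Z.X.IsCyc 1 Z.D) :
    ∀ r, (times ops Z X r).X.IsCyc 1 (times ops Z X r).D
  | 0 => hZ
  | r + 1 => SmVar.IsCyc.add (ops.pull_mem _ (good_div hX hZ r)) (ops.pull_mem _ hX)

lemma good_deg (hX : IsGood W X) (hZ : IsGood W Z) : ∀ r : ℕ,
    ∃ g, Gp W (times ops Z X r).X (times ops Z X r).D g ∧
      0 < (times ops Z X r).X.V.degCycle (divPow ops (times ops Z X r).D (times ops Z X r).X.dim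
        (times ops Z X r).X.V.fundCycle)
  | 0 => by
    obtain ⟨g, G⟩ := exists_gp hZ.div hZ.hard hZ.lef
    exact ⟨g, G, hZ.deg⟩
  | r + 1 => by
    obtain ⟨g, G, h⟩ := good_deg hX hZ r
    obtain ⟨f, F⟩ := exists_gp hX.div hX.hard hX.lef
    exact ⟨_, G.prod F, deg_prod G.fr F.fr h hX.deg⟩

/-- The asymptotics of the number of classes on the powers of `X`. -/
lemma lim_pow (hX : IsGood W X) (hd : 0 < X.X.dim)
    (hpos : ∀ m n, 2 * n ≤ (times ops X X m).X.dim →
      negNum W (times ops X X m).X (times ops X X m).D n = 0) :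
    Tendsto (fun r => (posTotal W (times ops X X r) : ℝ) / nrmg (algSys W) X.X r) atTop (𝓝 1) := by
  have hS := gbig_of_good hX hd
  obtain ⟨f, G⟩ := exists_gp hX.div hX.hard hX.lef
  rw [← tendsto_add_atTop_iff_nat 1, Metric.tendsto_atTop]
  intro ε hε
  obtain ⟨n₀, hn₀⟩ := asy_pw hS (ε / 2) (by positivity) 1
  refine ⟨n₀, fun n hn => ?_⟩
  obtain ⟨g, Gr⟩ := gp_pw (ops := ops) G n
  have h1 := hn₀ (n + 1) (by omega) ((pw X.X n).dim + rhoM (pw X.X n) X.X) (by
    rw [rhoM, dim_prod, dim_pw]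
    rw [abs_le]
    push_cast
    constructor
    · have : ((n : ℤ) + 1 + 1) * X.X.dim = (n + 1) * X.X.dim + X.X.dim := by ring
      rw [this]
      generalize ((n : ℤ) + 1) * X.X.dim = a
      omega
    · have : ((n : ℤ) + 1 + 1) * X.X.dim = (n + 1) * X.X.dim + X.X.dim := by ring
      rw [this]
      generalize ((n : ℤ) + 1) * X.X.dim = a
      omega)
  beta_reduce at h1
  have h2 : posTotal W (times ops X X (n + 1)) =
      ag (algSys W) (pw X.X (n + 1)) ((pw X.X n).dim + rhoM (pw X.X n) X.X)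
        ((((n + 1 : ℕ) : ℤ) + 1) * X.X.dim - ((pw X.X n).dim + rhoM (pw X.X n) X.X)) := by
    have h3 := total_eq Gr.gd G.gd (rhoM (pw X.X n) X.X)
    obtain ⟨h4, h5⟩ := tot_eq G G.gd n
    rw [← h4, ← h5, rg_one, ag_iso (algSys W) (prodComm X.X (pw X.X n))
      (by simp only [dim_prod]; ring)] at h3
    have h6 : negTotal W (times ops X X (n + 1)) = 0 := by
      rw [negTotal]
      apply Finset.sum_eq_zero
      intro j hj
      rw [Finset.mem_range] at hj
      exact hpos _ _ (by omega)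
    rw [h6, add_zero] at h3
    rw [h3, show (X.X.dim : ℤ) - rhoM (pw X.X n) X.X = (((n + 1 : ℕ) : ℤ) + 1) * X.X.dim -
      ((pw X.X n).dim + rhoM (pw X.X n) X.X) by rw [dim_pw]; push_cast; ring]
    rfl
  rw [← h2, one_mul] at h1
  have h3 := nrmg_pos hS (n + 1)
  rw [Real.dist_eq]
  have h4 : (posTotal W (times ops X X (n + 1)) : ℝ) / nrmg (algSys W) X.X (n + 1) - 1 =
      ((posTotal W (times ops X X (n + 1)) : ℝ) - nrmg (algSys W) X.X (n + 1)) /
        nrmg (algSys W) X.X (n + 1) := by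
    field_simp
  rw [h4, abs_div, abs_of_pos h3, div_lt_iff₀ h3]
  refine lt_of_le_of_lt h1 ?_
  nlinarith

open Polynomial in
/-- **The law for the signs.** -/
theorem mixed (hX : IsGood W X) (hZ : IsGood W Z) (hd : 0 < X.X.dim)
    (hpos : ∀ m n, 2 * n ≤ (times ops X X m).X.dim →
      negNum W (times ops X X m).X (times ops X X m).D n = 0) :
    ∃ x y : ℕ, 1 ≤ x ∧ x + y ≤ finrank W.K (W.H Z.X) ∧
      Tendsto (fun r => (posTotal W (times ops Z X (r + 1)) : ℝ) / nrmg (algSys W) X.X r) atTop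
        (𝓝 x) ∧
      Tendsto (fun r => (negTotal W (times ops Z X (r + 1)) : ℝ) / nrmg (algSys W) X.X r) atTop
        (𝓝 y) ∧
      (y = 0 → ∀ r, negTotal W (times ops Z X (r + 1)) = 0) := by
  have hS := gbig_of_good hX hd
  obtain ⟨f, G⟩ := exists_gp hX.div hX.hard hX.lef
  obtain ⟨h, GZ⟩ := exists_gp hZ.div hZ.hard hZ.lef
  have hpar := (par_gop GZ.gd).gop (wo_self Z.X)
  obtain ⟨π, hπ, hmax, -⟩ := exists_gmax (S := algSys W) (T := algSys W) (Z := Z.X) (X := X.X)
    (fun _ => le_rfl) GGood.zero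
  obtain ⟨p, hp1, hp2, hp3, hp4⟩ := exists_p G hpos GZ.gd hπ.gen hmax
  have H : SAH GZ.gd p := ⟨hp1, hp2⟩
  obtain ⟨t, N, e, M, hpc, hort, hM⟩ := exists_dec H hp3
  have key : ∀ r, ∃ P Q : ℚ[X] → ℕ,
      (∀ q ∈ t, P q + Q q = rg (algSys W) Z.X (e q) (pw X.X r)
          ((pw X.X r).dim + rhoM (pw X.X r) Z.X) (Z.X.dim - rhoM (pw X.X r) Z.X) ∧
        q.natDegree * Q q = nneg q * (P q + Q q)) ∧
      posTotal W (times ops Z X (r + 1)) = ∑ q ∈ t, P q ∧
      negTotal W (times ops Z X (r + 1)) = ∑ q ∈ t, Q q := by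
    intro r
    obtain ⟨g, Gr⟩ := gp_pw (ops := ops) G r
    obtain ⟨P, Q, h1, h2, h3⟩ := count_pieces (GY := Gr.gd) H hpc hort hM
      (ρ := rhoM (pw X.X r) Z.X) (fun s hs => hp4 r g Gr.gd _ s hs)
    obtain ⟨h4, h5⟩ := tot_eq G GZ.gd r
    exact ⟨P, Q, h1, h4.trans h2, h5.trans h3⟩
  choose P Q hPQ hP hQ using key
  set R : ℚ[X] → ℕ := fun q => finrank W.K (LinearMap.range (e q)) with hR
  have hdeg : ∀ q ∈ t, 0 < q.natDegree := fun q hq => (hpc q hq).irr.natDegree_pos
  have hdvd : ∀ q ∈ t, q.natDegree * (R q / q.natDegree) = R q := fun q hq =>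
    Nat.mul_div_cancel' (hpc q hq).dvd
  have hnn : ∀ q ∈ t, nneg q * (R q / q.natDegree) ≤ R q := fun q hq => by
    have h1 := Nat.mul_le_mul_right (R q / q.natDegree) (nneg_le q)
    rwa [hdvd q hq] at h1
  -- the limits of the pieces
  have hlim : ∀ q ∈ t, Tendsto (fun r => (rg (algSys W) Z.X (e q) (pw X.X r)
      ((pw X.X r).dim + rhoM (pw X.X r) Z.X) (Z.X.dim - rhoM (pw X.X r) Z.X) : ℝ) /
        nrmg (algSys W) X.X r) atTop (𝓝 (R q)) := fun q hq =>
    lim_rg hS ((hpc q hq).sah.ah.gop (wo_self Z.X)) (hpc q hq).idem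
      (glow_of_gidl hS hpar _ (e q) (hpc q hq).gen (hpc q hq).idem le_rfl)
  have hQlim : ∀ q ∈ t, Tendsto (fun r => (Q r q : ℝ) / nrmg (algSys W) X.X r) atTop
      (𝓝 ((nneg q * (R q / q.natDegree) : ℕ) : ℝ)) := by
    intro q hq
    have h0 : (0 : ℝ) < q.natDegree := by exact_mod_cast hdeg q hq
    have h1 := (hlim q hq).const_mul ((nneg q : ℝ) / q.natDegree)
    have h2 : (nneg q : ℝ) / q.natDegree * R q = ((nneg q * (R q / q.natDegree) : ℕ) : ℝ) := by
      have h3 : (q.natDegree : ℝ) * ((R q / q.natDegree : ℕ) : ℝ) = R q := by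
        exact_mod_cast hdvd q hq
      rw [← h3]
      push_cast
      field_simp
    rw [h2] at h1
    refine h1.congr fun r => ?_
    have h4 : (q.natDegree : ℝ) * Q r q = nneg q * (rg (algSys W) Z.X (e q) (pw X.X r)
      ((pw X.X r).dim + rhoM (pw X.X r) Z.X) (Z.X.dim - rhoM (pw X.X r) Z.X) : ℝ) := by
      have h5 := (hPQ r q hq).2
      rw [(hPQ r q hq).1] at h5
      exact_mod_cast h5
    rw [← mul_div_assoc]
    congr 1
    rw [div_mul_eq_mul_div, ← h4]
    field_simp
  have hPlim : ∀ q ∈ t, Tendsto (fun r => (P r q : ℝ) / nrmg (algSys W) X.X r) atTop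
      (𝓝 ((R q - nneg q * (R q / q.natDegree) : ℕ) : ℝ)) := by
    intro q hq
    have h1 := (hlim q hq).sub (hQlim q hq)
    rw [← Nat.cast_sub (hnn q hq)] at h1
    refine h1.congr fun r => ?_
    rw [← (hPQ r q hq).1, ← sub_div]
    push_cast
    ring_nf
  have hsum : ∑ q ∈ t, R q ≤ finrank W.K (W.H Z.X) := by
    have h1 := (sum_rank (K := W.K) t e (fun q hq => (hpc q hq).idem) hort).2
    rw [← h1]
    exact Submodule.finrank_le _
  have hrg0 : ∀ q ∈ t, R q = 0 → ∀ r, P r q = 0 ∧ Q r q = 0 := by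
    intro q hq h0 r
    have h1 : e q = 0 := by
      by_contra hne
      have := Sys.finrank_range_pos hne
      have h2 : finrank W.K (LinearMap.range (e q)) = 0 := h0
      omega
    have h2 := (hPQ r q hq).1
    have h3 : rg (algSys W) Z.X (e q) (pw X.X r)
      ((pw X.X r).dim + rhoM (pw X.X r) Z.X) (Z.X.dim - rhoM (pw X.X r) Z.X) = 0 := by
      have h4 := rg_le (algSys W) (Z := pw X.X r) (e q) (hpc q hq).idem
        ((pw X.X r).dim + rhoM (pw X.X r) Z.X) (Z.X.dim - rhoM (pw X.X r) Z.X)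
      have h5 : finrank W.K (LinearMap.range (e q)) = 0 := h0
      rw [h5, zero_mul] at h4
      exact Nat.le_zero.1 h4
    omega
  refine ⟨∑ q ∈ t, (R q - nneg q * (R q / q.natDegree)), ∑ q ∈ t, nneg q * (R q / q.natDegree),
    ?_, ?_, ?_, ?_, ?_⟩
  · by_contra hx
    rw [not_le, Nat.lt_one_iff, Finset.sum_eq_zero_iff] at hx
    have h1 : ∀ r, posTotal W (times ops Z X (r + 1)) = 0 := by
      intro r
      rw [hP]
      apply Finset.sum_eq_zero
      intro q hq
      have h2 := hx q hq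
      by_cases h0 : R q = 0
      · exact (hrg0 q hq h0 r).1
      · have h3 : R q / q.natDegree ≠ 0 := by
          intro h4
          have h5 := hdvd q hq
          rw [h4, mul_zero] at h5
          exact h0 h5.symm
        have h4 : q.natDegree * (R q / q.natDegree) ≤ nneg q * (R q / q.natDegree) := by
          rw [hdvd q hq]; omega
        have h5 : q.natDegree ≤ nneg q := Nat.le_of_mul_le_mul_right h4 (Nat.pos_of_ne_zero h3)
        have h6 := (hPQ r q hq).2
        have h7 : nneg q = q.natDegree := le_antisymm (nneg_le q) h5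
        rw [h7] at h6
        have h8 := Nat.eq_of_mul_eq_mul_left (hdeg q hq) h6
        omega
    obtain ⟨g, Gz, hdz⟩ := good_deg hX hZ 1
    have h2 := one_le_posNum (W := W) Gz.fr.hD hdz
    have h3 := h1 0
    rw [posTotal, Finset.sum_eq_zero_iff] at h3
    have h4 := h3 0 (by simp)
    rw [zero_add] at h4
    omega
  · rw [← Finset.sum_add_distrib]
    refine le_trans (le_of_eq ?_) hsum
    apply Finset.sum_congr rfl
    intro q hq
    exact Nat.sub_add_cancel (hnn q hq)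
  · have h1 := tendsto_finsetSum t hPlim
    rw [← Nat.cast_sum] at h1
    refine h1.congr fun r => ?_
    rw [hP, Nat.cast_sum, Finset.sum_div]
  · have h1 := tendsto_finsetSum t hQlim
    rw [← Nat.cast_sum] at h1
    refine h1.congr fun r => ?_
    rw [hQ, Nat.cast_sum, Finset.sum_div]
  · intro hy r
    rw [Finset.sum_eq_zero_iff] at hy
    rw [hQ]
    apply Finset.sum_eq_zero
    intro q hq
    rcases Nat.mul_eq_zero.1 (hy q hq) with h1 | h1
    · have h2 := (hPQ r q hq).2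
      rw [h1, zero_mul] at h2
      rcases Nat.mul_eq_zero.1 h2 with h3 | h3
      · have := hdeg q hq
        omega
      · exact h3
    · have h5 := hdvd q hq
      rw [h1, mul_zero] at h5
      exact (hrg0 q hq h5.symm r).2

end Pool.Agent.H61.MS
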