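import Pool.Agent.H61.MS.Main

/-!
# The classes of `Z` itself
-/

open CategoryTheory AlgebraicGeometry

universe u v

namespace Pool.Agent.H61.MS

open Module Filter Topology
open Pool.Agent.H914 Pool.Agent.H914.VarClass Pool.Agent.H914.VarClass.Obj
  Pool.Agent.H914.WeilCohomology Pool.Agent.H281R3.HT Pool.Agent.W552 Pool.Agent.W539.Ker
  Pool.Agent.Y133.Half Pool.Agent.H61.GX Pool.Agent.H61.ZX Pool.Agent.H44T.SL Pool.Agent.Y97

variable {k : Type u} [Field k] {𝒱 : VarClass k} {ops : CycleOps 𝒱}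
  {W : WeilCohomology.{u, v} ops} {A Y Z : 𝒱.Obj} {D : Y.Cycles} {g : Module.End W.K (W.H Y)}
  {B : Z.Cycles} {h : Module.End W.K (W.H Z)}

attribute [local instance] ratM

/-- The operator `x ↦ ⟨x, a⟩ b`. -/
noncomputable def r1 (D : Y.Cycles) (g : Module.End W.K (W.H Y)) (a : W.H Y) (b : W.H Z) :
    W.H Y →ₗ[W.K] W.H Z := ((bf W Y D g).flip a).smulRight b

lemma r1_apply (a : W.H Y) (b : W.H Z) (x : W.H Y) : r1 D g a b x = bf W Y D g x a • b := rfl

lemma AH.r1 (GY : Gd W Y D g) {a : W.H Y} {b : W.H Z} (ha : AS W Y a) (hb : AS W Z b) {m m' : ℤ}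
    (hwa : wt (W.isInternal Y) Y.dim a = (m : W.K) • a)
    (hwb : wt (W.isInternal Z) Z.dim b = (m' : W.K) • b) : AH W Y Z (m' - m) (MS.r1 D g a b) := by
  refine ⟨⟨W.map (fst Y Z) (st W Y D g a) * W.map (snd Y Z) b,
    ((GY.fr.st_AS ha).map _).mul (hb.map _), ?_⟩, ?_⟩
  · apply LinearMap.ext
    intro x
    rw [corr_apply, mul_assoc, (hb.map (snd Y Z)).comm, ← mul_assoc, ← map_mul, push_snd,
      r1_apply, bf_apply, (GY.fr.st_AS ha).comm]
  · apply LinearMap.ext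
    intro x
    rw [LinearMap.comp_apply, LinearMap.add_apply, LinearMap.comp_apply, LinearMap.smul_apply,
      r1_apply, r1_apply, map_smul, hwb, GY.wt_self, hwa, map_smul, smul_eq_mul, smul_smul,
      smul_smul, ← add_smul]
    congr 1
    push_cast
    ring

lemma sadj_r1 (GY : Gd W Y D g) (GZ : Gd W Z B h) {a : W.H Y} {b : W.H Z} (hb : AS W Z b) :
    sadj GY GZ (r1 D g a b) = r1 B h b a := by
  refine (eq_sadj GY GZ ?_).symm
  intro x y
  rw [r1_apply, r1_apply, map_smul, LinearMap.smul_apply, map_smul, smul_eq_mul, smul_eq_mul,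
    bf_symm GZ.sy hb, mul_comm]

/-- The data of an orthogonal family of algebraic classes. -/
structure OFam (W : WeilCohomology.{u, v} ops) (Z : 𝒱.Obj) (B : Z.Cycles)
    (h : Module.End W.K (W.H Z)) {ι : Type*} (b : ι → W.H Z) (m : ι → ℤ) (c : ι → ℚ) : Prop where
  as : ∀ i, AS W Z (b i)
  wg : ∀ i, wt (W.isInternal Z) Z.dim (b i) = (m i : W.K) • b i
  sq : ∀ i, bf W Z B h (b i) (b i) = (c i : W.K)
  ne : ∀ i, c i ≠ 0
  orth : ∀ i j, i ≠ j → bf W Z B h (b i) (b j) = 0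

section Proj

variable {ι : Type*} [Fintype ι] {b : ι → W.H Z} {m : ι → ℤ} {c : ι → ℚ}

/-- The projector onto the span of an orthogonal family. -/
noncomputable def oproj (B : Z.Cycles) (h : Module.End W.K (W.H Z)) (b : ι → W.H Z) (c : ι → ℚ) :
    Module.End W.K (W.H Z) := ∑ i, (((c i)⁻¹ : ℚ) : W.K) • r1 B h (b i) (b i)

lemma OFam.sah (GZ : Gd W Z B h) (H : OFam W Z B h b m c) : SAH GZ (oproj B h b c) := by
  refine ⟨?_, ?_⟩
  · apply AH.sum
    intro i _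
    exact ((AH.r1 GZ (H.as i) (H.as i) (H.wg i) (H.wg i)).cast (sub_self _)).smul _
  · rw [oproj, map_sum]
    apply Finset.sum_congr rfl
    intro i _
    rw [map_smul, sadj_r1 GZ GZ (H.as i)]

lemma OFam.idem (H : OFam W Z B h b m c) : oproj B h b c ∘ₗ oproj B h b c = oproj B h b c := by
  classical
  have h1 : ∀ j, oproj B h b c (b j) = b j := by
    intro j
    rw [oproj, LinearMap.sum_apply, Finset.sum_eq_single j]
    · rw [LinearMap.smul_apply, r1_apply, H.sq, smul_smul, ← Rat.cast_mul,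
        inv_mul_cancel₀ (H.ne j), Rat.cast_one, one_smul]
    · intro i _ hij
      rw [LinearMap.smul_apply, r1_apply, H.orth j i (Ne.symm hij), zero_smul, smul_zero]
    · intro h0; exact absurd (Finset.mem_univ _) h0
  apply LinearMap.ext
  intro x
  rw [LinearMap.comp_apply]
  have h2 : oproj B h b c x = ∑ i, (((c i)⁻¹ : ℚ) : W.K) • bf W Z B h x (b i) • b i := by
    rw [oproj, LinearMap.sum_apply]
    rfl
  rw [h2, map_sum]
  apply Finset.sum_congr rfl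
  intro i _
  rw [map_smul, map_smul, h1]

lemma OFam.rank (H : OFam W Z B h b m c) :
    finrank W.K (LinearMap.range (oproj B h b c)) = Fintype.card ι := by
  have h1 := Y133.Half.trace_idem (K := W.K) H.idem
  have h2 : LinearMap.trace W.K (W.H Z) (oproj B h b c) = (Fintype.card ι : W.K) := by
    rw [oproj, map_sum]
    have h3 : ∀ i, LinearMap.trace W.K (W.H Z) ((((c i)⁻¹ : ℚ) : W.K) • r1 B h (b i) (b i)) =
        1 := by
      intro i
      rw [map_smul, r1, LinearMap.trace_smulRight, LinearMap.flip_apply, H.sq, smul_eq_mul,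
        ← Rat.cast_mul, inv_mul_cancel₀ (H.ne i), Rat.cast_one]
    rw [Finset.sum_congr rfl fun i _ => h3 i]
    simp
  rw [h2] at h1
  exact_mod_cast h1.symm

lemma OFam.gen (GZ : Gd W Z B h) (H : OFam W Z B h b m c) {X : 𝒱.Obj} {D : X.Cycles}
    {f : Module.End W.K (W.H X)} (G : Gd W X D f) {a : ℚ} (ha : a ≠ 0)
    (h1 : bf W X D f 1 1 = (a : W.K)) :
    oproj B h b c ∈ gidl (algSys W) (algSys W) X Z := by
  apply Submodule.sum_mem
  intro i _
  apply Submodule.smul_mem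
  have hw1 : wt (W.isInternal X) X.dim (1 : W.H X) = ((-X.dim : ℤ) : W.K) • (1 : W.H X) := by
    have h2 : (1 : W.H X) ∈ W.gr X 0 := W.one_mem X
    rw [Fr.wt_gr h2]
    congr 1
    push_cast
    ring
  have hs := AH.r1 G AS.one (H.as i) hw1 (H.wg i)
  have hv := AH.r1 GZ (H.as i) AS.one (H.wg i) hw1
  have hb0 : b i ≠ 0 := by
    intro h0
    have h2 := H.sq i
    rw [h0, map_zero] at h2
    exact H.ne i (by exact_mod_cast h2.symm)
  rcases AS_wt (H.as i) (H.wg i) with h0 | ⟨j, hj, -⟩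
  · exact absurd h0 hb0
  have e1 : r1 B h (b i) (b i) = ((a⁻¹ : ℚ) : W.K) • (r1 D f 1 (b i) ∘ₗ r1 B h (b i) 1) := by
    apply LinearMap.ext
    intro x
    rw [LinearMap.smul_apply, LinearMap.comp_apply, r1_apply, r1_apply, r1_apply, map_smul,
      LinearMap.smul_apply, h1, smul_eq_mul, smul_smul]
    congr 1
    have : (a : W.K) ≠ 0 := by exact_mod_cast ha
    push_cast
    field_simp
  rw [e1]
  apply Submodule.smul_mem
  refine Submodule.subset_span ⟨0, -j, r1 D f 1 (b i), ?_, r1 B h (b i) 1, ?_, rfl⟩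
  · refine AH.gop ?_ hs
    change _ = 2 * (- -(j : ℤ)) + (X.dim : ℤ) - Z.dim
    linarith
  · refine AH.gop ?_ hv
    change _ = 2 * (-(j : ℤ)) + (Z.dim : ℤ) - X.dim
    linarith

/-- The trace form cut out by the projector. -/
lemma oproj_trace (GY : Gd W Y D g) (GZ : Gd W Z B h) (u : W.H Y →ₗ[W.K] W.H Z) :
    LinearMap.trace W.K (W.H Y) (sadj GY GZ u ∘ₗ oproj B h b c ∘ₗ u) =
      ∑ i, (((c i)⁻¹ : ℚ) : W.K) * bf W Y D g (sadj GY GZ u (b i)) (sadj GY GZ u (b i)) := by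
  rw [oproj, sum_comp', comp_sum', map_sum]
  apply Finset.sum_congr rfl
  intro i _
  have e1 : sadj GY GZ u ∘ₗ ((((c i)⁻¹ : ℚ) : W.K) • r1 B h (b i) (b i)) ∘ₗ u =
      (((c i)⁻¹ : ℚ) : W.K) • r1 D g (sadj GY GZ u (b i)) (sadj GY GZ u (b i)) := by
    apply LinearMap.ext
    intro x
    rw [LinearMap.comp_apply, LinearMap.comp_apply, LinearMap.smul_apply, LinearMap.smul_apply,
      r1_apply, r1_apply, map_smul, map_smul, bf_sadj]
  rw [e1, map_smul, smul_eq_mul, r1, LinearMap.trace_smulRight, LinearMap.flip_apply]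

lemma OFam.form (GY : Gd W Y D g) (GZ : Gd W Z B h)
    (hneg : ∀ n, 2 * n ≤ Y.dim → negNum W Y D n = 0) (H : OFam W Z B h b m c)
    {m' : ℤ} {u : W.H Y →ₗ[W.K] W.H Z} (hu : AH W Y Z m' u) (heu : oproj B h b c ∘ₗ u = u) :
    ∃ q : ι → ℚ, (∀ i, 0 ≤ q i) ∧ LinearMap.trace W.K (W.H Y) (sadj GY GZ u ∘ₗ u) =
      ((∑ i, (c i)⁻¹ * q i : ℚ) : W.K) := by
  have hs : AH W Z Y (-m') (MS.sadj GY GZ u) := hu.sadj
  have hv : ∀ i, sadj GY GZ u (b i) ∈ AWs W Y (-m' + m i) 1 := by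
    intro i
    refine ⟨hs.1.apply (H.as i), ?_, rfl⟩
    rw [hs.2.apply, H.wg i, map_smul, ← add_smul]
    congr 1
    push_cast
    ring
  refine ⟨fun i => BA GY.fr (-m' + m i) 1 ⟨_, hv i⟩ ⟨_, hv i⟩, fun i =>
    (BA_nonneg GY.fr GY.sy hneg _ _).1, ?_⟩
  have h1 := oproj_trace (b := b) (c := c) GY GZ u
  rw [heu] at h1
  rw [h1, Rat.cast_sum]
  apply Finset.sum_congr rfl
  intro i _
  rw [Rat.cast_mul, BA_cast]

/-- The positive classes of `Z` give positive classes on `Y × Z`. -/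
theorem own_pos (GY : Gd W Y D g) (GZ : Gd W Z B h)
    (hneg : ∀ n, 2 * n ≤ Y.dim → negNum W Y D n = 0) (H : OFam W Z B h b m c)
    (hc : ∀ i, 0 < c i) (ρ : ℤ) :
    rg (algSys W) Z (oproj B h b c) Y (Y.dim + ρ) (Z.dim - ρ) ≤
      wsumN (Y.prod Z).dim (posNum W (Y.prod Z)
        (ops.pull (fst Y Z) D + ops.pull (snd Y Z) B)) (wo Y Z ρ) := by
  classical
  have hS : Sy W (Y.prod Z) (ops.pull (fst Y Z) D + ops.pull (snd Y Z) B) (extSum W g h) :=
    Sy.prod GY.fr GZ.fr GY.sy GZ.sy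
  obtain ⟨n, x, hx⟩ := exists_om (GY.fr.prod GZ.fr) hS (wo Y Z ρ)
    (extOp W 1 (oproj B h b c))
  obtain ⟨κ, hκ, z, hz, hz1, -⟩ := exists_om2 (GY.fr.prod GZ.fr) (wo Y Z ρ)
  rw [← card_eq_rg GY GZ (H.sah GZ) H.idem hx, Fintype.card_fin, ← hz1]
  let y : Fin n → AWs W (Y.prod Z) (wo Y Z ρ) 1 := fun i =>
    ⟨(x i : W.H (Y.prod Z)), (x i).2.1, (x i).2.2.1, rfl⟩
  have hy : ∀ i j, BA (GY.fr.prod GZ.fr) (wo Y Z ρ) 1 (y i) (y j) =
      BA (GY.fr.prod GZ.fr) (wo Y Z ρ) (extOp W 1 (oproj B h b c)) (x i) (x j) := by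
    intro i j
    have : ((BA (GY.fr.prod GZ.fr) (wo Y Z ρ) 1 (y i) (y j) : ℚ) : W.K) =
        ((BA (GY.fr.prod GZ.fr) (wo Y Z ρ) (extOp W 1 (oproj B h b c)) (x i) (x j) : ℚ) :
          W.K) := by
      rw [BA_cast, BA_cast]
    exact_mod_cast this
  refine hz.sylvester (BA_symm _ hS) (z := y) (fun i => ?_) (fun i j hij => ?_)
  · rw [hy]
    refine lt_of_le_of_ne ?_ (Ne.symm (hx.ne i))
    obtain ⟨q, hq, hq1⟩ := H.form GY GZ hneg (AH.of_cls (x i).2.1 (x i).2.2.1)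
      (corr_fix (H.sah GZ).ah.ev (x i))
    rw [tr_sadj_BA' GY GZ] at hq1
    have h2 : BA (GY.fr.prod GZ.fr) (wo Y Z ρ) (extOp W 1 (oproj B h b c)) (x i) (x i) =
      ∑ i, (c i)⁻¹ * q i := by exact_mod_cast hq1
    rw [h2]
    exact Finset.sum_nonneg fun j _ => mul_nonneg (inv_nonneg.2 (hc j).le) (hq j)
  · rw [hy]; exact hx.orth i j hij

/-- The negative classes of `Z` give negative classes on `Y × Z`. -/
theorem own_neg (GY : Gd W Y D g) (GZ : Gd W Z B h)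
    (hneg : ∀ n, 2 * n ≤ Y.dim → negNum W Y D n = 0) (H : OFam W Z B h b m c)
    (hc : ∀ i, c i < 0) (ρ : ℤ) :
    rg (algSys W) Z (oproj B h b c) Y (Y.dim + ρ) (Z.dim - ρ) ≤
      wsumN (Y.prod Z).dim (negNum W (Y.prod Z)
        (ops.pull (fst Y Z) D + ops.pull (snd Y Z) B)) (wo Y Z ρ) := by
  classical
  have hS : Sy W (Y.prod Z) (ops.pull (fst Y Z) D + ops.pull (snd Y Z) B) (extSum W g h) :=
    Sy.prod GY.fr GZ.fr GY.sy GZ.sy
  obtain ⟨n, x, hx⟩ := exists_om (GY.fr.prod GZ.fr) hS (wo Y Z ρ)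
    (extOp W 1 (oproj B h b c))
  obtain ⟨κ, hκ, z, hz, -, hz1⟩ := exists_om2 (GY.fr.prod GZ.fr) (wo Y Z ρ)
  rw [← card_eq_rg GY GZ (H.sah GZ) H.idem hx, Fintype.card_fin, ← hz1]
  let y : Fin n → AWs W (Y.prod Z) (wo Y Z ρ) 1 := fun i =>
    ⟨(x i : W.H (Y.prod Z)), (x i).2.1, (x i).2.2.1, rfl⟩
  have hy : ∀ i j, BA (GY.fr.prod GZ.fr) (wo Y Z ρ) 1 (y i) (y j) =
      BA (GY.fr.prod GZ.fr) (wo Y Z ρ) (extOp W 1 (oproj B h b c)) (x i) (x j) := by
    intro i j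
    have : ((BA (GY.fr.prod GZ.fr) (wo Y Z ρ) 1 (y i) (y j) : ℚ) : W.K) =
        ((BA (GY.fr.prod GZ.fr) (wo Y Z ρ) (extOp W 1 (oproj B h b c)) (x i) (x j) : ℚ) :
          W.K) := by
      rw [BA_cast, BA_cast]
    exact_mod_cast this
  have hB := BA_symm (GY.fr.prod GZ.fr) hS (m := wo Y Z ρ) (g := 1)
  have key := hz.neg.sylvester (B := -BA (GY.fr.prod GZ.fr) (wo Y Z ρ) 1) (fun v w => by
    rw [LinearMap.neg_apply, LinearMap.neg_apply, LinearMap.neg_apply, LinearMap.neg_apply, hB])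
    (z := y) (fun i => ?_) (fun i j hij => ?_)
  · refine key.trans (le_of_eq ?_)
    congr 1
    apply Finset.filter_congr
    intro i _
    rw [LinearMap.neg_apply, LinearMap.neg_apply, neg_pos]
  · rw [LinearMap.neg_apply, LinearMap.neg_apply, neg_pos, hy]
    refine lt_of_le_of_ne ?_ (hx.ne i)
    obtain ⟨q, hq, hq1⟩ := H.form GY GZ hneg (AH.of_cls (x i).2.1 (x i).2.2.1)
      (corr_fix (H.sah GZ).ah.ev (x i))
    rw [tr_sadj_BA' GY GZ] at hq1
    have h2 : BA (GY.fr.prod GZ.fr) (wo Y Z ρ) (extOp W 1 (oproj B h b c)) (x i) (x i) =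
      ∑ i, (c i)⁻¹ * q i := by exact_mod_cast hq1
    rw [h2]
    exact Finset.sum_nonpos fun j _ => mul_nonpos_of_nonpos_of_nonneg (inv_nonpos.2 (hc j).le) (hq j)
  · rw [LinearMap.neg_apply, LinearMap.neg_apply, hy, hx.orth i j hij, neg_zero]

end Proj

end Pool.Agent.H61.MS
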