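import Pool.Agent.H61.MS.Real
import Pool.Graph.R_pool_sql_team_seeded_63374d34.N181.Mod.LinA

/-!
# Characteristic polynomials which are powers of an irreducible polynomial
-/

set_option autoImplicit false

namespace Pool.Agent.H61.MS

open Matrix Finset Module Polynomial

section Assoc

/-- A rational polynomial whose roots are roots of an irreducible polynomial. -/
lemma assoc_pow {Ω : Type*} [Field Ω] [CharZero Ω] [IsAlgClosed Ω] {q : ℚ[X]}
    (hq : Irreducible q) : ∀ χ : ℚ[X], χ ≠ 0 →
    (∀ α : Ω, aeval α χ = 0 → aeval α q = 0) → ∃ s : ℕ, Associated χ (q ^ s) := by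
  intro χ
  induction χ using UniqueFactorizationMonoid.induction_on_prime with
  | h₁ => intro h; exact absurd rfl h
  | h₂ u hu =>
    intro _ _
    exact ⟨0, by rw [pow_zero]; exact associated_one_iff_isUnit.2 hu⟩
  | h₃ a g ha hg ih =>
    intro _ h
    obtain ⟨s, hs⟩ := ih ha (fun α hα => h α (by rw [map_mul, hα, mul_zero]))
    have hirr : Irreducible g := hg.irreducible
    obtain ⟨α, hα⟩ := IsAlgClosed.exists_aeval_eq_zero Ω g (by
      rw [Polynomial.degree_eq_natDegree hirr.ne_zero]
      exact_mod_cast hirr.natDegree_pos.ne')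
    have hα' := h α (by rw [map_mul, hα, zero_mul])
    have h1 : Associated g q := by
      have h2 := minpoly.dvd ℚ α hα
      have h3 := minpoly.dvd ℚ α hα'
      have hint : IsIntegral ℚ α := ⟨g * C g.leadingCoeff⁻¹,
        Polynomial.monic_mul_leadingCoeff_inv hirr.ne_zero, by
          have : aeval α (g * C g.leadingCoeff⁻¹) = 0 := by rw [map_mul, hα, zero_mul]
          exact this⟩
      have h4 : ¬ IsUnit (minpoly ℚ α) := minpoly.not_isUnit ℚ α
      have h5 : Associated (minpoly ℚ α) g := (hirr.dvd_iff.1 h2).resolve_left h4 |>.symm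
      have h6 : Associated (minpoly ℚ α) q := (hq.dvd_iff.1 h3).resolve_left h4 |>.symm
      exact h5.symm.trans h6
    exact ⟨s + 1, by rw [pow_succ']; exact h1.mul_mul hs⟩

end Assoc

section Char

variable {K : Type*} [Field K] [CharZero K] {V : Type*} [AddCommGroup V] [Module K V]
  [FiniteDimensional K V]

/-- A rational characteristic polynomial of an operator which is killed by a power of an
irreducible polynomial. -/
lemma charpoly_eq_pow {ψ : Module.End K V} {q : ℚ[X]} (hq : Irreducible q) (hm : q.Monic) {N : ℕ}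
    (h : aeval ψ ((q ^ N).map (algebraMap ℚ K)) = 0) {χ : ℚ[X]}
    (hχ : χ.map (algebraMap ℚ K) = ψ.charpoly) :
    ∃ s : ℕ, χ = q ^ s ∧ finrank K V = s * q.natDegree := by
  have hχm : χ.Monic := by
    rw [← Polynomial.monic_map_iff (f := algebraMap ℚ K), hχ]
    exact ψ.charpoly_monic
  let Ω := AlgebraicClosure K
  obtain ⟨s, hs⟩ := assoc_pow (Ω := Ω) hq χ hχm.ne_zero (by
    intro α hα
    have h1 : (ψ.baseChange Ω).charpoly = χ.map (algebraMap ℚ Ω) := by
      rw [LinearMap.charpoly_baseChange, ← hχ, Polynomial.map_map]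
      rw [RingHom.ext_rat ((algebraMap K Ω).comp (algebraMap ℚ K)) (algebraMap ℚ Ω)]
    have h2 : (ψ.baseChange Ω).charpoly.IsRoot α := by
      rw [h1, IsRoot.def, eval_map_algebraMap, hα]
    have h3 := (Module.End.hasEigenvalue_iff_isRoot_charpoly _ _).2 h2
    obtain ⟨v, hv⟩ := h3.exists_hasEigenvector
    have h4 : aeval (ψ.baseChange Ω) (((q ^ N).map (algebraMap ℚ K)).map (algebraMap K Ω)) = 0 := by
      have h5 : aeval (ψ.baseChange Ω) (((q ^ N).map (algebraMap ℚ K)).map (algebraMap K Ω)) =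
          (aeval ψ ((q ^ N).map (algebraMap ℚ K))).baseChange Ω := by
        rw [aeval_map_algebraMap]
        exact aeval_algHom_apply (Module.End.baseChangeHom K Ω V) ψ _
      rw [h5, h]
      exact LinearMap.baseChange_zero
    have h6 := Module.End.aeval_apply_of_hasEigenvector hv
      (p := ((q ^ N).map (algebraMap ℚ K)).map (algebraMap K Ω))
    rw [h4, LinearMap.zero_apply] at h6
    have h7 := (smul_eq_zero.1 h6.symm).resolve_right hv.2
    rw [Polynomial.map_map, RingHom.ext_rat ((algebraMap K Ω).comp (algebraMap ℚ K))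
      (algebraMap ℚ Ω), eval_map_algebraMap, map_pow] at h7
    exact eq_zero_of_pow_eq_zero h7)
  have h1 : χ = q ^ s := Polynomial.eq_of_monic_of_associated hχm (hm.pow s) hs
  refine ⟨s, h1, ?_⟩
  have h2 := congrArg Polynomial.natDegree hχ
  rw [Polynomial.natDegree_map, LinearMap.charpoly_natDegree, h1, hm.natDegree_pow] at h2
  rw [← h2]

/-- If the traces of the powers are rational, the degree of `q` divides the dimension. -/
theorem deg_dvd {ψ : Module.End K V} {q : ℚ[X]} (hq : Irreducible q) (hm : q.Monic) {N : ℕ}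
    (h : aeval ψ ((q ^ N).map (algebraMap ℚ K)) = 0)
    (htr : ∀ n : ℕ, ∃ r : ℚ, LinearMap.trace K V (ψ ^ n) = (r : K)) :
    q.natDegree ∣ finrank K V := by
  let Ω := AlgebraicClosure K
  have hbc : ∀ n : ℕ, (ψ.baseChange Ω) ^ n = (ψ ^ n).baseChange Ω := by
    intro n
    exact (map_pow (Module.End.baseChangeHom K Ω V) ψ n).symm
  obtain ⟨χ, hχ0, hχ⟩ := N181.Mod.charpoly_rational (ψ.baseChange Ω) (by
    intro n
    obtain ⟨r, hr⟩ := htr n
    refine ⟨r, ?_⟩
    rw [hbc, LinearMap.trace_baseChange, hr, map_ratCast])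
  have hχ' : χ.map (algebraMap ℚ K) = ψ.charpoly := by
    apply Polynomial.map_injective (algebraMap K Ω) (algebraMap K Ω).injective
    rw [← LinearMap.charpoly_baseChange, ← hχ, Polynomial.map_map,
      RingHom.ext_rat ((algebraMap K Ω).comp (algebraMap ℚ K)) (algebraMap ℚ Ω)]
  obtain ⟨s, -, hs⟩ := charpoly_eq_pow hq hm h hχ'
  exact ⟨s, by rw [hs, mul_comm]⟩

end Char

section Index

/-- The number of the negative real roots. -/
noncomputable def nneg (q : ℚ[X]) : ℕ :=
  Multiset.card ((q.map (algebraMap ℚ ℝ)).roots.filter (· < 0))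

lemma nneg_le (q : ℚ[X]) : nneg q ≤ q.natDegree := by
  refine (Multiset.card_le_card (Multiset.filter_le _ _)).trans ?_
  refine (Polynomial.card_roots' _).trans ?_
  exact Polynomial.natDegree_map_le

lemma nneg_pow (q : ℚ[X]) (s : ℕ) : nneg (q ^ s) = s * nneg q := by
  rw [nneg, nneg, Polynomial.map_pow, Polynomial.roots_pow, Multiset.filter_nsmul,
    Multiset.card_nsmul]

variable {ι : Type*} [Fintype ι] [DecidableEq ι]

/-- A positive definite rational form is positive definite over the real numbers. -/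
lemma posDef_map {S : Matrix ι ι ℚ} (hS : S.IsSymm) (hpos : ∀ c : ι → ℚ, c ≠ 0 →
    0 < c ⬝ᵥ (S *ᵥ c)) : (S.map (algebraMap ℚ ℝ)).PosDef := by
  have hsemi : (S.map (algebraMap ℚ ℝ)).PosSemidef := by
    refine Matrix.PosSemidef.of_dotProduct_mulVec_nonneg ?_ ?_
    · rw [Matrix.IsHermitian, conjTranspose_eq_transpose_of_trivial, ← Matrix.transpose_map, hS.eq]
    · intro x
      rw [star_trivial]
      have hcl : IsClosed {x : ι → ℝ | 0 ≤ x ⬝ᵥ ((S.map (algebraMap ℚ ℝ)) *ᵥ x)} := by
        apply isClosed_le continuous_const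
        fun_prop
      have hd : Dense (Set.range fun c : ι → ℚ => fun i => ((c i : ℚ) : ℝ)) :=
        DenseRange.piMap fun _ => Rat.denseRange_cast
      have hsub : (Set.range fun c : ι → ℚ => fun i => ((c i : ℚ) : ℝ)) ⊆
          {x : ι → ℝ | 0 ≤ x ⬝ᵥ ((S.map (algebraMap ℚ ℝ)) *ᵥ x)} := by
        rintro _ ⟨c, rfl⟩
        have h1 : ((c ⬝ᵥ (S *ᵥ c) : ℚ) : ℝ) = (fun i => ((c i : ℚ) : ℝ)) ⬝ᵥ
            ((S.map (algebraMap ℚ ℝ)) *ᵥ fun i => ((c i : ℚ) : ℝ)) := by
          simp only [dotProduct, mulVec, Matrix.map_apply, eq_ratCast]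
          push_cast
          rfl
        rw [Set.mem_ofPred_eq, ← h1]
        by_cases hc : c = 0
        · rw [hc]; simp
        · exact_mod_cast (hpos c hc).le
      have h2 := hcl.closure_subset_iff.2 hsub
      rw [hd.closure_eq] at h2
      exact h2 (Set.mem_univ x)
  rw [hsemi.posDef_iff_det_ne_zero]
  have h1 : S.det ≠ 0 := by
    intro h0
    obtain ⟨v, hv, hv'⟩ := Matrix.exists_mulVec_eq_zero_iff.2 h0
    have := hpos v hv
    rw [hv', dotProduct_zero] at this
    exact lt_irrefl _ this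
  rw [← RingHom.mapMatrix_apply, ← RingHom.map_det]
  simpa using h1

/-- **The index of a form**, by the negative roots. -/
theorem index_eq {β : ι → ℚ} (hβ : ∀ i, β i ≠ 0) {M : Matrix ι ι ℚ}
    (hsymm : ∀ a b, β a * M a b = β b * M b a)
    (hpos : ∀ c : ι → ℚ, c ≠ 0 → 0 < ∑ a, ∑ b, c a * (β a * M a b) * c b)
    {q : ℚ[X]} (hq : Irreducible q) (hm : q.Monic) {N : ℕ} (h : aeval M (q ^ N) = 0) :
    q.natDegree * (univ.filter fun i => β i < 0).card = nneg q * Fintype.card ι := by
  set S : Matrix ι ι ℚ := Matrix.of fun a b => β a * M a b with hS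
  have hpd : (S.map (algebraMap ℚ ℝ)).PosDef := by
    apply posDef_map
    · ext a b
      rw [Matrix.transpose_apply, hS, Matrix.of_apply, Matrix.of_apply, hsymm]
    · intro c hc
      refine (hpos c hc).trans_eq ?_
      simp only [dotProduct, mulVec, hS, Matrix.of_apply, Finset.mul_sum]
      apply Finset.sum_congr rfl
      intro a _
      apply Finset.sum_congr rfl
      intro b _
      ring
  have hMS : M.map (algebraMap ℚ ℝ) = diagonal (fun i => ((β i : ℝ))⁻¹) *
      S.map (algebraMap ℚ ℝ) := by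
    ext a b
    rw [Matrix.diagonal_mul, Matrix.map_apply, Matrix.map_apply, hS, Matrix.of_apply]
    have : (β a : ℝ) ≠ 0 := by exact_mod_cast hβ a
    simp only [eq_ratCast]
    push_cast
    field_simp
  have h1 := card_roots_neg (β := fun i => (β i : ℝ)) (fun i => by exact_mod_cast hβ i) hpd
  rw [← hMS, Matrix.charpoly_map] at h1
  have h2 : (univ.filter fun i => (β i : ℝ) < 0) = univ.filter fun i => β i < 0 := by
    ext i
    simp
  rw [h2] at h1
  have hid : ∀ (f : ℚ →+* ℚ) (p : ℚ[X]), p.map f = p := fun f p => by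
    rw [RingHom.ext_rat f (RingHom.id ℚ), Polynomial.map_id]
  obtain ⟨s, hs, hs'⟩ := charpoly_eq_pow (K := ℚ) (ψ := Matrix.toLin' M) hq hm (N := N) (by
    rw [hid]
    have h3 : aeval (Matrix.toLinAlgEquiv' M) (q ^ N) = Matrix.toLinAlgEquiv' (aeval M (q ^ N)) :=
      (aeval_algHom_apply (Matrix.toLinAlgEquiv' (R := ℚ) (n := ι)).toAlgHom M (q ^ N))
    rw [h, map_zero] at h3
    exact h3) (χ := M.charpoly) (by
      rw [hid, Matrix.charpoly_toLin'])
  rw [finrank_fintype_fun_eq_card] at hs'
  have h3 : nneg M.charpoly = (univ.filter fun i => β i < 0).card := h1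
  rw [hs, nneg_pow] at h3
  rw [← h3, hs']
  ring

end Index

end Pool.Agent.H61.MS
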