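import Pool.Agent.H61.MS.Adj
import Pool.Graph.R_pool_sql_team_seeded_1acbe0a2.Y97.Good

/-!
# Positivity on the powers of `X`
-/

open CategoryTheory AlgebraicGeometry

universe u v

namespace Pool.Agent.H61.MS

open Module
open Pool.Agent.H914 Pool.Agent.H914.VarClass Pool.Agent.H914.VarClass.Obj
  Pool.Agent.H914.WeilCohomology Pool.Agent.H281R3.HT Pool.Agent.W552 Pool.Agent.W539.Ker
  Pool.Agent.Y133.Half Pool.Agent.H61.GX Pool.Agent.H61.ZX Pool.Agent.H44T.SL Pool.Agent.Y97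

variable {k : Type u} [Field k] {𝒱 : VarClass k} {ops : CycleOps 𝒱}
  {W : WeilCohomology.{u, v} ops}

attribute [local instance] ratM

section Form

variable {X Y : 𝒱.Obj} {D : X.Cycles} {f : Module.End W.K (W.H X)} {E : Y.Cycles}
  {g : Module.End W.K (W.H Y)}

lemma neg_all (F : Fr W X D f) (hneg : ∀ n, 2 * n ≤ X.dim → negNum W X D n = 0) (m : ℤ) :
    ∃ (ι : Type) (_ : Fintype ι) (x : ι → AWs W X m 1), OM (BA F m 1) x ∧
      ∀ i, 0 < BA F m 1 (x i) (x i) := by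
  classical
  obtain ⟨ι, hι, x, hx, -, h⟩ := exists_om2 F m
  refine ⟨ι, hι, x, hx, fun i => ?_⟩
  rw [wsumN_zero _ hneg, Finset.card_eq_zero, Finset.filter_eq_empty_iff] at h
  exact lt_of_le_of_ne (not_lt.1 (h (Finset.mem_univ i))) (Ne.symm (hx.ne i))

/-- If no primitive class has a negative square, the form is positive. -/
theorem BA_nonneg (F : Fr W X D f) (S : Sy W X D f)
    (hneg : ∀ n, 2 * n ≤ X.dim → negNum W X D n = 0) (m : ℤ) (v : AWs W X m 1) :
    0 ≤ BA F m 1 v v ∧ (BA F m 1 v v = 0 → ∀ w, BA F m 1 v w = 0) := by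
  classical
  obtain ⟨ι, hι, x, hx, hpos⟩ := neg_all F hneg m
  have hB := BA_symm F S (m := m) (g := 1)
  set p := ∑ i, (BA F m 1 v (x i) / BA F m 1 (x i) (x i)) • x i with hp
  have hpx : ∀ i, BA F m 1 p (x i) = BA F m 1 v (x i) := by
    intro i
    rw [hp, map_sum (BA F m 1), LinearMap.sum_apply, Finset.sum_eq_single i]
    · rw [map_smul, LinearMap.smul_apply, smul_eq_mul, div_mul_cancel₀ _ (hx.ne i)]
    · intro j _ hj
      rw [map_smul, LinearMap.smul_apply, hx.orth j i hj, smul_zero]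
    · intro h0; exact absurd (Finset.mem_univ _) h0
  have hrad : ∀ w, BA F m 1 (v - p) w = 0 := fun w => om_radical hB hx (fun i => by
    rw [map_sub, LinearMap.sub_apply, hpx, sub_self]) w
  have h1 : BA F m 1 v v = BA F m 1 v p := by
    have h2 := hrad v
    rw [map_sub, LinearMap.sub_apply, sub_eq_zero, hB p v] at h2
    exact h2
  have h2 : BA F m 1 v p = ∑ i, BA F m 1 v (x i) * BA F m 1 v (x i) / BA F m 1 (x i) (x i) := by
    rw [hp, map_sum]
    apply Finset.sum_congr rfl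
    intro i _
    rw [map_smul, smul_eq_mul]; ring
  have h3 : ∀ i ∈ Finset.univ, 0 ≤ BA F m 1 v (x i) * BA F m 1 v (x i) / BA F m 1 (x i) (x i) :=
    fun i _ => div_nonneg (mul_self_nonneg _) (hpos i).le
  rw [h1, h2]
  refine ⟨Finset.sum_nonneg h3, fun h0 w => ?_⟩
  refine om_radical hB hx (fun i => ?_) w
  have h4 := (Finset.sum_eq_zero_iff_of_nonneg h3).1 h0 i (Finset.mem_univ i)
  rcases div_eq_zero_iff.1 h4 with h5 | h5
  · exact mul_self_eq_zero.1 h5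
  · exact absurd h5 (hx.ne i)

/-- The form on operators is the form on their classes. -/
lemma tr_sadj (G : Gd W X D f) (G' : Gd W Y E g) {c c' : W.H (X.prod Y)}
    (hc : AS W _ c) (hc' : AS W _ c') :
    LinearMap.trace W.K (W.H X) (sadj G G' (W.corr c') ∘ₗ W.corr c) =
      bf W (X.prod Y) (ops.pull (fst X Y) D + ops.pull (snd X Y) E) (extSum W f g) c' c :=
  G.trace_corr G' hc hc' fun a b => (bf_sadj G G' (W.corr c') a b).symm

/-- The class of an operator, as an element of the space of the algebraic classes. -/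
lemma exists_aws {m : ℤ} {t : W.H X →ₗ[W.K] W.H Y} (h : AH W X Y m t) :
    ∃ c : AWs W (X.prod Y) m 1, W.corr (c : W.H (X.prod Y)) = t := by
  obtain ⟨c, hc, hw, hct⟩ := h.exists_cls
  exact ⟨⟨c, hc, hw, rfl⟩, hct⟩

lemma tr_sadj_BA (G : Gd W X D f) (G' : Gd W Y E g) {m : ℤ} (c c' : AWs W (X.prod Y) m 1) :
    LinearMap.trace W.K (W.H X) (sadj G G' (W.corr (c' : W.H (X.prod Y))) ∘ₗ
      W.corr (c : W.H (X.prod Y))) = ((BA (G.fr.prod G'.fr) m 1 c' c : ℚ) : W.K) := by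
  rw [tr_sadj G G' c.2.1 c'.2.1, BA_cast]

/-- Positivity for operators. -/
theorem tr_nonneg (G : Gd W X D f) (G' : Gd W Y E g)
    (hneg : ∀ n, 2 * n ≤ (X.prod Y).dim → negNum W (X.prod Y)
      (ops.pull (fst X Y) D + ops.pull (snd X Y) E) n = 0) {m : ℤ}
    {t : W.H X →ₗ[W.K] W.H Y} (ht : AH W X Y m t) :
    ∃ q : ℚ, 0 ≤ q ∧ LinearMap.trace W.K (W.H X) (sadj G G' t ∘ₗ t) = q ∧
      (q = 0 → ∀ t', AH W X Y m t' → LinearMap.trace W.K (W.H X) (sadj G G' t ∘ₗ t') = 0) := by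
  obtain ⟨c, rfl⟩ := exists_aws ht
  have h := BA_nonneg (G.fr.prod G'.fr) (Sy.prod G.fr G'.fr G.sy G'.sy) hneg m c
  refine ⟨_, h.1, tr_sadj_BA G G' c c, fun h0 t' ht' => ?_⟩
  obtain ⟨c', rfl⟩ := exists_aws ht'
  rw [tr_sadj_BA G G' c' c, h.2 h0 c', Rat.cast_zero]

end Form

section Power

/-- The sum divisor on a power. -/
noncomputable def pwD (ops : CycleOps 𝒱) (X : Polarized 𝒱) : ∀ n, (pw X.X n).Cycles
  | 0 => X.D
  | n + 1 => ops.pull (fst (pw X.X n) X.X) (pwD ops X n) + ops.pull (snd (pw X.X n) X.X) X.D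

/-- The polarized power. -/
noncomputable def pP (ops : CycleOps 𝒱) (X : Polarized 𝒱) (n : ℕ) : Polarized 𝒱 :=
  ⟨pw X.X n, pwD ops X n⟩

lemma pP_eq (X : Polarized 𝒱) : ∀ n, pP ops X n = times ops X X n
  | 0 => rfl
  | n + 1 => by
    change (pP ops X n).prod ops X = (times ops X X n).prod ops X
    rw [pP_eq X n]

lemma pP_eq_tw (X : Polarized 𝒱) (n : ℕ) : pP ops X n = tw ops X n X := by
  rw [pP_eq, tw_eq_times]

lemma gp_pw {X : Polarized 𝒱} {f : Module.End W.K (W.H X.X)} (G : Gp W X.X X.D f) :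
    ∀ n, ∃ g, Gp W (pw X.X n) (pwD ops X n) g
  | 0 => ⟨f, G⟩
  | n + 1 => by
    obtain ⟨g, G'⟩ := gp_pw G n
    exact ⟨extSum W g f, G'.prod G⟩

lemma posNum_iso {P Q : Polarized 𝒱} (e : PIso W P Q) (hP : P.X.IsCyc 1 P.D)
    (hQ : Q.X.IsCyc 1 Q.D) {n : ℕ} (hn : 2 * n ≤ P.X.dim) :
    posNum W P.X P.D n = posNum W Q.X Q.D n := by
  rw [posNum, posNum]
  simp only [e.hasFamily_iff hP hQ hn]

lemma negNum_iso {P Q : Polarized 𝒱} (e : PIso W P Q) (hP : P.X.IsCyc 1 P.D)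
    (hQ : Q.X.IsCyc 1 Q.D) {n : ℕ} (hn : 2 * n ≤ P.X.dim) :
    negNum W P.X P.D n = negNum W Q.X Q.D n := by
  rw [negNum, negNum]
  simp only [e.hasFamily_iff hP hQ hn]

/-- Products of powers are powers. -/
lemma pP_prod (X : Polarized 𝒱) (r n : ℕ) :
    Nonempty (PIso W ((pP ops X r).prod ops (pP ops X n)) (pP ops X (n + 1 + r))) := by
  have e1 := PIso.grp (W := W) X (tw ops X r X) n
  rw [← PIso.tw_add, ← pP_eq_tw, ← pP_eq_tw, ← pP_eq_tw] at e1
  exact ⟨e1⟩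

lemma times_prod (Z X : Polarized 𝒱) (r : ℕ) :
    Nonempty (PIso W (Z.prod ops (pP ops X r)) (times ops Z X (r + 1))) := by
  have e1 := PIso.grp (W := W) X Z r
  rw [← pP_eq_tw, tw_eq_times] at e1
  exact ⟨e1⟩

/-- Positivity of all the powers. -/
lemma neg_prod {X : Polarized 𝒱} {f : Module.End W.K (W.H X.X)} (G : Gp W X.X X.D f)
    (hpos : ∀ m n, 2 * n ≤ (times ops X X m).X.dim →
      negNum W (times ops X X m).X (times ops X X m).D n = 0) (r n : ℕ) (j : ℕ)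
    (hj : 2 * j ≤ ((pw X.X r).prod (pw X.X n)).dim) :
    negNum W ((pw X.X r).prod (pw X.X n)) (ops.pull (fst (pw X.X r) (pw X.X n)) (pwD ops X r) +
      ops.pull (snd (pw X.X r) (pw X.X n)) (pwD ops X n)) j = 0 := by
  obtain ⟨e⟩ := pP_prod (W := W) (ops := ops) X r n
  obtain ⟨g, Gg⟩ := gp_pw (ops := ops) G r
  obtain ⟨g', Gg'⟩ := gp_pw (ops := ops) G n
  obtain ⟨g'', Gg''⟩ := gp_pw (ops := ops) G (n + 1 + r)
  have h1 := negNum_iso e (Gg.prod Gg').fr.hD Gg''.fr.hD hj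
  refine h1.trans ?_
  have h2 := hpos (n + 1 + r) j
  rw [← pP_eq] at h2
  apply h2
  rw [← e.dim]
  exact hj

end Power

end Pool.Agent.H61.MS
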