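import Pool.Agent.H61.MS.Fac
import Pool.Agent.H61.MS.Idx

/-!
# The number of classes in a maximal orthogonal family, as a rank
-/

open CategoryTheory AlgebraicGeometry

universe u v

namespace Pool.Agent.H61.MS

open Module
open Pool.Agent.H914 Pool.Agent.H914.VarClass Pool.Agent.H914.VarClass.Obj
  Pool.Agent.H914.WeilCohomology Pool.Agent.H281R3.HT Pool.Agent.W552 Pool.Agent.W539.Ker
  Pool.Agent.Y133.Half Pool.Agent.H61.GX Pool.Agent.H61.ZX Pool.Agent.H44T.SL Pool.Agent.Y97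

variable {k : Type u} [Field k] {𝒱 : VarClass k} {ops : CycleOps 𝒱}
  {W : WeilCohomology.{u, v} ops} {Y Z : 𝒱.Obj} {D : Y.Cycles} {g : Module.End W.K (W.H Y)}
  {B : Z.Cycles} {h : Module.End W.K (W.H Z)}

attribute [local instance] ratM

/-- A self-adjoint rational operator of degree zero. -/
structure SAH (GZ : Gd W Z B h) (e : Module.End W.K (W.H Z)) : Prop where
  ah : AH W Z Z 0 e
  sa : sadj GZ GZ e = e

lemma SAH.opP {GZ : Gd W Z B h} {e : Module.End W.K (W.H Z)} (H : SAH GZ e) :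
    OpP W Z B h e e := by
  have hadj : ∀ x y, bf W Z B h (e x) y = bf W Z B h x (e y) := by
    intro x y
    have := bf_sadj GZ GZ e x y
    rw [H.sa] at this
    exact this.symm
  have hw : ∀ x, wt (W.isInternal Z) Z.dim (e x) = e (wt (W.isInternal Z) Z.dim x) := by
    intro x
    have := H.ah.2.apply x
    rwa [Int.cast_zero, zero_smul, add_zero] at this
  exact ⟨H.ah.1, H.ah.1, hadj, hadj, hw, hw⟩

lemma SAH.ext {GZ : Gd W Z B h} {e : Module.End W.K (W.H Z)} (H : SAH GZ e) (GY : Gd W Y D g) :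
    OpP W (Y.prod Z) (ops.pull (fst Y Z) D + ops.pull (snd Y Z) B) (extSum W g h)
      (extOp W 1 e) (extOp W 1 e) := OpP.one.ext GY.fr GZ.fr H.opP

lemma tr_sadj_BA' (G : Gd W Y D g) (G' : Gd W Z B h) {m : ℤ}
    {e : Module.End W.K (W.H (Y.prod Z))} (c c' : AWs W (Y.prod Z) m e) :
    LinearMap.trace W.K (W.H Y) (sadj G G' (W.corr (c' : W.H (Y.prod Z))) ∘ₗ
      W.corr (c : W.H (Y.prod Z))) = ((BA (G.fr.prod G'.fr) m e c' c : ℚ) : W.K) := by
  rw [tr_sadj G G' c.2.1 c'.2.1, BA_cast]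

/-- The class of `e ∘ u`. -/
lemma exists_aws_comp {GZ : Gd W Z B h} {e : Module.End W.K (W.H Z)} (H : SAH GZ e)
    (hee : e ∘ₗ e = e) (GY : Gd W Y D g) {m : ℤ} {u : W.H Y →ₗ[W.K] W.H Z} (hu : AH W Y Z m u) :
    ∃ w : AWs W (Y.prod Z) m (extOp W 1 e), W.corr (w : W.H (Y.prod Z)) = e ∘ₗ u := by
  obtain ⟨c, rfl⟩ := exists_aws hu
  refine ⟨⟨extOp W 1 e (c : W.H (Y.prod Z)), (H.ext GY).mem c.2 (fun x => ?_)⟩, ?_⟩
  · have h1 : extOp W (1 : Module.End W.K (W.H Y)) e ∘ₗ extOp W 1 e = extOp W 1 e :=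
      ext_idem rfl hee
    exact congrArg (fun t => t x) h1
  · exact corr_one_ext H.ah.ev _

lemma corr_fix {e : Module.End W.K (W.H Z)} (he : Ev W e) {m : ℤ}
    (c : AWs W (Y.prod Z) m (extOp W 1 e)) :
    e ∘ₗ W.corr (c : W.H (Y.prod Z)) = W.corr (c : W.H (Y.prod Z)) := by
  rw [← corr_one_ext he, c.2.2.2]

lemma gop_sadj (G : Gd W Y D g) (G' : Gd W Z B h) {ρ : ℤ} {u : W.H Y →ₗ[W.K] W.H Z}
    (hu : u ∈ GOp (algSys W) Y Z ρ) : sadj G G' u ∈ GOp (algSys W) Z Y (-ρ) := by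
  refine Submodule.span_induction (p := fun u _ => sadj G G' u ∈ GOp (algSys W) Z Y (-ρ))
    ?_ ?_ ?_ ?_ (gop_le_span _ _ _ hu)
  · intro u hu
    exact AH.gop (m := -wo Y Z ρ) (by rw [wo, wo]; ring) (AH.sadj hu)
  · rw [map_zero]; exact Submodule.zero_mem _
  · intro a b _ _ ha hb
    rw [map_add]; exact Submodule.add_mem _ ha hb
  · intro c a _ ha
    rw [map_smul]; exact Submodule.smul_mem _ _ ha

/-- The form `tr (t'* e u)`. -/
noncomputable def bE (G : Gd W Y D g) (G' : Gd W Z B h) (e : Module.End W.K (W.H Z)) :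
    (W.H Y →ₗ[W.K] W.H Z) →ₗ[W.K] (W.H Y →ₗ[W.K] W.H Z) →ₗ[W.K] W.K :=
  LinearMap.mk₂ W.K (fun u t => LinearMap.trace W.K (W.H Y) (sadj G G' t ∘ₗ e ∘ₗ u))
    (fun u u' t => by rw [LinearMap.comp_add, LinearMap.comp_add, map_add])
    (fun c u t => by rw [LinearMap.comp_smul, LinearMap.comp_smul, map_smul])
    (fun u t t' => by rw [map_add, LinearMap.add_comp, map_add])
    (fun c u t => by rw [map_smul, LinearMap.smul_comp, map_smul])

lemma bE_apply (G : Gd W Y D g) (G' : Gd W Z B h) (e : Module.End W.K (W.H Z))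
    (u t : W.H Y →ₗ[W.K] W.H Z) :
    bE G G' e u t = LinearMap.trace W.K (W.H Y) (sadj G G' t ∘ₗ e ∘ₗ u) := rfl

/-- The form on homogeneous operators. -/
noncomputable def bG (G : Gd W Y D g) (G' : Gd W Z B h) (e : Module.End W.K (W.H Z)) (ρ : ℤ) :
    GOp (algSys W) Y Z ρ →ₗ[W.K] GOp (algSys W) Y Z ρ →ₗ[W.K] W.K :=
  (bE G G' e).compl₁₂ (GOp (algSys W) Y Z ρ).subtype (GOp (algSys W) Y Z ρ).subtype

lemma bG_apply (G : Gd W Y D g) (G' : Gd W Z B h) (e : Module.End W.K (W.H Z)) {ρ : ℤ}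
    (u t : GOp (algSys W) Y Z ρ) : bG G G' e ρ u t =
      LinearMap.trace W.K (W.H Y) (sadj G G' (t : W.H Y →ₗ[W.K] W.H Z) ∘ₗ e ∘ₗ
        (u : W.H Y →ₗ[W.K] W.H Z)) := rfl

/-- The rank of the form. -/
theorem rk_bG (G : Gd W Y D g) (G' : Gd W Z B h) {e : Module.End W.K (W.H Z)} (he : Ev W e)
    (ρ : ℤ) : rk (A := GOp (algSys W) Y Z ρ) (B := GOp (algSys W) Y Z ρ) (bG G G' e ρ) =
      rg (algSys W) Z e Y (Y.dim + ρ) (Z.dim - ρ) := by
  have hpp : par (W.isInternal Z) * par (W.isInternal Z) = 1 := H914.par_mul_par _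
  have hpG : par (W.isInternal Z) ∈ GOp (algSys W) Z Z 0 := (par_gop G').gop (wo_self Z)
  let Θ : GOp (algSys W) Y Z ρ →ₗ[W.K] GOp (algSys W) Z Y (-ρ) :=
    { toFun := fun t => ⟨sadj G G' (t : W.H Y →ₗ[W.K] W.H Z) ∘ₗ par (W.isInternal Z),
        GOp.comp' (gop_sadj G G' t.2) hpG (by ring)⟩
      map_add' := fun a b => Subtype.ext (by
        change sadj G G' ((a : W.H Y →ₗ[W.K] W.H Z) + b) ∘ₗ _ = _
        rw [map_add, LinearMap.add_comp]; rfl)
      map_smul' := fun c a => Subtype.ext (by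
        change sadj G G' (c • (a : W.H Y →ₗ[W.K] W.H Z)) ∘ₗ _ = _
        rw [map_smul, LinearMap.smul_comp]; rfl) }
  have hΘ : Function.Surjective Θ := by
    rintro ⟨v, hv⟩
    have hv' : v ∘ₗ par (W.isInternal Z) ∈ GOp (algSys W) Z Y (-ρ) := GOp.comp' hv hpG (by ring)
    refine ⟨⟨sadj G' G (v ∘ₗ par (W.isInternal Z)), GOp.cast (gop_sadj G' G hv') (by ring)⟩, ?_⟩
    apply Subtype.ext
    change sadj G G' (sadj G' G (v ∘ₗ par (W.isInternal Z))) ∘ₗ par (W.isInternal Z) = v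
    rw [sadj_sadj G' G (GOp.ev hv'), LinearMap.comp_assoc]
    change v ∘ₗ (par (W.isInternal Z) * par (W.isInternal Z)) = v
    rw [hpp]
    rfl
  have h1 := rk_comp (A := GOp (algSys W) Y Z ρ) (B := GOp (algSys W) Z Y (-ρ))
    (A' := GOp (algSys W) Y Z ρ) (B' := GOp (algSys W) Y Z ρ)
    (BG (algSys W) Z Y e LinearMap.id ρ (-ρ)) (f := LinearMap.id) (g := Θ)
    Function.surjective_id hΘ
  have h2 : (BG (algSys W) Z Y e LinearMap.id ρ (-ρ)).compl₁₂ LinearMap.id Θ = bG G G' e ρ := by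
    apply LinearMap.ext
    intro u
    apply LinearMap.ext
    intro t
    rw [LinearMap.compl₁₂_apply, BG_apply, bG_apply]
    change LinearMap.trace W.K (W.H Z) (par (W.isInternal Z) * ((e ∘ₗ
      (u : W.H Y →ₗ[W.K] W.H Z) ∘ₗ sadj G G' (t : W.H Y →ₗ[W.K] W.H Z)) *
        par (W.isInternal Z))) = _
    rw [LinearMap.trace_mul_comm, mul_assoc, hpp, mul_one]
    exact (LinearMap.trace_comp_comm' (e ∘ₗ (u : W.H Y →ₗ[W.K] W.H Z))
      (sadj G G' (t : W.H Y →ₗ[W.K] W.H Z))).symm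
  rw [h2] at h1
  rw [h1, rk_BG (algSys W) he Ev.id (g'' := 1) Adj.one, ← sub_eq_add_neg]
  exact cg_iso (algSys W) (prodComm Y Z) (by simp only [dim_prod]; ring)
    (fun x => Sys.swap_op he x) _ _

/-- **The number of classes in a maximal orthogonal family is a rank.** -/
theorem card_eq_rg (G : Gd W Y D g) (G' : Gd W Z B h) {e : Module.End W.K (W.H Z)}
    (H : SAH G' e) (hee : e ∘ₗ e = e) {ρ : ℤ} {ι : Type*} [Fintype ι]
    {x : ι → AWs W (Y.prod Z) (wo Y Z ρ) (extOp W 1 e)}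
    (hx : OM (BA (G.fr.prod G'.fr) (wo Y Z ρ) (extOp W 1 e)) x) :
    Fintype.card ι = rg (algSys W) Z e Y (Y.dim + ρ) (Z.dim - ρ) := by
  classical
  rw [← rk_bG G G' H.ah.ev ρ]
  set β := bG G G' e ρ with hβ
  have hS : Sy W (Y.prod Z) (ops.pull (fst Y Z) D + ops.pull (snd Y Z) B) (extSum W g h) :=
    Sy.prod G.fr G'.fr G.sy G'.sy
  have hsymm := BA_symm (G.fr.prod G'.fr) hS (m := wo Y Z ρ) (g := extOp W 1 e)
  have hxA : ∀ a, AH W Y Z (wo Y Z ρ) (W.corr (x a : W.H (Y.prod Z))) := fun a =>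
    AH.of_cls (x a).2.1 (x a).2.2.1
  let Xa : ι → GOp (algSys W) Y Z ρ := fun a => ⟨W.corr (x a : W.H (Y.prod Z)), (hxA a).gop rfl⟩
  -- values of the form
  have hval : ∀ a b, β (Xa a) (Xa b) =
      ((BA (G.fr.prod G'.fr) (wo Y Z ρ) (extOp W 1 e) (x b) (x a) : ℚ) : W.K) := by
    intro a b
    rw [← tr_sadj_BA' G G', hβ, bG_apply]
    change LinearMap.trace W.K (W.H Y) (sadj G G' (W.corr (x b : W.H (Y.prod Z))) ∘ₗ e ∘ₗ
      W.corr (x a : W.H (Y.prod Z))) = _
    rw [corr_fix H.ah.ev]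
  have hexp0 : ∀ u, AH W Y Z (wo Y Z ρ) u → ∀ t, AH W Y Z (wo Y Z ρ) t →
      bE G G' e u t = ∑ a, ((BA (G.fr.prod G'.fr) (wo Y Z ρ) (extOp W 1 e) (x a) (x a) : ℚ) :
        W.K)⁻¹ * bE G G' e u (W.corr (x a : W.H (Y.prod Z))) *
          bE G G' e (W.corr (x a : W.H (Y.prod Z))) t := by
    intro u hu t ht
    obtain ⟨w, hw⟩ := exists_aws_comp H hee G hu
    obtain ⟨w', hw'⟩ := exists_aws_comp H hee G ht
    have hst : sadj G G' (e ∘ₗ t) = sadj G G' t ∘ₗ e := by
      rw [sadj_comp G G' G', H.sa]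
    have e1 : bE G G' e u t =
        ((BA (G.fr.prod G'.fr) (wo Y Z ρ) (extOp W 1 e) w' w : ℚ) : W.K) := by
      rw [← tr_sadj_BA' G G', hw, hw', hst, bE_apply]
      have : (sadj G G' t ∘ₗ e) ∘ₗ e ∘ₗ u = sadj G G' t ∘ₗ (e ∘ₗ e) ∘ₗ u := rfl
      rw [this, hee]
    have e2 : ∀ a, bE G G' e u (W.corr (x a : W.H (Y.prod Z))) =
        ((BA (G.fr.prod G'.fr) (wo Y Z ρ) (extOp W 1 e) (x a) w : ℚ) : W.K) := by
      intro a
      rw [← tr_sadj_BA' G G', hw, bE_apply]
    have e3 : ∀ a, bE G G' e (W.corr (x a : W.H (Y.prod Z))) t =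
        ((BA (G.fr.prod G'.fr) (wo Y Z ρ) (extOp W 1 e) w' (x a) : ℚ) : W.K) := by
      intro a
      rw [← tr_sadj_BA' G G', hw', hst, bE_apply]
      rfl
    rw [e1, om_expand hsymm hx w' w, Rat.cast_sum]
    apply Finset.sum_congr rfl
    intro a _
    rw [e2, e3, hsymm (x a) w]
    push_cast
    rw [div_eq_mul_inv]
    ring
  have hexp : ∀ u ∈ GOp (algSys W) Y Z ρ, ∀ t ∈ GOp (algSys W) Y Z ρ,
      bE G G' e u t = ∑ a, ((BA (G.fr.prod G'.fr) (wo Y Z ρ) (extOp W 1 e) (x a) (x a) : ℚ) :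
        W.K)⁻¹ * bE G G' e u (W.corr (x a : W.H (Y.prod Z))) *
          bE G G' e (W.corr (x a : W.H (Y.prod Z))) t := by
    intro u hu t ht
    refine Submodule.span_induction (p := fun u _ => bE G G' e u t =
      ∑ a, ((BA (G.fr.prod G'.fr) (wo Y Z ρ) (extOp W 1 e) (x a) (x a) : ℚ) :
        W.K)⁻¹ * bE G G' e u (W.corr (x a : W.H (Y.prod Z))) *
          bE G G' e (W.corr (x a : W.H (Y.prod Z))) t) ?_ ?_ ?_ ?_ (gop_le_span _ _ _ hu)
    · intro u hu
      refine Submodule.span_induction (p := fun t _ => bE G G' e u t =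
        ∑ a, ((BA (G.fr.prod G'.fr) (wo Y Z ρ) (extOp W 1 e) (x a) (x a) : ℚ) :
          W.K)⁻¹ * bE G G' e u (W.corr (x a : W.H (Y.prod Z))) *
            bE G G' e (W.corr (x a : W.H (Y.prod Z))) t) ?_ ?_ ?_ ?_ (gop_le_span _ _ _ ht)
      · intro t ht
        exact hexp0 u hu t ht
      · simp
      · intro a b _ _ ha hb
        rw [map_add, ha, hb, ← Finset.sum_add_distrib]
        apply Finset.sum_congr rfl
        intro i _
        rw [map_add]
        ring
      · intro c a _ ha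
        rw [map_smul, ha, smul_eq_mul, Finset.mul_sum]
        apply Finset.sum_congr rfl
        intro i _
        rw [map_smul, smul_eq_mul]
        ring
    · simp
    · intro a b _ _ ha hb
      rw [map_add, LinearMap.add_apply, ha, hb, ← Finset.sum_add_distrib]
      apply Finset.sum_congr rfl
      intro i _
      rw [LinearMap.add_apply]
      ring
    · intro c a _ ha
      rw [map_smul, LinearMap.smul_apply, ha, smul_eq_mul, Finset.mul_sum]
      apply Finset.sum_congr rfl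
      intro i _
      rw [LinearMap.smul_apply, smul_eq_mul]
      ring
  apply le_antisymm
  · -- the values are linearly independent
    have hli : LinearIndependent W.K (fun a => β (Xa a)) := by
      rw [Fintype.linearIndependent_iff]
      intro c hc a
      have h1 := congrArg (fun l : GOp (algSys W) Y Z ρ →ₗ[W.K] W.K => l (Xa a)) hc
      simp only [LinearMap.sum_apply, LinearMap.smul_apply, smul_eq_mul,
        LinearMap.zero_apply] at h1
      rw [Finset.sum_eq_single a] at h1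
      · rcases mul_eq_zero.1 h1 with h2 | h2
        · exact h2
        · rw [hval] at h2
          exact absurd (Rat.cast_eq_zero.1 h2) (hx.ne a)
      · intro b _ hb
        rw [hval, hx.orth a b (Ne.symm hb), Rat.cast_zero, mul_zero]
      · intro h0; exact absurd (Finset.mem_univ _) h0
    have hli2 : LinearIndependent W.K
        (fun a => (⟨β (Xa a), ⟨Xa a, rfl⟩⟩ : LinearMap.range β)) := by
      apply LinearIndependent.of_comp (LinearMap.range β).subtype
      exact hli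
    exact hli2.fintype_card_le_finrank
  · have h1 : LinearMap.range β ≤ Submodule.span W.K (Set.range fun a => β (Xa a)) := by
      rintro _ ⟨u, rfl⟩
      have h2 : β u = ∑ a, (((BA (G.fr.prod G'.fr) (wo Y Z ρ) (extOp W 1 e) (x a) (x a) : ℚ) :
          W.K)⁻¹ * β u (Xa a)) • β (Xa a) := by
        apply LinearMap.ext
        intro t
        rw [LinearMap.sum_apply]
        exact hexp u u.2 t t.2
      rw [h2]
      exact Submodule.sum_mem _ fun a _ => Submodule.smul_mem _ _ (Submodule.subset_span ⟨a, rfl⟩)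
    exact (Submodule.finrank_mono h1).trans (finrank_range_le_card _)

end Pool.Agent.H61.MS
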