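import Mathlib

/-!
# The index of a rational form, by the real roots of a characteristic polynomial
-/

set_option autoImplicit false

namespace Pool.Agent.H61.MS

open Matrix Finset Module

section Real

variable {ι : Type*} [Fintype ι] [DecidableEq ι]

omit [DecidableEq ι] in
/-- A half of the law of inertia. -/
lemma inertia_le {f g : (ι → ℝ) →ₗ[ℝ] (ι → ℝ)} (hf : Function.Injective f) {a b : ι → ℝ}
    (h : ∀ x, ∑ i, a i * f x i ^ 2 = ∑ i, b i * g x i ^ 2) :
    (univ.filter fun i => a i < 0).card ≤ (univ.filter fun i => b i < 0).card := by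
  by_contra hcon
  rw [not_le] at hcon
  let F : (ι → ℝ) →ₗ[ℝ] ({i // ¬ a i < 0} → ℝ) × ({i // b i < 0} → ℝ) :=
    (LinearMap.pi fun i => (LinearMap.proj i.1) ∘ₗ f).prod
      (LinearMap.pi fun i => (LinearMap.proj i.1) ∘ₗ g)
  have hF : ¬ Function.Injective F := by
    intro hinj
    have h1 := LinearMap.finrank_le_finrank_of_injective hinj
    rw [finrank_prod, finrank_fintype_fun_eq_card, finrank_fintype_fun_eq_card,
      finrank_fintype_fun_eq_card, Fintype.card_subtype, Fintype.card_subtype] at h1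
    have h2 := Finset.card_filter_add_card_filter_not (s := (univ : Finset ι)) (fun i => a i < 0)
    rw [Finset.card_univ] at h2
    omega
  obtain ⟨x, hx, hx0⟩ : ∃ x, F x = 0 ∧ x ≠ 0 := by
    by_contra hno
    push Not at hno
    apply hF
    rw [← LinearMap.ker_eq_bot, LinearMap.ker_eq_bot']
    exact hno
  have h1 : ∀ i, ¬ a i < 0 → f x i = 0 := fun i hi =>
    congrFun (congrArg Prod.fst hx) ⟨i, hi⟩
  have h2 : ∀ i, b i < 0 → g x i = 0 := fun i hi =>
    congrFun (congrArg Prod.snd hx) ⟨i, hi⟩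
  have h3 : 0 ≤ ∑ i, b i * g x i ^ 2 := by
    apply Finset.sum_nonneg
    intro i _
    by_cases hi : b i < 0
    · rw [h2 i hi]; simp
    · exact mul_nonneg (not_lt.1 hi) (sq_nonneg _)
  have h4 : ∑ i, a i * f x i ^ 2 < 0 := by
    have hfx : f x ≠ 0 := fun h0 => hx0 (hf (by rw [h0, map_zero]))
    obtain ⟨j, hj⟩ : ∃ j, f x j ≠ 0 := by
      by_contra hno
      push Not at hno
      exact hfx (funext hno)
    have hj2 : a j < 0 := by
      by_contra h0
      exact hj (h1 j h0)
    refine Finset.sum_neg' (fun i _ => ?_) ⟨j, Finset.mem_univ _, ?_⟩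
    · by_cases hi : a i < 0
      · exact mul_nonpos_of_nonpos_of_nonneg hi.le (sq_nonneg _)
      · rw [h1 i hi]; simp
    · exact mul_neg_of_neg_of_pos hj2 (by positivity)
  rw [h x] at h4
  exact absurd h3 (not_le.2 h4)

lemma quad_conj (C : Matrix ι ι ℝ) (d : ι → ℝ) (x : ι → ℝ) :
    x ⬝ᵥ ((C * diagonal d * Cᵀ) *ᵥ x) = ∑ i, d i * (Cᵀ *ᵥ x) i ^ 2 := by
  rw [← mulVec_mulVec, ← mulVec_mulVec, dotProduct_mulVec, ← mulVec_transpose]
  simp only [dotProduct, mulVec_diagonal]
  apply Finset.sum_congr rfl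
  intro i _
  ring

lemma inj_of_isUnit {C : Matrix ι ι ℝ} (hC : IsUnit C) : Function.Injective C.mulVecLin :=
  mulVec_injective_iff_isUnit.2 hC

open scoped MatrixOrder in
/-- The number of the negative roots of the characteristic polynomial of `diag(1 / β) S`, for a
positive definite matrix `S`, is the number of the negative `β i`. -/
theorem card_roots_neg {β : ι → ℝ} (hβ : ∀ i, β i ≠ 0) {S : Matrix ι ι ℝ} (hS : S.PosDef) :
    Multiset.card (((diagonal (fun i => (β i)⁻¹) * S).charpoly.roots).filter (· < 0)) =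
      (univ.filter fun i => β i < 0).card := by
  obtain ⟨B, hB⟩ := CStarAlgebra.nonneg_iff_eq_star_mul_self.mp hS.posSemidef.nonneg
  have hBu : IsUnit B := by
    have h1 : IsUnit S := hS.isUnit
    rw [Matrix.isUnit_iff_isUnit_det] at h1 ⊢
    rw [hB, Matrix.det_mul] at h1
    exact isUnit_of_mul_isUnit_right h1
  have hstar : star B = Bᵀ := by
    rw [star_eq_conjTranspose, conjTranspose_eq_transpose_of_trivial]
  rw [hB, hstar, ← mul_assoc, Matrix.charpoly_mul_comm, ← mul_assoc]
  set A := B * diagonal (fun i => (β i)⁻¹) * Bᵀ with hA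
  have hAh : A.IsHermitian := by
    rw [Matrix.IsHermitian, conjTranspose_eq_transpose_of_trivial, hA]
    simp [Matrix.transpose_mul, mul_assoc]
  rw [hAh.roots_charpoly_eq_eigenvalues, Multiset.filter_map, Multiset.card_map]
  have h1 : (Multiset.filter ((fun x => x < 0) ∘ (RCLike.ofReal ∘ hAh.eigenvalues : ι → ℝ))
      (univ : Finset ι).val).card = (univ.filter fun i => hAh.eigenvalues i < 0).card := by
    rfl
  rw [h1]
  -- the spectral theorem
  set U : Matrix ι ι ℝ := (hAh.eigenvectorUnitary : Matrix ι ι ℝ) with hU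
  have hUu : IsUnit Uᵀ := by
    have h2 : star U * U = 1 := Unitary.coe_star_mul_self hAh.eigenvectorUnitary
    have h3 : star U = Uᵀ := by
      rw [star_eq_conjTranspose, conjTranspose_eq_transpose_of_trivial]
    rw [h3] at h2
    exact IsUnit.of_mul_eq_one _ h2
  have hsp : A = U * diagonal hAh.eigenvalues * Uᵀ := by
    have h2 := hAh.spectral_theorem
    rw [Unitary.conjStarAlgAut_apply] at h2
    have h3 : star U = Uᵀ := by
      rw [star_eq_conjTranspose, conjTranspose_eq_transpose_of_trivial]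
    rw [← h3]
    exact h2
  have hq : ∀ x : ι → ℝ, ∑ i, hAh.eigenvalues i * (Uᵀ.mulVecLin x) i ^ 2 =
      ∑ i, (β i)⁻¹ * (Bᵀ.mulVecLin x) i ^ 2 := by
    intro x
    have h2 := quad_conj U hAh.eigenvalues x
    have h3 := quad_conj B (fun i => (β i)⁻¹) x
    rw [← hsp] at h2
    rw [← hA] at h3
    rw [mulVecLin_apply, mulVecLin_apply, ← h2, ← h3]
  have hBt : IsUnit Bᵀ := by
    rw [Matrix.isUnit_iff_isUnit_det, Matrix.det_transpose, ← Matrix.isUnit_iff_isUnit_det]
    exact hBu
  have hinvβ : (univ.filter fun i => (β i)⁻¹ < 0) = univ.filter fun i => β i < 0 := by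
    ext i
    simp
  apply le_antisymm
  · rw [← hinvβ]
    exact inertia_le (inj_of_isUnit hUu) hq
  · rw [← hinvβ]
    exact inertia_le (inj_of_isUnit hBt) fun x => (hq x).symm

end Real

end Pool.Agent.H61.MS
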