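import Pool.Agent.H61.MS.Count
import Pool.Agent.H61.MS.Low
import Pool.Agent.H61.HL.Low

/-!
# The numbers of positive and negative classes on `Z × X ^ r`, and their asymptotics
-/

open CategoryTheory AlgebraicGeometry

universe u v

namespace Pool.Agent.H61.MS

open Module Filter Topology
open Pool.Agent.H914 Pool.Agent.H914.VarClass Pool.Agent.H914.VarClass.Obj
  Pool.Agent.H914.WeilCohomology Pool.Agent.H281R3.HT Pool.Agent.W552 Pool.Agent.W539.Ker
  Pool.Agent.Y133.Half Pool.Agent.H61.GX Pool.Agent.H61.ZX Pool.Agent.H44T.SL Pool.Agent.Y97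

variable {k : Type u} [Field k] {𝒱 : VarClass k} {ops : CycleOps 𝒱}
  {W : WeilCohomology.{u, v} ops}

lemma tot_iso {P Q : Polarized 𝒱} (e : PIso W P Q) (hP : P.X.IsCyc 1 P.D)
    (hQ : Q.X.IsCyc 1 Q.D) : posTotal W P = posTotal W Q ∧ negTotal W P = negTotal W Q := by
  constructor
  · rw [posTotal, posTotal, ← e.dim]
    apply Finset.sum_congr rfl
    intro n hn
    rw [Finset.mem_range] at hn
    exact posNum_iso e hP hQ (by omega)
  · rw [negTotal, negTotal, ← e.dim]
    apply Finset.sum_congr rfl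
    intro n hn
    rw [Finset.mem_range] at hn
    exact negNum_iso e hP hQ (by omega)

lemma tot_swap {P Q : Polarized 𝒱} (hP : P.X.IsCyc 1 P.D) (hQ : Q.X.IsCyc 1 Q.D) :
    posTotal W (P.prod ops Q) = posTotal W (Q.prod ops P) ∧
      negTotal W (P.prod ops Q) = negTotal W (Q.prod ops P) := by
  have hd : (P.prod ops Q).X.dim = (Q.prod ops P).X.dim := by
    change P.X.dim + Q.X.dim = Q.X.dim + P.X.dim
    rw [add_comm]
  have h : ∀ n, 2 * n ≤ P.X.dim + Q.X.dim → ∀ (s : ℚ) (r : ℕ),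
      HasFamily W (P.prod ops Q).X (P.prod ops Q).D n s r ↔
      HasFamily W (Q.prod ops P).X (Q.prod ops P).D n s r := fun n hn s r =>
    ⟨hasFamily_swap hQ hP (by omega), hasFamily_swap hP hQ hn⟩
  constructor
  · rw [posTotal, posTotal, ← hd]
    apply Finset.sum_congr rfl
    intro n hn
    rw [Finset.mem_range] at hn
    have hn' : 2 * n ≤ P.X.dim + Q.X.dim := by
      have : (P.prod ops Q).X.dim = P.X.dim + Q.X.dim := rfl
      omega
    rw [posNum, posNum]
    simp only [h n hn']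
  · rw [negTotal, negTotal, ← hd]
    apply Finset.sum_congr rfl
    intro n hn
    rw [Finset.mem_range] at hn
    have hn' : 2 * n ≤ P.X.dim + Q.X.dim := by
      have : (P.prod ops Q).X.dim = P.X.dim + Q.X.dim := rfl
      omega
    rw [negNum, negNum]
    simp only [h n hn']

/-- The degree of the operators whose classes have codimension near the middle. -/
noncomputable def rhoM (Y Z : 𝒱.Obj) : ℤ :=
  ((((Y.prod Z).dim % 2 : ℕ) : ℤ) - Y.dim + Z.dim) / 2

lemma wo_rhoM (Y Z : 𝒱.Obj) : wo Y Z (rhoM Y Z) = (((Y.prod Z).dim % 2 : ℕ) : ℤ) := by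
  rw [wo, rhoM, dim_prod]
  omega

variable {X Z : Polarized 𝒱} {f : Module.End W.K (W.H X.X)} {h : Module.End W.K (W.H Z.X)}

lemma tot_eq (G : Gp W X.X X.D f) (GZ : Gd W Z.X Z.D h) (r : ℕ) :
    posTotal W (times ops Z X (r + 1)) = wsumN ((pw X.X r).prod Z.X).dim
      (posNum W ((pw X.X r).prod Z.X) (ops.pull (fst (pw X.X r) Z.X) (pwD ops X r) +
        ops.pull (snd (pw X.X r) Z.X) Z.D)) (wo (pw X.X r) Z.X (rhoM (pw X.X r) Z.X)) ∧
    negTotal W (times ops Z X (r + 1)) = wsumN ((pw X.X r).prod Z.X).dim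
      (negNum W ((pw X.X r).prod Z.X) (ops.pull (fst (pw X.X r) Z.X) (pwD ops X r) +
        ops.pull (snd (pw X.X r) Z.X) Z.D)) (wo (pw X.X r) Z.X (rhoM (pw X.X r) Z.X)) := by
  obtain ⟨g, Gr⟩ := gp_pw (ops := ops) G r
  obtain ⟨e⟩ := times_prod (W := W) (ops := ops) Z X r
  have hZ : Z.X.IsCyc 1 Z.D := GZ.fr.hD
  have hr : (pP ops X r).X.IsCyc 1 (pP ops X r).D := Gr.fr.hD
  have h1 : (Z.prod ops (pP ops X r)).X.IsCyc 1 (Z.prod ops (pP ops X r)).D :=
    (GZ.fr.prod Gr.fr).hD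
  have hX : X.X.IsCyc 1 X.D := G.fr.hD
  have h2 : ∀ n, (times ops Z X n).X.IsCyc 1 (times ops Z X n).D := by
    intro n
    induction n with
    | zero => exact hZ
    | succ n ih => exact SmVar.IsCyc.add (ops.pull_mem _ ih) (ops.pull_mem _ hX)
  obtain ⟨e1, e2⟩ := tot_iso e h1 (h2 (r + 1))
  obtain ⟨e3, e4⟩ := tot_swap (W := W) (ops := ops) (P := Z) (Q := pP ops X r) hZ hr
  rw [wo_rhoM, wsumN_mid, wsumN_mid, ← e1, ← e2, e3, e4]
  exact ⟨rfl, rfl⟩

section Lim

variable {X Z : 𝒱.Obj}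

/-- The asymptotics of the ranks. -/
lemma lim_rg (hS : GBig (algSys W) X) {e : Module.End W.K (W.H Z)}
    (he : e ∈ GOp (algSys W) Z Z 0) (hee : e ∘ₗ e = e) (hl : GLow (algSys W) X Z e) :
    Tendsto (fun r => (rg (algSys W) Z e (pw X r) ((pw X r).dim + rhoM (pw X r) Z)
      (Z.dim - rhoM (pw X r) Z) : ℝ) / nrmg (algSys W) X r) atTop
        (𝓝 (finrank W.K (LinearMap.range e))) := by
  rw [Metric.tendsto_atTop]
  intro ε hε
  obtain ⟨n₀, hn₀⟩ := asy_of_low he hee hl (ε / 2) (by positivity) (Z.dim + 1)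
  refine ⟨n₀, fun n hn => ?_⟩
  have h1 := hn₀ n hn ((pw X n).dim + rhoM (pw X n) Z) (by
    rw [rhoM, dim_prod, dim_pw]
    rw [abs_le]
    push_cast
    constructor <;> omega)
  have h2 : (Z.dim : ℤ) + (n + 1) * X.dim - ((pw X n).dim + rhoM (pw X n) Z) =
      Z.dim - rhoM (pw X n) Z := by
    rw [dim_pw]; push_cast; ring
  beta_reduce at h1
  rw [h2] at h1
  have h3 := nrmg_pos hS n
  rw [Real.dist_eq]
  have h4 : (rg (algSys W) Z e (pw X n) ((pw X n).dim + rhoM (pw X n) Z)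
      (Z.dim - rhoM (pw X n) Z) : ℝ) / nrmg (algSys W) X n -
        (finrank W.K (LinearMap.range e) : ℝ) =
      ((rg (algSys W) Z e (pw X n) ((pw X n).dim + rhoM (pw X n) Z)
      (Z.dim - rhoM (pw X n) Z) : ℝ) - (finrank W.K (LinearMap.range e) : ℝ) *
        nrmg (algSys W) X n) / nrmg (algSys W) X n := by
    field_simp
  rw [h4, abs_div, abs_of_pos h3, div_lt_iff₀ h3]
  refine lt_of_le_of_lt h1 ?_
  nlinarith

/-- The total number of classes near the middle. -/
lemma total_eq {Y : 𝒱.Obj} {D : Y.Cycles} {g : Module.End W.K (W.H Y)}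
    {B : Z.Cycles} {h : Module.End W.K (W.H Z)} (GY : Gd W Y D g) (GZ : Gd W Z B h) (ρ : ℤ) :
    wsumN (Y.prod Z).dim (posNum W (Y.prod Z)
      (ops.pull (fst Y Z) D + ops.pull (snd Y Z) B)) (wo Y Z ρ) +
    wsumN (Y.prod Z).dim (negNum W (Y.prod Z)
      (ops.pull (fst Y Z) D + ops.pull (snd Y Z) B)) (wo Y Z ρ) =
      rg (algSys W) Z 1 Y (Y.dim + ρ) (Z.dim - ρ) := by
  classical
  obtain ⟨κ, hκ, x, hx, h1, h2⟩ := exists_om2 (GY.fr.prod GZ.fr) (wo Y Z ρ)
  have hE : extOp W (1 : Module.End W.K (W.H Y)) (1 : Module.End W.K (W.H Z)) = 1 := extOp_one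
  have h3 : ∀ E : Module.End W.K (W.H (Y.prod Z)), E = 1 →
      ∃ y : κ → AWs W (Y.prod Z) (wo Y Z ρ) E, OM (BA (GY.fr.prod GZ.fr) (wo Y Z ρ) E) y := by
    rintro _ rfl
    exact ⟨x, hx⟩
  obtain ⟨y, hy⟩ := h3 _ hE
  have h4 := card_eq_rg GY GZ (e := 1) ⟨AH.one, sadj_id GZ⟩ rfl hy
  rw [← h4, ← h1, ← h2]
  have h5 := Finset.card_filter_add_card_filter_not (s := (Finset.univ : Finset κ))
    (fun i => 0 < BA (GY.fr.prod GZ.fr) (wo Y Z ρ) 1 (x i) (x i))
  rw [Finset.card_univ] at h5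
  rw [← h5]
  congr 1
  congr 1
  apply Finset.filter_congr
  intro i _
  rw [not_lt]
  exact ⟨le_of_lt, fun h6 => lt_of_le_of_ne h6 (hx.ne i)⟩

end Lim

section Num

variable {X : 𝒱.Obj} {D : X.Cycles}

lemma negNum_eq_zero_iff (hD : X.IsCyc 1 D) {n : ℕ} (hn : 2 * n ≤ X.dim) :
    negNum W X D n = 0 ↔ ∀ z : X.Cycles, Primitive W X D n z → 0 ≤ pairing ops X D n z z := by
  constructor
  · intro h z hz
    by_contra hneg
    rw [not_le] at hneg
    have h1 : HasFamily W X D n (-1) 1 := by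
      refine ⟨fun _ => z, fun _ => hz, fun _ => ?_, fun i j hij => absurd (Subsingleton.elim i j) hij⟩
      rw [neg_one_mul]
      exact neg_pos.2 hneg
    obtain ⟨N, x, hx⟩ := exists_prim W hD hn
    have hb : BddAbove {r | HasFamily W X D n (-1) r} := by
      have h2 := hx.neg.bddAbove (B := -BP W hD n hn) (fun x y => by
        rw [LinearMap.neg_apply, LinearMap.neg_apply, LinearMap.neg_apply, LinearMap.neg_apply,
          BP_symm])
      have h4 : {r | HasFamily W X D n (-1) r} =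
          {r | PosFam (fun x y => (-BP W hD n hn) x y) r} := by
        ext r; exact hasFamily_neg hD hn r
      rw [h4]; exact h2
    have h5 : 1 ≤ negNum W X D n := le_csSup hb h1
    omega
  · intro h
    have h1 : {r | HasFamily W X D n (-1) r} ⊆ {0} := by
      rintro r ⟨z, hz1, hz2, -⟩
      rw [Set.mem_singleton_iff]
      by_contra hr
      have h2 := hz2 ⟨0, Nat.pos_of_ne_zero hr⟩
      have h3 := h _ (hz1 ⟨0, Nat.pos_of_ne_zero hr⟩)
      linarith
    rw [negNum]
    have h2 : {r | HasFamily W X D n (-1) r} = {0} := by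
      apply Set.Subset.antisymm h1
      rintro _ rfl
      exact ⟨fun i => i.elim0, fun i => i.elim0, fun i => i.elim0, fun i => i.elim0⟩
    rw [h2]
    exact csSup_singleton 0

lemma one_le_posNum (hD : X.IsCyc 1 D)
    (hdeg : 0 < X.V.degCycle (divPow ops D X.dim X.V.fundCycle)) : 1 ≤ posNum W X D 0 := by
  have h1 : HasFamily W X D 0 1 1 := by
    refine ⟨fun _ => X.V.fundCycle, fun _ => fund_prim hD, fun _ => ?_,
      fun i j hij => absurd (Subsingleton.elim i j) hij⟩
    rw [one_mul, pairing_fund W hD]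
    exact hdeg
  obtain ⟨N, x, hx⟩ := exists_prim W hD (n := 0) (by omega)
  have hb : BddAbove {r | HasFamily W X D 0 1 r} := by
    have h2 := hx.bddAbove (BP_symm hD (by omega))
    have h4 : {r | HasFamily W X D 0 1 r} =
        {r | PosFam (fun x y => BP W hD 0 (by omega) x y) r} := by
      ext r; exact hasFamily_one hD (by omega) r
    rw [h4]; exact h2
  exact le_csSup hb h1

end Num

section Lin

variable {K U κ : Type*} [Field K] [CharZero K] [AddCommGroup U] [Module K U]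
  [FiniteDimensional K U]

lemma sum_rank (t : Finset κ) (e : κ → Module.End K U) (hid : ∀ i ∈ t, e i * e i = e i)
    (hort : ∀ i ∈ t, ∀ j ∈ t, i ≠ j → e i * e j = 0) :
    (∑ i ∈ t, e i) * (∑ i ∈ t, e i) = ∑ i ∈ t, e i ∧
      finrank K (LinearMap.range (∑ i ∈ t, e i)) =
        ∑ i ∈ t, finrank K (LinearMap.range (e i)) := by
  classical
  induction t using Finset.induction_on with
  | empty =>
    rw [Finset.sum_empty, Finset.sum_empty, LinearMap.range_zero, finrank_bot, mul_zero]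
    exact ⟨rfl, rfl⟩
  | insert a s ha ih =>
    obtain ⟨h1, h2⟩ := ih (fun i hi => hid i (Finset.mem_insert_of_mem hi))
      (fun i hi j hj => hort i (Finset.mem_insert_of_mem hi) j (Finset.mem_insert_of_mem hj))
    rw [Finset.sum_insert ha, Finset.sum_insert ha]
    have h3 : e a * ∑ i ∈ s, e i = 0 := by
      rw [Finset.mul_sum]
      exact Finset.sum_eq_zero fun j hj => hort a (Finset.mem_insert_self _ _) j
        (Finset.mem_insert_of_mem hj) (fun h => ha (h ▸ hj))
    have h4 : (∑ i ∈ s, e i) * e a = 0 := by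
      rw [Finset.sum_mul]
      exact Finset.sum_eq_zero fun j hj => hort j (Finset.mem_insert_of_mem hj) a
        (Finset.mem_insert_self _ _) (fun h => ha (h ▸ hj))
    have h5 := rank_add_orth (K := K) (hid a (Finset.mem_insert_self _ _)) h1 h3 h4
    refine ⟨h5.1, ?_⟩
    rw [← h2]
    exact h5.2

end Lin

end Pool.Agent.H61.MS
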