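import Pool.Agent.H61.MS.Fam

/-!
# The law in single codimensions near the middle
-/

open CategoryTheory AlgebraicGeometry

universe u v

namespace Pool.Agent.H61.MS

open Module Filter Topology
open Pool.Agent.H914 Pool.Agent.H914.VarClass Pool.Agent.H914.VarClass.Obj
  Pool.Agent.H914.WeilCohomology Pool.Agent.H281R3.HT Pool.Agent.W552 Pool.Agent.W539.Ker
  Pool.Agent.Y133.Half Pool.Agent.H61.GX Pool.Agent.H61.ZX Pool.Agent.H44T.SL Pool.Agent.Y97

variable {k : Type u} [Field k] {𝒱 : VarClass k} {ops : CycleOps 𝒱}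
  {W : WeilCohomology.{u, v} ops}

lemma wsumN_low {d : ℕ} (σ : ℕ → ℕ) {j : ℕ} (hj : 2 * j ≤ d) :
    wsumN d σ ((d : ℤ) - 2 * j) = ∑ n ∈ Finset.range (j + 1), σ n := by
  rw [wsumN, ← Finset.sum_filter]
  apply Finset.sum_congr _ fun _ _ => rfl
  ext i
  rw [Finset.mem_filter, Finset.mem_range, Finset.mem_range, abs_of_nonneg (by omega)]
  constructor
  · rintro ⟨h1, h2, _⟩
    omega
  · intro h1
    refine ⟨by omega, by omega, ?_⟩
    exact ⟨(d : ℤ) - j, by ring⟩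

lemma wo_low (Y Z : 𝒱.Obj) (j : ℕ) :
    wo Y Z ((Z.dim : ℤ) - j) = ((Y.prod Z).dim : ℤ) - 2 * j := by
  rw [wo, dim_prod]
  push_cast
  ring

section Eq

variable {X Z : Polarized 𝒱} {f : Module.End W.K (W.H X.X)} {h : Module.End W.K (W.H Z.X)}

lemma times_dim (Z X : Polarized 𝒱) : ∀ r, (times ops Z X r).X.dim = Z.X.dim + r * X.X.dim
  | 0 => by rw [zero_mul, add_zero]; rfl
  | r + 1 => by
    change (times ops Z X r).X.dim + X.X.dim = _
    rw [times_dim Z X r]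
    ring

lemma low_eq (G : Gp W X.X X.D f) (GZ : Gd W Z.X Z.D h) (r : ℕ) {j : ℕ}
    (hj : 2 * j ≤ (times ops Z X (r + 1)).X.dim) :
    posUpTo W (times ops Z X (r + 1)) j = wsumN ((pw X.X r).prod Z.X).dim
      (posNum W ((pw X.X r).prod Z.X) (ops.pull (fst (pw X.X r) Z.X) (pwD ops X r) +
        ops.pull (snd (pw X.X r) Z.X) Z.D)) (wo (pw X.X r) Z.X ((Z.X.dim : ℤ) - j)) ∧
    negUpTo W (times ops Z X (r + 1)) j = wsumN ((pw X.X r).prod Z.X).dim
      (negNum W ((pw X.X r).prod Z.X) (ops.pull (fst (pw X.X r) Z.X) (pwD ops X r) +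
        ops.pull (snd (pw X.X r) Z.X) Z.D)) (wo (pw X.X r) Z.X ((Z.X.dim : ℤ) - j)) := by
  obtain ⟨g, Gr⟩ := gp_pw (ops := ops) G r
  obtain ⟨e⟩ := times_prod (W := W) (ops := ops) Z X r
  have hZ : Z.X.IsCyc 1 Z.D := GZ.fr.hD
  have hr : (pP ops X r).X.IsCyc 1 (pP ops X r).D := Gr.fr.hD
  have h1 : (Z.prod ops (pP ops X r)).X.IsCyc 1 (Z.prod ops (pP ops X r)).D :=
    (GZ.fr.prod Gr.fr).hD
  have hX : X.X.IsCyc 1 X.D := G.fr.hD
  have h2 := good_div (ops := ops) hX hZ (r + 1)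
  have hdim : ((pw X.X r).prod Z.X).dim = (times ops Z X (r + 1)).X.dim := by
    rw [times_dim, dim_prod, dim_pw]; ring
  have hdim2 : (Z.prod ops (pP ops X r)).X.dim = (times ops Z X (r + 1)).X.dim := e.dim
  have hdim3 : (pP ops X r).X.dim + Z.X.dim = (times ops Z X (r + 1)).X.dim := hdim
  rw [wo_low, wsumN_low _ (by omega), wsumN_low _ (by omega)]
  have hsw : ∀ n, 2 * n ≤ (times ops Z X (r + 1)).X.dim → ∀ (s : ℚ) (t : ℕ),
      HasFamily W (Z.prod ops (pP ops X r)).X (Z.prod ops (pP ops X r)).D n s t ↔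
      HasFamily W ((pP ops X r).prod ops Z).X ((pP ops X r).prod ops Z).D n s t := fun n hn s t =>
    ⟨hasFamily_swap hr hZ (by omega), hasFamily_swap hZ hr (by omega)⟩
  constructor
  · apply Finset.sum_congr rfl
    intro n hn
    rw [Finset.mem_range] at hn
    have h3 := posNum_iso e h1 h2 (n := n) (by omega)
    rw [← h3, posNum, posNum]
    simp only [hsw n (by omega)]
    rfl
  · apply Finset.sum_congr rfl
    intro n hn
    rw [Finset.mem_range] at hn
    have h3 := negNum_iso e h1 h2 (n := n) (by omega)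
    rw [← h3, negNum, negNum]
    simp only [hsw n (by omega)]
    rfl

end Eq

/-- `f r j` is asymptotically `c ν(r)` for all codimensions `j` on `Z × X ^ (r + 1)` with
`2 j ≤ dim ≤ 2 j + J`. -/
def UAsy (X Z : 𝒱.Obj) (f : ℕ → ℕ → ℝ) (c : ℝ) (ν : ℕ → ℝ) : Prop :=
  ∀ (J : ℕ) (δ : ℝ), 0 < δ → ∀ᶠ r : ℕ in atTop, ∀ j : ℕ, 2 * j ≤ Z.dim + (r + 1) * X.dim →
    Z.dim + (r + 1) * X.dim ≤ 2 * j + J → |f r j - c * ν r| ≤ δ * ν r

section Asy

variable {X Z : 𝒱.Obj} {f f' : ℕ → ℕ → ℝ} {c c' : ℝ} {ν : ℕ → ℝ}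

lemma UAsy.congr (h : UAsy X Z f c ν) (hf : ∀ r j, 2 * j ≤ Z.dim + (r + 1) * X.dim →
    f r j = f' r j) : UAsy X Z f' c ν := by
  intro J δ hδ
  filter_upwards [h J δ hδ] with r hr j h1 h2
  rw [← hf r j h1]
  exact hr j h1 h2

lemma UAsy.add (h : UAsy X Z f c ν) (h' : UAsy X Z f' c' ν) :
    UAsy X Z (fun r j => f r j + f' r j) (c + c') ν := by
  intro J δ hδ
  filter_upwards [h J (δ / 2) (by positivity), h' J (δ / 2) (by positivity)] with r hr hr' j h1 h2
  have e1 := hr j h1 h2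
  have e2 := hr' j h1 h2
  have e3 : f r j + f' r j - (c + c') * ν r = (f r j - c * ν r) + (f' r j - c' * ν r) := by ring
  rw [e3]
  refine (abs_add_le _ _).trans ?_
  linarith

lemma UAsy.smul (h : UAsy X Z f c ν) (a : ℝ) :
    UAsy X Z (fun r j => a * f r j) (a * c) ν := by
  intro J δ hδ
  have ha : 0 < |a| + 1 := by positivity
  filter_upwards [h J (δ / (|a| + 1)) (by positivity)] with r hr j h1 h2
  have e1 := hr j h1 h2
  have e3 : a * f r j - a * c * ν r = a * (f r j - c * ν r) := by ring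
  rw [e3, abs_mul]
  calc |a| * |f r j - c * ν r| ≤ (|a| + 1) * (δ / (|a| + 1) * ν r) := by
        apply mul_le_mul (by linarith) e1 (abs_nonneg _) ha.le
    _ = δ * ν r := by field_simp

lemma UAsy.sum {κ : Type*} (t : Finset κ) {f : κ → ℕ → ℕ → ℝ} {c : κ → ℝ}
    (hν : ∀ r, 0 ≤ ν r) (h : ∀ q ∈ t, UAsy X Z (f q) (c q) ν) :
    UAsy X Z (fun r j => ∑ q ∈ t, f q r j) (∑ q ∈ t, c q) ν := by
  classical
  induction t using Finset.induction_on with
  | empty =>
    intro J δ hδ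
    refine Eventually.of_forall fun r j _ _ => ?_
    simp only [Finset.sum_empty, zero_mul, sub_zero, abs_zero]
    exact mul_nonneg hδ.le (hν r)
  | insert a s ha ih =>
    simp only [Finset.sum_insert ha]
    exact (h a (by simp)).add (ih fun q hq => h q (by simp [hq]))

/-- The asymptotics of the ranks. -/
lemma uasy_rg {e : Module.End W.K (W.H Z)}
    (he : e ∈ GOp (algSys W) Z Z 0) (hee : e ∘ₗ e = e) (hl : GLow (algSys W) X Z e) :
    UAsy X Z (fun r j => (rg (algSys W) Z e (pw X r) ((pw X r).dim + ((Z.dim : ℤ) - j))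
      (Z.dim - ((Z.dim : ℤ) - j)) : ℝ)) (finrank W.K (LinearMap.range e)) (nrmg (algSys W) X) := by
  intro J δ hδ
  obtain ⟨n₀, hn₀⟩ := asy_of_low he hee hl δ hδ (J + Z.dim)
  filter_upwards [eventually_ge_atTop n₀] with n hn j hj1 hj2
  have h1 := hn₀ n hn ((pw X n).dim + ((Z.dim : ℤ) - j)) (by
    rw [dim_pw, abs_le]
    have e1 : (2 * (j : ℤ)) ≤ Z.dim + (n + 1) * X.dim := by exact_mod_cast hj1
    have e2 : (Z.dim : ℤ) + (n + 1) * X.dim ≤ 2 * j + J := by exact_mod_cast hj2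
    push_cast
    constructor <;> linarith)
  beta_reduce at h1
  have h2 : (Z.dim : ℤ) + (n + 1) * X.dim - ((pw X n).dim + ((Z.dim : ℤ) - j)) =
      Z.dim - ((Z.dim : ℤ) - j) := by
    rw [dim_pw]; push_cast; ring
  rw [h2] at h1
  exact h1

/-- The limit of the middle values. -/
lemma UAsy.tendsto (h : UAsy X Z f c ν) (hν : ∀ r, 0 < ν r) :
    Tendsto (fun r => f r ((Z.dim + (r + 1) * X.dim) / 2) / ν r) atTop (𝓝 c) := by
  rw [Metric.tendsto_nhds]
  intro ε hε
  filter_upwards [h 1 (ε / 2) (by positivity)] with r hr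
  have h1 := hr ((Z.dim + (r + 1) * X.dim) / 2) (by omega) (by omega)
  have h3 := hν r
  rw [Real.dist_eq]
  have h4 : f r ((Z.dim + (r + 1) * X.dim) / 2) / ν r - c =
      (f r ((Z.dim + (r + 1) * X.dim) / 2) - c * ν r) / ν r := by
    field_simp
  rw [h4, abs_div, abs_of_pos h3, div_lt_iff₀ h3]
  refine lt_of_le_of_lt h1 ?_
  nlinarith

end Asy

section Main

variable {X Z : Polarized 𝒱}

open Polynomial in
/-- **The law for the signs in single codimensions.** -/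
theorem mixedU (hX : IsGood W X) (hZ : IsGood W Z) (hd : 0 < X.X.dim)
    (hpos : ∀ m n, 2 * n ≤ (times ops X X m).X.dim →
      negNum W (times ops X X m).X (times ops X X m).D n = 0) :
    ∃ x y : ℕ, allPos W Z ≤ x ∧ allNeg W Z ≤ y ∧ x + y ≤ finrank W.K (W.H Z.X) ∧
      UAsy X.X Z.X (fun r j => (posUpTo W (times ops Z X (r + 1)) j : ℝ)) x
        (nrmg (algSys W) X.X) ∧
      UAsy X.X Z.X (fun r j => (negUpTo W (times ops Z X (r + 1)) j : ℝ)) y
        (nrmg (algSys W) X.X) ∧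
      (y = 0 → ∀ r j, 2 * j ≤ (times ops Z X (r + 1)).X.dim →
        negUpTo W (times ops Z X (r + 1)) j = 0) := by
  have hS := gbig_of_good hX hd
  obtain ⟨f, G⟩ := exists_gp hX.div hX.hard hX.lef
  obtain ⟨h, GZ⟩ := exists_gp hZ.div hZ.hard hZ.lef
  have hpar := (par_gop GZ.gd).gop (wo_self Z.X)
  obtain ⟨π, hπ, hmax, -⟩ := exists_gmax (S := algSys W) (T := algSys W) (Z := Z.X) (X := X.X)
    (fun _ => le_rfl) GGood.zero
  obtain ⟨p, hp1, hp2, hp3, hp4⟩ := exists_p G hpos GZ.gd hπ.gen hmax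
  have H : SAH GZ.gd p := ⟨hp1, hp2⟩
  obtain ⟨t, N, e, M, hpc, hort, hM⟩ := exists_dec H hp3
  have hdim : ∀ r, (times ops Z X (r + 1)).X.dim = Z.X.dim + (r + 1) * X.X.dim := fun r =>
    MS.times_dim Z X (r + 1)
  have key : ∀ r j, ∃ P Q : ℚ[X] → ℕ, 2 * j ≤ Z.X.dim + (r + 1) * X.X.dim →
      (∀ q ∈ t, P q + Q q = rg (algSys W) Z.X (e q) (pw X.X r)
          ((pw X.X r).dim + ((Z.X.dim : ℤ) - j)) (Z.X.dim - ((Z.X.dim : ℤ) - j)) ∧
        q.natDegree * Q q = nneg q * (P q + Q q)) ∧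
      posUpTo W (times ops Z X (r + 1)) j = ∑ q ∈ t, P q ∧
      negUpTo W (times ops Z X (r + 1)) j = ∑ q ∈ t, Q q := by
    intro r j
    by_cases hj : 2 * j ≤ Z.X.dim + (r + 1) * X.X.dim
    · obtain ⟨g, Gr⟩ := gp_pw (ops := ops) G r
      obtain ⟨P, Q, h1, h2, h3⟩ := count_pieces (GY := Gr.gd) H hpc hort hM
        (ρ := (Z.X.dim : ℤ) - j) (fun s hs => hp4 r g Gr.gd _ s hs)
      obtain ⟨h4, h5⟩ := low_eq G GZ.gd r (j := j) (by rw [hdim]; exact hj)
      exact ⟨P, Q, fun _ => ⟨h1, h4.trans h2, h5.trans h3⟩⟩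
    · exact ⟨0, 0, fun h => absurd h hj⟩
  choose P Q hPQ using key
  set R : ℚ[X] → ℕ := fun q => finrank W.K (LinearMap.range (e q)) with hR
  have hdeg : ∀ q ∈ t, 0 < q.natDegree := fun q hq => (hpc q hq).irr.natDegree_pos
  have hdvd : ∀ q ∈ t, q.natDegree * (R q / q.natDegree) = R q := fun q hq =>
    Nat.mul_div_cancel' (hpc q hq).dvd
  have hnn : ∀ q ∈ t, nneg q * (R q / q.natDegree) ≤ R q := fun q hq => by
    have h1 := Nat.mul_le_mul_right (R q / q.natDegree) (nneg_le q)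
    rwa [hdvd q hq] at h1
  have hν : ∀ r, 0 < nrmg (algSys W) X.X r := nrmg_pos hS
  -- the limits of the pieces
  have hlim : ∀ q ∈ t, UAsy X.X Z.X (fun r j => (rg (algSys W) Z.X (e q) (pw X.X r)
      ((pw X.X r).dim + ((Z.X.dim : ℤ) - j)) (Z.X.dim - ((Z.X.dim : ℤ) - j)) : ℝ))
        (R q) (nrmg (algSys W) X.X) := fun q hq =>
    uasy_rg ((hpc q hq).sah.ah.gop (wo_self Z.X)) (hpc q hq).idem
      (glow_of_gidl hS hpar _ (e q) (hpc q hq).gen (hpc q hq).idem le_rfl)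
  have hQlim : ∀ q ∈ t, UAsy X.X Z.X (fun r j => (Q r j q : ℝ))
      ((nneg q * (R q / q.natDegree) : ℕ) : ℝ) (nrmg (algSys W) X.X) := by
    intro q hq
    have h0 : (0 : ℝ) < q.natDegree := by exact_mod_cast hdeg q hq
    have h1 := (hlim q hq).smul ((nneg q : ℝ) / q.natDegree)
    have h2 : (nneg q : ℝ) / q.natDegree * R q = ((nneg q * (R q / q.natDegree) : ℕ) : ℝ) := by
      have h3 : (q.natDegree : ℝ) * ((R q / q.natDegree : ℕ) : ℝ) = R q := by
        exact_mod_cast hdvd q hq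
      rw [← h3]
      push_cast
      field_simp
    rw [h2] at h1
    refine h1.congr fun r j hj => ?_
    have h4 : (q.natDegree : ℝ) * Q r j q = nneg q * (rg (algSys W) Z.X (e q) (pw X.X r)
      ((pw X.X r).dim + ((Z.X.dim : ℤ) - j)) (Z.X.dim - ((Z.X.dim : ℤ) - j)) : ℝ) := by
      have h5 := ((hPQ r j hj).1 q hq).2
      rw [((hPQ r j hj).1 q hq).1] at h5
      exact_mod_cast h5
    rw [div_mul_eq_mul_div, ← h4]
    field_simp
  have hPlim : ∀ q ∈ t, UAsy X.X Z.X (fun r j => (P r j q : ℝ))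
      ((R q - nneg q * (R q / q.natDegree) : ℕ) : ℝ) (nrmg (algSys W) X.X) := by
    intro q hq
    have h1 := (hlim q hq).add ((hQlim q hq).smul (-1))
    have h2 : (R q : ℝ) + (-1) * ((nneg q * (R q / q.natDegree) : ℕ) : ℝ) =
        ((R q - nneg q * (R q / q.natDegree) : ℕ) : ℝ) := by
      rw [Nat.cast_sub (hnn q hq)]
      ring
    rw [h2] at h1
    refine h1.congr fun r j hj => ?_
    rw [← ((hPQ r j hj).1 q hq).1]
    push_cast
    ring
  have hsum : ∑ q ∈ t, R q ≤ finrank W.K (W.H Z.X) := by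
    have h1 := (sum_rank (K := W.K) t e (fun q hq => (hpc q hq).idem) hort).2
    rw [← h1]
    exact Submodule.finrank_le _
  have hPU : UAsy X.X Z.X (fun r j => (posUpTo W (times ops Z X (r + 1)) j : ℝ))
      ((∑ q ∈ t, (R q - nneg q * (R q / q.natDegree)) : ℕ) : ℝ) (nrmg (algSys W) X.X) := by
    have h1 := UAsy.sum t (fun r => (hν r).le) hPlim
    rw [← Nat.cast_sum] at h1
    refine h1.congr fun r j hj => ?_
    rw [(hPQ r j hj).2.1, Nat.cast_sum]
  have hNU : UAsy X.X Z.X (fun r j => (negUpTo W (times ops Z X (r + 1)) j : ℝ))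
      ((∑ q ∈ t, nneg q * (R q / q.natDegree) : ℕ) : ℝ) (nrmg (algSys W) X.X) := by
    have h1 := UAsy.sum t (fun r => (hν r).le) hQlim
    rw [← Nat.cast_sum] at h1
    refine h1.congr fun r j hj => ?_
    rw [(hPQ r j hj).2.2, Nat.cast_sum]
  have hown := own_bound (x := ((∑ q ∈ t, (R q - nneg q * (R q / q.natDegree)) : ℕ) : ℝ))
    (y := ((∑ q ∈ t, nneg q * (R q / q.natDegree) : ℕ) : ℝ)) hX hZ hd hpos
    ((hPU.tendsto hν).congr fun r => by
      rw [← hdim r]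
      rfl)
    ((hNU.tendsto hν).congr fun r => by
      rw [← hdim r]
      rfl)
  refine ⟨∑ q ∈ t, (R q - nneg q * (R q / q.natDegree)), ∑ q ∈ t, nneg q * (R q / q.natDegree),
    by exact_mod_cast hown.1, by exact_mod_cast hown.2, ?_, hPU, hNU, ?_⟩
  · rw [← Finset.sum_add_distrib]
    refine le_trans (le_of_eq ?_) hsum
    apply Finset.sum_congr rfl
    intro q hq
    exact Nat.sub_add_cancel (hnn q hq)
  · intro hy r j hj
    rw [hdim] at hj
    rw [Finset.sum_eq_zero_iff] at hy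
    rw [(hPQ r j hj).2.2]
    apply Finset.sum_eq_zero
    intro q hq
    have h5 := ((hPQ r j hj).1 q hq)
    rcases Nat.mul_eq_zero.1 (hy q hq) with h1 | h1
    · have h2 := h5.2
      rw [h1, zero_mul] at h2
      rcases Nat.mul_eq_zero.1 h2 with h3 | h3
      · have := hdeg q hq
        omega
      · exact h3
    · have h6 := hdvd q hq
      rw [h1, mul_zero] at h6
      have h7 := rg_le (algSys W) (Z := pw X.X r) (e q) (hpc q hq).idem
        ((pw X.X r).dim + ((Z.X.dim : ℤ) - j)) (Z.X.dim - ((Z.X.dim : ℤ) - j))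
      have h8 : finrank W.K (LinearMap.range (e q)) = 0 := h6.symm
      rw [h8, zero_mul] at h7
      have h9 := h5.1
      omega

end Main

end Pool.Agent.H61.MS
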